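import Mathlib

/-!
# Degree bound for sums of square roots (for MP_18bf68_lc, lemma A of helper2)
-/

open scoped Polynomial
open IntermediateField

namespace QG

/-- `z` is a root of a nonzero integer polynomial of degree at most `D`. -/
def LowDeg (D : ℕ) (z : ℝ) : Prop :=
  ∃ f : ℤ[X], f ≠ 0 ∧ Polynomial.aeval z f = 0 ∧ f.natDegree ≤ D

namespace DegBound

/-- elements of `K(s)` with `s^2 ∈ K` are `a + b s`. -/
lemma mem_adj (K : Subfield ℝ) (s : ℝ) (hs : s ^ 2 ∈ K) :
    ∀ x ∈ Subfield.closure (insert s (K : Set ℝ)), ∃ a ∈ K, ∃ b ∈ K, x = a + b * s := by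
  intro x hx
  induction hx using Subfield.closure_induction with
  | mem x hx =>
    rcases hx with rfl | hx
    · exact ⟨0, K.zero_mem, 1, K.one_mem, by ring⟩
    · exact ⟨x, hx, 0, K.zero_mem, by ring⟩
  | one => exact ⟨1, K.one_mem, 0, K.zero_mem, by ring⟩
  | add x y _ _ hx hy =>
    obtain ⟨a, ha, b, hb, rfl⟩ := hx
    obtain ⟨c, hc, d, hd, rfl⟩ := hy
    exact ⟨a + c, K.add_mem ha hc, b + d, K.add_mem hb hd, by ring⟩
  | neg x _ hx =>
    obtain ⟨a, ha, b, hb, rfl⟩ := hx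
    exact ⟨-a, K.neg_mem ha, -b, K.neg_mem hb, by ring⟩
  | inv x _ hx =>
    obtain ⟨a, ha, b, hb, rfl⟩ := hx
    by_cases h0 : a ^ 2 - b ^ 2 * s ^ 2 = 0
    · have h1 : (a - b * s) * (a + b * s) = 0 := by linarith [h0, (by ring : (a - b * s) * (a + b * s) = a ^ 2 - b ^ 2 * s ^ 2)]
      rcases mul_eq_zero.1 h1 with h2 | h2
      · have h3 : a + b * s = 2 * a := by linarith
        refine ⟨(2 * a)⁻¹, K.inv_mem ?_, 0, K.zero_mem, by rw [h3]; ring⟩
        have : (2 : ℝ) * a = a + a := by ring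
        rw [this]; exact K.add_mem ha ha
      · exact ⟨0, K.zero_mem, 0, K.zero_mem, by rw [h2]; simp⟩
    · have hD : a ^ 2 - b ^ 2 * s ^ 2 ∈ K :=
        K.sub_mem (K.pow_mem ha 2) (K.mul_mem (K.pow_mem hb 2) hs)
      refine ⟨a * (a ^ 2 - b ^ 2 * s ^ 2)⁻¹, K.mul_mem ha (K.inv_mem hD),
        -b * (a ^ 2 - b ^ 2 * s ^ 2)⁻¹, K.mul_mem (K.neg_mem hb) (K.inv_mem hD), ?_⟩
      have hne : a + b * s ≠ 0 := by
        intro h; apply h0
        have : a ^ 2 - b ^ 2 * s ^ 2 = (a + b * s) * (a - b * s) := by ring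
        rw [this, h, zero_mul]
      have hne2 : a - b * s ≠ 0 := by
        intro h; apply h0
        have : a ^ 2 - b ^ 2 * s ^ 2 = (a + b * s) * (a - b * s) := by ring
        rw [this, h, mul_zero]
      have : a ^ 2 - b ^ 2 * s ^ 2 = (a + b * s) * (a - b * s) := by ring
      rw [this]
      field_simp
      ring
  | mul x y _ _ hx hy =>
    obtain ⟨a, ha, b, hb, rfl⟩ := hx
    obtain ⟨c, hc, d, hd, rfl⟩ := hy
    exact ⟨a * c + b * d * s ^ 2, K.add_mem (K.mul_mem ha hc) (K.mul_mem (K.mul_mem hb hd) hs),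
      a * d + b * c, K.add_mem (K.mul_mem ha hd) (K.mul_mem hb hc), by ring⟩

variable {ι : Type*} [DecidableEq ι]

/-- the field generated by `√(q i)`, `i ∈ T`. -/
noncomputable def KT (q : ι → ℕ) (T : Finset ι) : Subfield ℝ :=
  Subfield.closure ((fun i => √(q i : ℝ)) '' (T : Set ι))

omit [DecidableEq ι] in
lemma sqrt_mem_KT (q : ι → ℕ) (T : Finset ι) (i : ι) (hi : i ∈ T) : √(q i : ℝ) ∈ KT q T :=
  Subfield.subset_closure ⟨i, by exact_mod_cast hi, rfl⟩

lemma natCast_memK (K : Subfield ℝ) (m : ℕ) : (m : ℝ) ∈ K := natCast_mem K m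

lemma sq_sqrt_nat (m : ℕ) : √(m : ℝ) ^ 2 = m := Real.sq_sqrt (Nat.cast_nonneg m)

lemma isSquare_of_sqrt_rat (m : ℕ) (h : ∃ r : ℚ, (r : ℝ) = √(m : ℝ)) : IsSquare m := by
  obtain ⟨r, hr⟩ := h
  by_contra hm
  have := irrational_sqrt_natCast_iff.2 hm
  exact this ⟨r, hr⟩

/-- Square roots of numbers coprime to the `q i` are not in the field unless they are integers. -/
lemma key (q : ι → ℕ) (hq : Pairwise (fun i j => Nat.Coprime (q i) (q j)))
    (hns : ∀ i, ¬ IsSquare (q i)) (T : Finset ι) :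
    ∀ m : ℕ, (∀ i ∈ T, Nat.Coprime m (q i)) → √(m : ℝ) ∈ KT q T → IsSquare m := by
  induction T using Finset.induction_on with
  | empty =>
    intro m _ hm
    apply isSquare_of_sqrt_rat
    have h0 : KT q ∅ = ⊥ := by simp [KT]
    rw [h0] at hm
    have h1 : (⊥ : Subfield ℝ) ≤ (algebraMap ℚ ℝ).fieldRange := bot_le
    obtain ⟨r, hr⟩ := h1 hm
    exact ⟨r, by simpa using hr⟩
  | insert k T hk ih =>
    intro m hcop hm
    have hle : KT q (insert k T) ≤ Subfield.closure (insert (√(q k : ℝ)) (KT q T : Set ℝ)) := by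
      unfold KT
      rw [Subfield.closure_le]
      rintro x ⟨i, hi, rfl⟩
      simp only [Finset.coe_insert, Set.mem_insert_iff, Finset.mem_coe] at hi
      rcases hi with rfl | hi
      · exact Subfield.subset_closure (Set.mem_insert _ _)
      · exact Subfield.subset_closure (Set.mem_insert_of_mem _
          (Subfield.subset_closure ⟨i, by exact_mod_cast hi, rfl⟩))
    obtain ⟨a, ha, b, hb, hab⟩ := mem_adj (KT q T) (√(q k : ℝ))
      (by rw [sq_sqrt_nat]; exact natCast_memK _ _) _ (hle hm)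
    have hkcop : ∀ i ∈ T, Nat.Coprime (q k) (q i) := fun i hi => hq (by rintro rfl; exact hk hi)
    have hmT : ∀ i ∈ T, Nat.Coprime m (q i) := fun i hi => hcop i (Finset.mem_insert_of_mem hi)
    by_cases hb0 : b = 0
    · rw [hb0] at hab
      apply ih m hmT
      rw [hab]; simpa using ha
    by_cases ha0 : a = 0
    · exfalso
      rw [ha0] at hab
      -- √(m q_k) ∈ K_T
      have h1 : √((m * q k : ℕ) : ℝ) ∈ KT q T := by
        have : √((m * q k : ℕ) : ℝ) = b * (q k : ℝ) := by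
          push_cast
          rw [Real.sqrt_mul (Nat.cast_nonneg m), hab, zero_add, mul_assoc, ← sq, sq_sqrt_nat]
        rw [this]
        exact (KT q T).mul_mem hb (natCast_memK _ _)
      have h2 : IsSquare (m * q k) := by
        apply ih _ _ h1
        intro i hi
        exact Nat.Coprime.mul_left (hmT i hi) (hkcop i hi)
      have hck : Nat.Coprime m (q k) := hcop k (Finset.mem_insert_self _ _)
      have h3 : IsSquare (q k) := by
        obtain ⟨r, hr⟩ := h2
        have hr' : (q k) * m = r ^ 2 := by rw [mul_comm, hr, sq]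
        have hu : IsUnit (gcd (q k) m) := by
          have : gcd (q k) m = 1 := Nat.Coprime.symm hck
          rw [this]; exact isUnit_one
        obtain ⟨c, hc⟩ := exists_eq_pow_of_mul_eq_pow hu hr'
        exact ⟨c, by rw [hc, sq]⟩
      exact hns k h3
    · exfalso
      apply hns k
      apply ih _ hkcop
      have h1 : √(q k : ℝ) = ((m : ℝ) - a ^ 2 - b ^ 2 * (q k : ℝ)) * (2 * a * b)⁻¹ := by
        have h2 : (m : ℝ) = a ^ 2 + b ^ 2 * (q k : ℝ) + 2 * a * b * √(q k : ℝ) := by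
          have h5 := sq_sqrt_nat m
          have h6 := sq_sqrt_nat (q k)
          rw [hab] at h5
          rw [← h5, ← h6]
          have h7 : √(√(q k : ℝ) ^ 2) = √(q k : ℝ) := Real.sqrt_sq (Real.sqrt_nonneg _)
          rw [h7]
          ring
        have h3 : (2 * a * b) ≠ 0 := by positivity
        field_simp
        linarith
      rw [h1]
      have h2 : (2 : ℝ) ∈ KT q T := by exact_mod_cast natCast_memK (KT q T) 2
      exact (KT q T).mul_mem ((KT q T).sub_mem ((KT q T).sub_mem (natCast_memK _ _)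
        ((KT q T).pow_mem ha 2)) ((KT q T).mul_mem ((KT q T).pow_mem hb 2) (natCast_memK _ _)))
        ((KT q T).inv_mem ((KT q T).mul_mem ((KT q T).mul_mem h2 ha) hb))

/-- `√(q j)` is not in the field generated by the other ones. -/
lemma sqrt_not_mem [Fintype ι] (q : ι → ℕ) (hq : Pairwise (fun i j => Nat.Coprime (q i) (q j)))
    (hns : ∀ i, ¬ IsSquare (q i)) (j : ι) : √(q j : ℝ) ∉ KT q (Finset.univ.erase j) := by
  intro h
  refine hns j (key q hq hns _ (q j) ?_ h)
  intro i hi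
  exact hq (Finset.ne_of_mem_erase hi).symm

/-- evaluation with signs -/
noncomputable def ev (q : ι → ℕ) (e : ι → ℝ) : MvPolynomial ι ℚ →ₐ[ℚ] ℝ :=
  MvPolynomial.aeval (fun i => e i * √(q i : ℝ))

lemma decomp [Fintype ι] (q : ι → ℕ) (e : ι → ℝ) (he : ∀ i, e i = 1 ∨ e i = -1) (j : ι)
    (P : MvPolynomial ι ℚ) :
    ∃ a ∈ KT q (Finset.univ.erase j), ∃ b ∈ KT q (Finset.univ.erase j),
      ev q e P = a + b * (e j * √(q j : ℝ)) ∧
      ev q (Function.update e j (- e j)) P = a - b * (e j * √(q j : ℝ)) := by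
  set K := KT q (Finset.univ.erase j) with hK
  induction P using MvPolynomial.induction_on with
  | C r =>
    refine ⟨(r : ℝ), ?_, 0, K.zero_mem, ?_, ?_⟩
    · exact SubfieldClass.ratCast_mem K r
    · simp [ev]
    · simp [ev]
  | add P Q hP hQ =>
    obtain ⟨a, ha, b, hb, h1, h2⟩ := hP
    obtain ⟨c, hc, d, hd, h3, h4⟩ := hQ
    refine ⟨a + c, K.add_mem ha hc, b + d, K.add_mem hb hd, ?_, ?_⟩
    · rw [map_add, h1, h3]; ring
    · rw [map_add, h2, h4]; ring
  | mul_X P i hP =>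
    obtain ⟨a, ha, b, hb, h1, h2⟩ := hP
    by_cases hij : i = j
    · subst hij
      refine ⟨b * (q i : ℝ), K.mul_mem hb (natCast_memK _ _), a, ha, ?_, ?_⟩
      · rw [map_mul, h1]
        have : ev q e (MvPolynomial.X i) = e i * √(q i : ℝ) := by simp [ev]
        rw [this]
        have h5 : (e i * √(q i : ℝ)) ^ 2 = (q i : ℝ) := by
          rw [mul_pow, sq_sqrt_nat]
          rcases he i with h | h <;> rw [h] <;> ring
        linear_combination b * h5
      · rw [map_mul, h2]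
        have : ev q (Function.update e i (- e i)) (MvPolynomial.X i) = - (e i * √(q i : ℝ)) := by
          simp [ev]
        rw [this]
        have h5 : (e i * √(q i : ℝ)) ^ 2 = (q i : ℝ) := by
          rw [mul_pow, sq_sqrt_nat]
          rcases he i with h | h <;> rw [h] <;> ring
        linear_combination b * h5
    · have hmem : e i * √(q i : ℝ) ∈ K := by
        have h6 : √(q i : ℝ) ∈ K := sqrt_mem_KT q _ i (Finset.mem_erase.2 ⟨hij, Finset.mem_univ _⟩)
        rcases he i with h | h <;> rw [h]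
        · simpa using h6
        · simpa using h6
      refine ⟨a * (e i * √(q i : ℝ)), K.mul_mem ha hmem, b * (e i * √(q i : ℝ)),
        K.mul_mem hb hmem, ?_, ?_⟩
      · rw [map_mul, h1]
        have : ev q e (MvPolynomial.X i) = e i * √(q i : ℝ) := by simp [ev]
        rw [this]; ring
      · rw [map_mul, h2]
        have : ev q (Function.update e j (- e j)) (MvPolynomial.X i) = e i * √(q i : ℝ) := by
          simp [ev, Function.update_of_ne hij]
        rw [this]; ring

lemma ev_flip [Fintype ι] (q : ι → ℕ) (hq : Pairwise (fun i j => Nat.Coprime (q i) (q j)))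
    (hns : ∀ i, ¬ IsSquare (q i)) (e : ι → ℝ) (he : ∀ i, e i = 1 ∨ e i = -1) (j : ι)
    (P : MvPolynomial ι ℚ) (h0 : ev q e P = 0) : ev q (Function.update e j (- e j)) P = 0 := by
  obtain ⟨a, ha, b, hb, h1, h2⟩ := decomp q e he j P
  have hb0 : b = 0 := by
    by_contra hb0
    apply sqrt_not_mem q hq hns j
    have h3 : a + b * (e j * √(q j : ℝ)) = 0 := by rw [← h1, h0]
    have h4 : √(q j : ℝ) = - (a * (b * e j)⁻¹) := by
      have hej : e j ≠ 0 := by rcases he j with h | h <;> rw [h] <;> norm_num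
      field_simp
      linarith
    rw [h4]
    set K := KT q (Finset.univ.erase j) with hK
    have hemem : e j ∈ K := by
      rcases he j with h | h <;> rw [h]
      · exact K.one_mem
      · exact K.neg_mem K.one_mem
    exact K.neg_mem (K.mul_mem ha (K.inv_mem (K.mul_mem hb hemem)))
  rw [h2]
  rw [hb0] at h1 ⊢
  rw [h0] at h1
  linarith

/-- the kernel does not depend on the signs -/
lemma ev_signs [Fintype ι] (q : ι → ℕ) (hq : Pairwise (fun i j => Nat.Coprime (q i) (q j)))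
    (hns : ∀ i, ¬ IsSquare (q i)) (P : MvPolynomial ι ℚ) (h0 : ev q (fun _ => 1) P = 0)
    (T : Finset ι) : ev q (fun i => if i ∈ T then -1 else 1) P = 0 := by
  induction T using Finset.induction_on with
  | empty => simpa using h0
  | insert j T hj ih =>
    have h := ev_flip q hq hns (fun i => if i ∈ T then -1 else 1)
      (by intro i; by_cases h : i ∈ T <;> simp [h]) j P ih
    have h8 : (fun i => if i ∈ insert j T then (-1 : ℝ) else 1) =
        Function.update (fun i => if i ∈ T then (-1 : ℝ) else 1) j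
          (-(fun i => if i ∈ T then (-1 : ℝ) else 1) j) := by
      ext i
      by_cases hij : i = j
      · subst hij; simp [hj]
      · simp [Function.update_of_ne hij, hij]
    rw [h8]
    exact h

end DegBound

open DegBound

theorem degree_bound (n D : ℕ) (q : Fin (n + 1) → ℕ)
    (hq : Pairwise (fun i j => Nat.Coprime (q i) (q j))) (hns : ∀ i, ¬ IsSquare (q i))
    (hn : D ^ 3 < 2 ^ n) (z0 z1 z2 : ℝ) (hne : z1 ≠ z0)
    (h : (z2 - z0) * √(q 0 : ℝ) = (z1 - z0) * ∑ i, √(q i : ℝ)) :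
    ¬ (LowDeg D z0 ∧ LowDeg D z1 ∧ LowDeg D z2) := by
  rintro ⟨l0, l1, l2⟩
  have hq0 : (0 : ℝ) < q 0 := by
    have : q 0 ≠ 0 := by
      intro h0; apply hns 0; rw [h0]; exact ⟨0, rfl⟩
    exact_mod_cast Nat.pos_of_ne_zero this
  have hs0 : √(q 0 : ℝ) ≠ 0 := (Real.sqrt_pos.2 hq0).ne'
  -- integrality and degrees
  have main : ∀ z : ℝ, LowDeg D z → IsIntegral ℚ z ∧ (minpoly ℚ z).natDegree ≤ D := by
    rintro z ⟨f, hf0, hfz, hfd⟩
    set g : ℚ[X] := f.map (Int.castRingHom ℚ) with hg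
    have hg0 : g ≠ 0 := (Polynomial.map_ne_zero_iff (Int.cast_injective)).2 hf0
    have hgz : Polynomial.aeval z g = 0 := by
      rw [hg, ← hfz, Polynomial.aeval_def, Polynomial.aeval_def, Polynomial.eval₂_map]
      congr 1
    have halg : IsAlgebraic ℚ z := ⟨g, hg0, hgz⟩
    refine ⟨halg.isIntegral, ?_⟩
    have h1 := Polynomial.natDegree_le_natDegree (minpoly.degree_le_of_ne_zero ℚ z hg0 hgz)
    refine h1.trans ?_
    rw [hg]
    exact (Polynomial.natDegree_map_le).trans hfd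
  obtain ⟨i0, d0⟩ := main z0 l0
  obtain ⟨i1, d1⟩ := main z1 l1
  obtain ⟨i2, d2⟩ := main z2 l2
  set E : IntermediateField ℚ ℝ := ℚ⟮z0⟯ ⊔ ℚ⟮z1⟯ ⊔ ℚ⟮z2⟯ with hE
  have f0 : FiniteDimensional ℚ ℚ⟮z0⟯ := IntermediateField.adjoin.finiteDimensional i0
  have f1 : FiniteDimensional ℚ ℚ⟮z1⟯ := IntermediateField.adjoin.finiteDimensional i1
  have f2 : FiniteDimensional ℚ ℚ⟮z2⟯ := IntermediateField.adjoin.finiteDimensional i2
  have fE : FiniteDimensional ℚ E := inferInstance
  have hfin : Module.finrank ℚ E ≤ D ^ 3 := by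
    have h1 : Module.finrank ℚ E ≤ Module.finrank ℚ ↥(ℚ⟮z0⟯ ⊔ ℚ⟮z1⟯) * Module.finrank ℚ ℚ⟮z2⟯ :=
      IntermediateField.finrank_sup_le _ _
    have h2 : Module.finrank ℚ ↥(ℚ⟮z0⟯ ⊔ ℚ⟮z1⟯) ≤
        Module.finrank ℚ ℚ⟮z0⟯ * Module.finrank ℚ ℚ⟮z1⟯ := IntermediateField.finrank_sup_le _ _
    rw [IntermediateField.adjoin.finrank i2] at h1
    rw [IntermediateField.adjoin.finrank i0, IntermediateField.adjoin.finrank i1] at h2
    calc Module.finrank ℚ E ≤ _ := h1
      _ ≤ (D * D) * D := Nat.mul_le_mul (h2.trans (Nat.mul_le_mul d0 d1)) d2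
      _ = D ^ 3 := by ring
  set S : ℝ := (z2 - z0) / (z1 - z0) with hS
  have hm0 : z0 ∈ E := (le_sup_left.trans le_sup_left : ℚ⟮z0⟯ ≤ E)
    (IntermediateField.mem_adjoin_simple_self ℚ z0)
  have hm1 : z1 ∈ E := (le_sup_right.trans le_sup_left : ℚ⟮z1⟯ ≤ E)
    (IntermediateField.mem_adjoin_simple_self ℚ z1)
  have hm2 : z2 ∈ E := (le_sup_right : ℚ⟮z2⟯ ≤ E)
    (IntermediateField.mem_adjoin_simple_self ℚ z2)
  have hSE : S ∈ E := E.div_mem (E.sub_mem hm2 hm0) (E.sub_mem hm1 hm0)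
  set g : ℚ[X] := minpoly ℚ (⟨S, hSE⟩ : E) with hg
  have hg0 : g ≠ 0 := minpoly.ne_zero_of_finite ℚ _
  have hgd : g.natDegree ≤ D ^ 3 := (minpoly.natDegree_le (⟨S, hSE⟩ : E) (A := ℚ)).trans hfin
  have hgS : Polynomial.aeval S g = 0 := by
    have h1 : Polynomial.aeval (⟨S, hSE⟩ : E) g = 0 := minpoly.aeval ℚ _
    have h2 := Polynomial.aeval_algHom_apply E.val (⟨S, hSE⟩ : E) g
    rw [h1, map_zero] at h2
    exact h2
  -- the polynomial in the square roots
  set P : MvPolynomial (Fin (n + 1)) ℚ :=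
    ∑ i, MvPolynomial.C (1 / (q 0 : ℚ)) * MvPolynomial.X i * MvPolynomial.X 0 with hP
  have hev : ∀ e : Fin (n + 1) → ℝ, ev q e P =
      ∑ i, 1 / (q 0 : ℝ) * (e i * √(q i : ℝ)) * (e 0 * √(q 0 : ℝ)) := by
    intro e
    simp [hP, ev]
  have hSP : ev q (fun _ => 1) P = S := by
    rw [hev]
    have h1 : ∑ i, 1 / (q 0 : ℝ) * (1 * √(q i : ℝ)) * (1 * √(q 0 : ℝ)) =
        1 / (q 0 : ℝ) * √(q 0 : ℝ) * ∑ i, √(q i : ℝ) := by
      rw [Finset.mul_sum]
      exact Finset.sum_congr rfl fun i _ => by ring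
    rw [h1, hS, eq_div_iff (sub_ne_zero.2 hne)]
    have h2 : √(q 0 : ℝ) * √(q 0 : ℝ) = q 0 := by rw [← sq, sq_sqrt_nat]
    calc 1 / (q 0 : ℝ) * √(q 0 : ℝ) * (∑ i, √(q i : ℝ)) * (z1 - z0)
        = 1 / (q 0 : ℝ) * √(q 0 : ℝ) * ((z1 - z0) * ∑ i, √(q i : ℝ)) := by ring
      _ = 1 / (q 0 : ℝ) * (√(q 0 : ℝ) * √(q 0 : ℝ)) * (z2 - z0) := by rw [← h]; ring
      _ = z2 - z0 := by rw [h2]; field_simp
  have hroot : ∀ T : Finset (Fin (n + 1)),
      Polynomial.aeval (ev q (fun i => if i ∈ T then -1 else 1) P) g = 0 := by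
    intro T
    rw [Polynomial.aeval_algHom_apply]
    apply ev_signs q hq hns
    rw [← Polynomial.aeval_algHom_apply, hSP, hgS]
  -- the roots are different
  have hinj : Set.InjOn (fun T : Finset (Fin (n + 1)) => ev q (fun i => if i ∈ T then -1 else 1) P)
      ((Finset.univ.erase (0 : Fin (n + 1))).powerset : Set (Finset (Fin (n + 1)))) := by
    intro T hT U hU hTU
    simp only [Finset.coe_powerset, Set.mem_preimage, Set.mem_powerset_iff, Finset.coe_subset] at hT hU
    have hT0 : (0 : Fin (n + 1)) ∉ T := fun h => by simpa using hT h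
    have hU0 : (0 : Fin (n + 1)) ∉ U := fun h => by simpa using hU h
    by_contra hne'
    have hj : ∃ j, (j ∈ T ∧ j ∉ U) ∨ (j ∉ T ∧ j ∈ U) := by
      by_contra hcon
      push Not at hcon
      apply hne'
      ext j
      constructor
      · exact fun h => (hcon j).1 h
      · intro h
        by_contra h'
        exact (hcon j).2 h' h
    obtain ⟨j, hj⟩ := hj
    simp only [hev, if_neg hT0, if_neg hU0] at hTU
    apply sqrt_not_mem q hq hns j
    set K := KT q (Finset.univ.erase j) with hK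
    have h1 : ∀ V : Finset (Fin (n + 1)),
        ∑ i, 1 / (q 0 : ℝ) * ((if i ∈ V then (-1 : ℝ) else 1) * √(q i : ℝ)) * (1 * √(q 0 : ℝ)) =
        1 / (q 0 : ℝ) * √(q 0 : ℝ) * ∑ i, (if i ∈ V then (-1 : ℝ) else 1) * √(q i : ℝ) := by
      intro V
      rw [Finset.mul_sum]
      exact Finset.sum_congr rfl fun i _ => by ring
    rw [h1, h1] at hTU
    have h2 : 1 / (q 0 : ℝ) * √(q 0 : ℝ) ≠ 0 := by positivity
    have h3 := mul_left_cancel₀ h2 hTU
    rw [← Finset.add_sum_erase _ _ (Finset.mem_univ j),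
      ← Finset.add_sum_erase _ _ (Finset.mem_univ j)] at h3
    have h4 : ∀ V : Finset (Fin (n + 1)),
        ∑ i ∈ Finset.univ.erase j, (if i ∈ V then (-1 : ℝ) else 1) * √(q i : ℝ) ∈ K := by
      intro V
      refine sum_mem fun i hi => ?_
      have h6 : √(q i : ℝ) ∈ K := sqrt_mem_KT q _ i hi
      split_ifs
      · simpa using h6
      · simpa using h6
    have h5 : (2 : ℝ) ∈ K := by exact_mod_cast natCast_memK K 2
    rcases hj with ⟨ha, hb⟩ | ⟨ha, hb⟩
    · rw [if_pos ha, if_neg hb] at h3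
      have h6 : √(q j : ℝ) =
          (∑ i ∈ Finset.univ.erase j, (if i ∈ T then (-1 : ℝ) else 1) * √(q i : ℝ) -
          ∑ i ∈ Finset.univ.erase j, (if i ∈ U then (-1 : ℝ) else 1) * √(q i : ℝ)) / 2 := by
        linarith
      rw [h6]
      exact K.div_mem (K.sub_mem (h4 T) (h4 U)) h5
    · rw [if_neg ha, if_pos hb] at h3
      have h6 : √(q j : ℝ) =
          (∑ i ∈ Finset.univ.erase j, (if i ∈ U then (-1 : ℝ) else 1) * √(q i : ℝ) -
          ∑ i ∈ Finset.univ.erase j, (if i ∈ T then (-1 : ℝ) else 1) * √(q i : ℝ)) / 2 := by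
        linarith
      rw [h6]
      exact K.div_mem (K.sub_mem (h4 U) (h4 T)) h5
  have hcard : 2 ^ n ≤ g.natDegree := by
    classical
    set R : Finset ℝ := ((Finset.univ.erase (0 : Fin (n + 1))).powerset).image
      (fun T : Finset (Fin (n + 1)) => ev q (fun i => if i ∈ T then -1 else 1) P) with hR
    have hRc : R.card = 2 ^ n := by
      rw [hR, Finset.card_image_of_injOn hinj, Finset.card_powerset,
        Finset.card_erase_of_mem (Finset.mem_univ _), Finset.card_univ, Fintype.card_fin]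
      rfl
    have hsub : R ⊆ (g.aroots ℝ).toFinset := by
      intro x hx
      rw [hR, Finset.mem_image] at hx
      obtain ⟨T, _, rfl⟩ := hx
      rw [Multiset.mem_toFinset, Polynomial.mem_aroots]
      exact ⟨hg0, hroot T⟩
    calc 2 ^ n = R.card := hRc.symm
      _ ≤ (g.aroots ℝ).toFinset.card := Finset.card_le_card hsub
      _ ≤ Multiset.card (g.aroots ℝ) := Multiset.toFinset_card_le _
      _ ≤ (g.map (algebraMap ℚ ℝ)).natDegree := Polynomial.card_roots' _
      _ = g.natDegree := Polynomial.natDegree_map _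
  omega

end QG
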