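import Mathlib

set_option autoImplicit false

namespace Pool.Agent.LibHelper99.Hardy

open Complex InnerProductSpace Metric Set Topology Filter

/-- Composition of a harmonic function with an analytic function. -/
theorem harmonicAt_comp {u : ℂ → ℝ} {φ : ℂ → ℂ} {z : ℂ} (hu : HarmonicAt u (φ z))
    (hφ : AnalyticAt ℂ φ z) : HarmonicAt (fun w => u (φ w)) z := by
  obtain ⟨ε, hε, hball⟩ := Metric.isOpen_iff.1 (isOpen_setOfPred_harmonicAt (f := u)) (φ z) hu
  obtain ⟨F, hF, hFu⟩ := InnerProductSpace.HarmonicOnNhd.exists_analyticOnNhd_ball_re_eq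
    (fun y hy => hball hy)
  have h1 : AnalyticAt ℂ (fun w => F (φ w)) z :=
    (hF (φ z) (mem_ball_self hε)).comp hφ
  have h2 : HarmonicAt (fun w => (F (φ w)).re) z := h1.harmonicAt_re
  rw [harmonicAt_congr_nhds (f₂ := fun w => (F (φ w)).re)]
  · exact h2
  · filter_upwards [hφ.continuousAt.preimage_mem_nhds (ball_mem_nhds (φ z) hε)] with w hw
    exact (hFu hw).symm

/-- Harnack's inequality on a ball. -/
theorem harnack {u : ℂ → ℝ} {c : ℂ} {R : ℝ} (hu : HarmonicOnNhd u (ball c R))
    (hpos : ∀ z ∈ ball c R, 0 ≤ u z) {w : ℂ} (hw : w ∈ ball c R) :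
    u w ≤ (R + ‖w - c‖) / (R - ‖w - c‖) * u c := by
  have hR : ‖w - c‖ < R := by rwa [mem_ball_iff_norm] at hw
  have hR0 : 0 < R := lt_of_le_of_lt (norm_nonneg _) hR
  -- inequality for smaller radii
  have key : ∀ r, ‖w - c‖ < r → r < R → u w ≤ (r + ‖w - c‖) / (r - ‖w - c‖) * u c := by
    intro r hr1 hr2
    have hr0 : 0 < r := lt_of_le_of_lt (norm_nonneg _) hr1
    have hsub : closedBall c r ⊆ ball c R := closedBall_subset_ball hr2
    have hw' : w ∈ ball c r := by rwa [mem_ball_iff_norm]
    have huc : HarmonicOnNhd u (closedBall c r) := hu.mono hsub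
    have h1 := huc.circleAverage_re_herglotzRieszKernel_smul hw'
    have h2 : Real.circleAverage u c r = u c := by
      apply InnerProductSpace.HarmonicOnNhd.circleAverage_eq
      rw [abs_of_pos hr0]; exact huc
    have hcont : ContinuousOn u (sphere c |r|) := by
      rw [abs_of_pos hr0]
      exact huc.continuousOn.mono sphere_subset_closedBall
    have hi2 : CircleIntegrable (fun z => (r + ‖w - c‖) / (r - ‖w - c‖) * u z) c r := by
      apply ContinuousOn.circleIntegrable'
      exact continuousOn_const.mul hcont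
    have hi1 : CircleIntegrable ((re ∘ herglotzRieszKernel c w) • u) c r := by
      apply ContinuousOn.circleIntegrable'
      apply ContinuousOn.smul _ hcont
      exact continuous_re.comp_continuousOn (continuousOn_herglotzRieszKernel_sphere hw')
    rw [← h1, ← h2]
    have h3 : Real.circleAverage (fun z => (r + ‖w - c‖) / (r - ‖w - c‖) * u z) c r =
        (r + ‖w - c‖) / (r - ‖w - c‖) * Real.circleAverage u c r := by
      have := Real.circleAverage_fun_smul (a := (r + ‖w - c‖) / (r - ‖w - c‖)) (f := u) (c := c) (R := r)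
      simpa [smul_eq_mul] using this
    rw [← h3]
    apply Real.circleAverage_mono hi1 hi2
    intro x hx
    rw [abs_of_pos hr0] at hx
    have hux : 0 ≤ u x := hpos x (hsub (sphere_subset_closedBall hx))
    have hk := re_herglotzRieszKernel_le hx hw'
    simp only [Pi.smul_apply', Function.comp_apply, herglotzRieszKernel_def, smul_eq_mul]
    exact mul_le_mul_of_nonneg_right hk hux
  -- pass to the limit
  have hlim : Tendsto (fun r : ℝ => (r + ‖w - c‖) / (r - ‖w - c‖) * u c) (𝓝[<] R)
      (𝓝 ((R + ‖w - c‖) / (R - ‖w - c‖) * u c)) := by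
    have : ContinuousAt (fun r : ℝ => (r + ‖w - c‖) / (r - ‖w - c‖) * u c) R := by
      apply ContinuousAt.mul _ continuousAt_const
      apply ContinuousAt.div (by fun_prop) (by fun_prop)
      linarith
    exact this.tendsto.mono_left nhdsWithin_le_nhds
  apply ge_of_tendsto hlim
  have : Ioo ‖w - c‖ R ∈ 𝓝[<] R := Ioo_mem_nhdsLT hR
  filter_upwards [this] with r hr
  exact key r hr.1 hr.2

/-- Harnack's inequality in the other direction. -/
theorem harnack' {u : ℂ → ℝ} {c : ℂ} {R : ℝ} (hu : HarmonicOnNhd u (ball c R))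
    (hpos : ∀ z ∈ ball c R, 0 ≤ u z) {w : ℂ} (hw : w ∈ ball c R) :
    u c ≤ (R + ‖w - c‖) / (R - ‖w - c‖) * u w := by
  have hR : ‖w - c‖ < R := by rwa [mem_ball_iff_norm] at hw
  have hR0 : 0 < R := lt_of_le_of_lt (norm_nonneg _) hR
  have key : ∀ r, ‖w - c‖ < r → r < R → (r - ‖w - c‖) / (r + ‖w - c‖) * u c ≤ u w := by
    intro r hr1 hr2
    have hr0 : 0 < r := lt_of_le_of_lt (norm_nonneg _) hr1
    have hsub : closedBall c r ⊆ ball c R := closedBall_subset_ball hr2
    have hw' : w ∈ ball c r := by rwa [mem_ball_iff_norm]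
    have huc : HarmonicOnNhd u (closedBall c r) := hu.mono hsub
    have h1 := huc.circleAverage_re_herglotzRieszKernel_smul hw'
    have h2 : Real.circleAverage u c r = u c := by
      apply InnerProductSpace.HarmonicOnNhd.circleAverage_eq
      rw [abs_of_pos hr0]; exact huc
    have hcont : ContinuousOn u (sphere c |r|) := by
      rw [abs_of_pos hr0]
      exact huc.continuousOn.mono sphere_subset_closedBall
    have hi2 : CircleIntegrable (fun z => (r - ‖w - c‖) / (r + ‖w - c‖) * u z) c r := by
      apply ContinuousOn.circleIntegrable'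
      exact continuousOn_const.mul hcont
    have hi1 : CircleIntegrable ((re ∘ herglotzRieszKernel c w) • u) c r := by
      apply ContinuousOn.circleIntegrable'
      apply ContinuousOn.smul _ hcont
      exact continuous_re.comp_continuousOn (continuousOn_herglotzRieszKernel_sphere hw')
    rw [← h1, ← h2]
    have h3 : Real.circleAverage (fun z => (r - ‖w - c‖) / (r + ‖w - c‖) * u z) c r =
        (r - ‖w - c‖) / (r + ‖w - c‖) * Real.circleAverage u c r := by
      have := Real.circleAverage_fun_smul (a := (r - ‖w - c‖) / (r + ‖w - c‖)) (f := u) (c := c) (R := r)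
      simpa [smul_eq_mul] using this
    rw [← h3]
    apply Real.circleAverage_mono hi2 hi1
    intro x hx
    rw [abs_of_pos hr0] at hx
    have hux : 0 ≤ u x := hpos x (hsub (sphere_subset_closedBall hx))
    have hk := le_re_herglotzRieszKernel hx hw'
    simp only [Pi.smul_apply', Function.comp_apply, herglotzRieszKernel_def, smul_eq_mul]
    exact mul_le_mul_of_nonneg_right hk hux
  have hlim : Tendsto (fun r : ℝ => (r - ‖w - c‖) / (r + ‖w - c‖) * u c) (𝓝[<] R)
      (𝓝 ((R - ‖w - c‖) / (R + ‖w - c‖) * u c)) := by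
    have : ContinuousAt (fun r : ℝ => (r - ‖w - c‖) / (r + ‖w - c‖) * u c) R := by
      apply ContinuousAt.mul _ continuousAt_const
      apply ContinuousAt.div (by fun_prop) (by fun_prop)
      have := norm_nonneg (w - c)
      linarith
    exact this.tendsto.mono_left nhdsWithin_le_nhds
  have hfin : (R - ‖w - c‖) / (R + ‖w - c‖) * u c ≤ u w := by
    apply le_of_tendsto hlim
    have : Ioo ‖w - c‖ R ∈ 𝓝[<] R := Ioo_mem_nhdsLT hR
    filter_upwards [this] with r hr
    exact key r hr.1 hr.2
  have hp1 : 0 < R - ‖w - c‖ := by linarith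
  have hp2 : 0 < R + ‖w - c‖ := by have := norm_nonneg (w - c); linarith
  have e : u c = (R + ‖w - c‖) / (R - ‖w - c‖) * ((R - ‖w - c‖) / (R + ‖w - c‖) * u c) := by
    field_simp
  rw [e]
  exact mul_le_mul_of_nonneg_left hfin (by positivity)

/-- The upper half plane bound for nonnegative harmonic functions. -/
theorem halfplane_bound {u : ℂ → ℝ} (hu : ∀ z : ℂ, 0 < z.im → HarmonicAt u z)
    (hpos : ∀ z : ℂ, 0 < z.im → 0 ≤ u z) {t : ℂ} (ht : 0 < t.im) :
    u t ≤ 8 * (1 + ‖t‖ ^ 2) ^ 2 / t.im * u I := by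
  set x := t.re with hx
  set y := t.im with hy
  have hball : ∀ (a b : ℝ), 0 < b → ∀ z ∈ ball (a + b * I : ℂ) b, 0 < z.im := by
    intro a b hb z hz
    rw [mem_ball_iff_norm] at hz
    have h1 : |(z - (a + b * I)).im| ≤ ‖z - (a + b * I)‖ := abs_im_le_norm _
    have h2 : (z - (a + b * I)).im = z.im - b := by simp
    rw [h2] at h1
    have h3 := abs_lt.1 (lt_of_le_of_lt h1 hz)
    linarith [h3.1]
  have hui : 0 ≤ u I := hpos I (by simp)
  have hnt : ‖t‖ ^ 2 = x ^ 2 + y ^ 2 := by
    rw [← normSq_eq_norm_sq, normSq_apply]; ring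
  have hteq : t = x + y * I := by rw [hx, hy]; exact (re_add_im t).symm
  by_cases hc : y < 1 + x ^ 2
  · -- two steps
    set η := 1 + x ^ 2 with hη
    have hη0 : 0 < η := by positivity
    have hη1 : 1 ≤ η := by nlinarith [sq_nonneg x]
    have hub : HarmonicOnNhd u (ball (x + η * I : ℂ) η) := fun z hz => hu z (hball x η hη0 z hz)
    have hpb : ∀ z ∈ ball (x + η * I : ℂ) η, 0 ≤ u z := fun z hz => hpos z (hball x η hη0 z hz)
    -- step 1: from `t` to the centre
    have hn1 : ‖t - (x + η * I)‖ = η - y := by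
      have : t - (x + η * I) = ((y - η : ℝ) : ℂ) * I := by
        rw [hteq]; push_cast; ring
      rw [this, norm_mul, norm_I, mul_one, norm_real, Real.norm_eq_abs, abs_of_neg (by linarith)]
      ring
    have hm1 : t ∈ ball (x + η * I : ℂ) η := by
      rw [mem_ball_iff_norm, hn1]; linarith
    have h1 := harnack hub hpb hm1
    rw [hn1] at h1
    have hc0 : 0 ≤ u (x + η * I) := hpb _ (mem_ball_self hη0)
    have h1' : u t ≤ 2 * η / y * u (x + η * I) := by
      refine h1.trans (mul_le_mul_of_nonneg_right ?_ hc0)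
      have : η - (η - y) = y := by ring
      rw [this]
      gcongr
      linarith
    -- step 2: from the centre to `I`
    have hn2 : ‖I - (x + η * I)‖ ^ 2 = x ^ 2 + x ^ 4 := by
      rw [← normSq_eq_norm_sq, normSq_apply]
      simp only [sub_re, I_re, add_re, ofReal_re, mul_re, mul_zero, ofReal_im, I_im, mul_one,
        sub_self, add_zero, zero_sub, sub_im, add_im, mul_im, zero_add]
      rw [hη]; ring
    have hn3 : ‖I - (x + η * I)‖ < η := by
      apply lt_of_pow_lt_pow_left₀ 2 hη0.le
      rw [hn2, hη]; nlinarith [sq_nonneg x]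
    have hm2 : I ∈ ball (x + η * I : ℂ) η := by
      rw [mem_ball_iff_norm]; exact hn3
    have h2 := harnack' hub hpb hm2
    set ρ := ‖I - (x + η * I)‖ with hρ
    have hρ0 : 0 ≤ ρ := norm_nonneg _
    have h3 : 1 / 2 ≤ η - ρ := by
      have e : (η - ρ) * (η + ρ) = η := by
        have : (η - ρ) * (η + ρ) = η ^ 2 - ρ ^ 2 := by ring
        rw [this, hn2, hη]; ring
      by_contra hcon
      push Not at hcon
      have : (η - ρ) * (η + ρ) < 1 / 2 * (2 * η) := by
        apply mul_lt_mul'' hcon (by linarith) (by linarith) (by linarith)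
      linarith
    have h2' : u (x + η * I) ≤ 4 * η * u I := by
      refine h2.trans (mul_le_mul_of_nonneg_right ?_ hui)
      rw [div_le_iff₀ (by linarith)]
      nlinarith
    calc u t ≤ 2 * η / y * u (x + η * I) := h1'
      _ ≤ 2 * η / y * (4 * η * u I) := by
          apply mul_le_mul_of_nonneg_left h2'; positivity
      _ = 8 * η ^ 2 / y * u I := by ring
      _ ≤ 8 * (1 + ‖t‖ ^ 2) ^ 2 / y * u I := by
          apply mul_le_mul_of_nonneg_right _ hui
          gcongr
          rw [hnt]
          nlinarith [sq_nonneg y]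
  · -- one step
    push Not at hc
    have hy1 : 1 ≤ y := by nlinarith [sq_nonneg x]
    have hy0 : 0 < y := by linarith
    have hub : HarmonicOnNhd u (ball (x + y * I : ℂ) y) := fun z hz => hu z (hball x y hy0 z hz)
    have hpb : ∀ z ∈ ball (x + y * I : ℂ) y, 0 ≤ u z := fun z hz => hpos z (hball x y hy0 z hz)
    have hn2 : ‖I - (x + y * I)‖ ^ 2 = x ^ 2 + (1 - y) ^ 2 := by
      rw [← normSq_eq_norm_sq, normSq_apply]
      simp only [sub_re, I_re, add_re, ofReal_re, mul_re, mul_zero, ofReal_im, I_im, mul_one,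
        sub_self, add_zero, zero_sub, sub_im, add_im, mul_im, zero_add]
      ring
    have hn3 : ‖I - (x + y * I)‖ < y := by
      apply lt_of_pow_lt_pow_left₀ 2 hy0.le
      rw [hn2]; nlinarith [sq_nonneg x]
    have hm2 : I ∈ ball (x + y * I : ℂ) y := by
      rw [mem_ball_iff_norm]; exact hn3
    have h2 := harnack' hub hpb hm2
    set ρ := ‖I - (x + y * I)‖ with hρ
    have hρ0 : 0 ≤ ρ := norm_nonneg _
    have h3 : 1 / 2 ≤ y - ρ := by
      have e : (y - ρ) * (y + ρ) = 2 * y - 1 - x ^ 2 := by
        have : (y - ρ) * (y + ρ) = y ^ 2 - ρ ^ 2 := by ring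
        rw [this, hn2]; ring
      by_contra hcon
      push Not at hcon
      have : (y - ρ) * (y + ρ) < 1 / 2 * (2 * y) := by
        apply mul_lt_mul'' hcon (by linarith) (by linarith) (by linarith)
      linarith
    rw [← hteq] at h2
    have h2' : u t ≤ 4 * y * u I := by
      refine h2.trans (mul_le_mul_of_nonneg_right ?_ hui)
      rw [div_le_iff₀ (by linarith)]
      nlinarith
    refine h2'.trans (mul_le_mul_of_nonneg_right ?_ hui)
    rw [le_div_iff₀ hy0, hnt]
    nlinarith [sq_nonneg x, sq_nonneg (y ^ 2), sq_nonneg (x ^ 2 + y ^ 2), sq_nonneg y]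

/-- A harmonic function on `ball 0 R` bounded by `M` and vanishing at `0` is `O(|w|)`. -/
theorem small_at_zero {f : ℂ → ℝ} {R M : ℝ} (hR : 0 < R) (hM : 0 < M)
    (hf : HarmonicOnNhd f (ball 0 R)) (hb : ∀ z ∈ ball (0 : ℂ) R, f z ≤ M) (h0 : f 0 = 0)
    {z : ℂ} (hz : z ∈ ball (0 : ℂ) R) : |f z| ≤ 2 * M * ‖z‖ / (R - ‖z‖) := by
  obtain ⟨F, hF, hFf⟩ := InnerProductSpace.HarmonicOnNhd.exists_analyticOnNhd_ball_re_eq hf
  have hm0 : (0 : ℂ) ∈ ball (0 : ℂ) R := mem_ball_self hR
  have hF0 : (F 0).re = 0 := by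
    have := hFf hm0
    simp only at this
    rw [this, h0]
  let G : ℂ → ℂ := fun w => F w - F 0
  have hG : DifferentiableOn ℂ G (ball 0 R) :=
    (hF.differentiableOn).sub (differentiableOn_const _)
  have hGre : ∀ w ∈ ball (0 : ℂ) R, (G w).re = f w := by
    intro w hw
    have := hFf hw
    simp only at this
    simp only [G, sub_re, hF0, sub_zero, this]
  have h := borelCaratheodory_zero hM hG (fun w hw => by
    show (G w).re ≤ M
    rw [hGre w hw]; exact hb w hw) hR hz (by simp [G])
  refine le_trans ?_ h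
  rw [← hGre z hz]
  exact abs_re_le_norm _

/-- A sum of harmonic functions, dominated by a summable sequence on a ball, is harmonic at the
centre. -/
theorem harmonicAt_tsum {f : ℕ → ℂ → ℝ} {a : ℕ → ℝ} {c : ℂ} {R : ℝ} (hR : 0 < R)
    (hf : ∀ n, HarmonicOnNhd (f n) (ball c R)) (hb : ∀ n, ∀ z ∈ ball c R, |f n z| ≤ a n)
    (ha : Summable a) : HarmonicAt (fun z => ∑' n, f n z) c := by
  have hc : c ∈ ball c R := mem_ball_self hR
  have ha0 : ∀ n, 0 ≤ a n := fun n => (abs_nonneg _).trans (hb n c hc)
  have hex : ∀ n, ∃ G : ℂ → ℂ, DifferentiableOn ℂ G (ball c R) ∧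
      (∀ w ∈ ball c R, (G w).re = f n w) ∧ ∀ w ∈ ball c (R / 2), ‖G w‖ ≤ 5 * (a n + (1 / 2) ^ n) := by
    intro n
    obtain ⟨F, hF, hFf⟩ := InnerProductSpace.HarmonicOnNhd.exists_analyticOnNhd_ball_re_eq (hf n)
    let G : ℂ → ℂ := fun w => F w - ((F c).im : ℂ) * I
    have hG : DifferentiableOn ℂ G (ball c R) :=
      (hF.differentiableOn).sub (differentiableOn_const _)
    have hGre : ∀ w ∈ ball c R, (G w).re = f n w := by
      intro w hw
      have := hFf hw
      simp only at this
      simp [G, this]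
    refine ⟨G, hG, hGre, ?_⟩
    intro w hw
    -- translate to zero
    let H : ℂ → ℂ := fun v => G (v + c)
    have hmaps : MapsTo (fun v : ℂ => v + c) (ball 0 R) (ball c R) := by
      intro v hv
      rw [mem_ball_zero_iff] at hv
      rw [mem_ball_iff_norm]
      simpa using hv
    have hH : DifferentiableOn ℂ H (ball 0 R) :=
      hG.comp (differentiableOn_id.add (differentiableOn_const _)) hmaps
    set M := a n + (1 / 2 : ℝ) ^ n with hM
    have hM0 : 0 < M := by
      have := ha0 n
      positivity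
    have hwc : w - c ∈ ball (0 : ℂ) R := by
      rw [mem_ball_zero_iff]
      rw [mem_ball_iff_norm] at hw
      linarith
    have hwn : ‖w - c‖ < R / 2 := by rwa [mem_ball_iff_norm] at hw
    have h := borelCaratheodory hM0 hH (fun v hv => by
      show (G (v + c)).re ≤ M
      rw [hGre _ (hmaps hv)]
      have := (le_abs_self _).trans (hb n _ (hmaps hv))
      have h2 : (0 : ℝ) < (1 / 2 : ℝ) ^ n := by positivity
      linarith) hR hwc
    have hH0 : ‖H 0‖ ≤ M := by
      have e : H 0 = ((f n c : ℝ) : ℂ) := by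
        apply Complex.ext
        · have := hGre c hc
          simpa [H] using this
        · simp [H, G]
      rw [e, norm_real, Real.norm_eq_abs]
      have := hb n c hc
      have h2 : (0 : ℝ) < (1 / 2 : ℝ) ^ n := by positivity
      linarith
    have e : H (w - c) = G w := by simp [H]
    rw [e] at h
    refine h.trans ?_
    have hnn := norm_nonneg (w - c)
    have hd : 0 < R - ‖w - c‖ := by linarith
    have h1 : 2 * M * ‖w - c‖ / (R - ‖w - c‖) ≤ 2 * M := by
      rw [div_le_iff₀ hd]
      nlinarith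
    have h2 : ‖H 0‖ * (R + ‖w - c‖) / (R - ‖w - c‖) ≤ 3 * M := by
      rw [div_le_iff₀ hd]
      have : ‖H 0‖ * (R + ‖w - c‖) ≤ M * (R + ‖w - c‖) :=
        mul_le_mul_of_nonneg_right hH0 (by linarith)
      nlinarith
    linarith
  choose G hG1 hG2 hG3 using hex
  have hs : Summable (fun n => 5 * (a n + (1 / 2 : ℝ) ^ n)) :=
    (ha.add (summable_geometric_of_lt_one (by norm_num) (by norm_num))).mul_left 5
  have hsub : ball c (R / 2) ⊆ ball c R := ball_subset_ball (by linarith)
  have hdiff : DifferentiableOn ℂ (fun w => ∑' n, G n w) (ball c (R / 2)) :=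
    differentiableOn_tsum_of_summable_norm hs (fun n => (hG1 n).mono hsub) isOpen_ball
      (fun n w hw => hG3 n w hw)
  have hana : AnalyticAt ℂ (fun w => ∑' n, G n w) c :=
    hdiff.analyticAt (ball_mem_nhds c (by linarith))
  rw [harmonicAt_congr_nhds (f₂ := fun w => (∑' n, G n w).re)]
  · exact hana.harmonicAt_re
  · filter_upwards [ball_mem_nhds c (show 0 < R / 2 by linarith)] with w hw
    have hsum : Summable (fun n => G n w) :=
      Summable.of_norm_bounded hs (fun n => hG3 n w hw)
    rw [Complex.re_tsum hsum]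
    congr 1
    funext n
    exact (hG2 n w (hsub hw)).symm

end Pool.Agent.LibHelper99.Hardy
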