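import Mathlib
import Pool.Agent.Lib_helper99.Harm

set_option autoImplicit false

namespace Pool.Agent.LibHelper99.Hardy

open Complex InnerProductSpace Metric Set Topology Filter MeasureTheory
open scoped NNReal ENNReal

/-- the polynomial `z ^ 2 - 12` -/
def P (z : ℂ) : ℂ := z ^ 2 - 12

/-- its filled Julia set -/
def J : Set ℂ := {z | ∀ n : ℕ, ‖P^[n] z‖ ≤ 4}

/-- the real trace of `J` -/
def SJ : Set ℝ := {x | (x : ℂ) ∈ J}

theorem differentiable_P : Differentiable ℂ P := by
  unfold P; fun_prop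

theorem differentiable_iter (n : ℕ) : Differentiable ℂ (P^[n]) := by
  induction n with
  | zero => exact differentiable_id
  | succ n ih => exact ih.comp differentiable_P

theorem continuous_iter (n : ℕ) : Continuous (P^[n]) := (differentiable_iter n).continuous

theorem isClosed_J : IsClosed J := by
  have : J = ⋂ n : ℕ, {z | ‖P^[n] z‖ ≤ 4} := by ext z; simp [J]
  rw [this]
  exact isClosed_iInter (fun n => isClosed_le (continuous_iter n).norm continuous_const)

theorem norm_P_ge (z : ℂ) : ‖z‖ ^ 2 - 12 ≤ ‖P z‖ := by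
  have h := norm_sub_norm_le (z ^ 2) (12 : ℂ)
  rw [norm_pow] at h
  have : ‖(12 : ℂ)‖ = 12 := by simp
  rw [this] at h
  exact h

theorem norm_P_le (z : ℂ) : ‖P z‖ ≤ ‖z‖ ^ 2 + 12 := by
  have h := norm_sub_le (z ^ 2) (12 : ℂ)
  rw [norm_pow] at h
  have : ‖(12 : ℂ)‖ = 12 := by simp
  rw [this] at h
  exact h

theorem escape {z : ℂ} (hz : 4 < ‖z‖) : 4 < ‖P z‖ := by
  have := norm_P_ge z
  nlinarith

theorem escape_iter {z : ℂ} {N n : ℕ} (hz : 4 < ‖P^[N] z‖) (hn : N ≤ n) : 4 < ‖P^[n] z‖ := by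
  induction n, hn using Nat.le_induction with
  | base => exact hz
  | succ n _ ih => rw [Function.iterate_succ_apply']; exact escape ih

theorem P_mem {z : ℂ} (hz : z ∈ J) : P z ∈ J := by
  intro n
  have := hz (n + 1)
  rwa [Function.iterate_succ_apply] at this

theorem iter_mem {z : ℂ} (hz : z ∈ J) (n : ℕ) : P^[n] z ∈ J := by
  induction n with
  | zero => exact hz
  | succ n ih => rw [Function.iterate_succ_apply']; exact P_mem ih

theorem norm_le_of_mem {z : ℂ} (hz : z ∈ J) : ‖z‖ ≤ 4 := hz 0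

theorem re_sq_ge {z : ℂ} (hz : z ∈ J) : 8 ≤ z.re ^ 2 := by
  have h1 : ‖P z‖ ≤ 4 := hz 1
  have h2 : |(P z).re| ≤ ‖P z‖ := abs_re_le_norm _
  have h3 : (P z).re = z.re ^ 2 - z.im ^ 2 - 12 := by
    simp only [P, sub_re, pow_two, mul_re]
    norm_num
  rw [h3] at h2
  have h4 := (abs_le.1 (h2.trans h1)).1
  nlinarith [sq_nonneg z.im]

theorem im_eq_zero {z : ℂ} (hz : z ∈ J) : z.im = 0 := by
  by_contra hne
  have hpos : 0 < |z.im| := abs_pos.2 hne
  have hgrow : ∀ n : ℕ, 5 ^ n * |z.im| ≤ |(P^[n] z).im| := by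
    intro n
    induction n with
    | zero => simp
    | succ n ih =>
      rw [Function.iterate_succ_apply']
      set w := P^[n] z with hw
      have hwJ : w ∈ J := iter_mem hz n
      have h1 : (P w).im = 2 * w.re * w.im := by
        simp only [P, sub_im, pow_two, mul_im]
        norm_num
        ring
      rw [h1, abs_mul, abs_mul]
      have h2 := re_sq_ge hwJ
      have h3 : 5 / 2 ≤ |w.re| := by
        by_contra hcon
        push Not at hcon
        have : |w.re| ^ 2 < (5 / 2) ^ 2 := by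
          apply pow_lt_pow_left₀ hcon (abs_nonneg _) (by norm_num)
        rw [sq_abs] at this
        norm_num at this
        linarith
      have h4 : |(2 : ℝ)| = 2 := by norm_num
      rw [h4]
      calc (5 : ℝ) ^ (n + 1) * |z.im| = 5 * (5 ^ n * |z.im|) := by ring
        _ ≤ 5 * |w.im| := by linarith
        _ ≤ 2 * |w.re| * |w.im| := by
          apply mul_le_mul_of_nonneg_right _ (abs_nonneg _)
          linarith
  obtain ⟨n, hn⟩ := pow_unbounded_of_one_lt (4 / |z.im|) (show (1 : ℝ) < 5 by norm_num)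
  have h1 := hgrow n
  have h2 : |(P^[n] z).im| ≤ 4 := (abs_im_le_norm _).trans (hz n)
  rw [div_lt_iff₀ hpos] at hn
  linarith

theorem J_eq : J = {z : ℂ | z.im = 0 ∧ z.re ∈ SJ} := by
  ext z
  constructor
  · intro hz
    refine ⟨im_eq_zero hz, ?_⟩
    show ((z.re : ℝ) : ℂ) ∈ J
    have : ((z.re : ℝ) : ℂ) = z := Complex.ext (by simp) (by simp [im_eq_zero hz])
    rwa [this]
  · rintro ⟨h1, h2⟩
    have : ((z.re : ℝ) : ℂ) = z := Complex.ext (by simp) (by simp [h1])
    have h3 : ((z.re : ℝ) : ℂ) ∈ J := h2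
    rwa [this] at h3

theorem isClosed_SJ : IsClosed SJ := isClosed_J.preimage continuous_ofReal

theorem SJ_abs_le {x : ℝ} (hx : x ∈ SJ) : |x| ≤ 4 := by
  have := norm_le_of_mem (z := (x : ℂ)) hx
  simpa using this

theorem SJ_sq_ge {x : ℝ} (hx : x ∈ SJ) : 8 ≤ x ^ 2 := by
  have := re_sq_ge (z := (x : ℂ)) hx
  simpa using this

theorem SJ_image {x : ℝ} (hx : x ∈ SJ) : x ^ 2 - 12 ∈ SJ := by
  have := P_mem (z := (x : ℂ)) hx
  show ((x ^ 2 - 12 : ℝ) : ℂ) ∈ J
  have e : ((x ^ 2 - 12 : ℝ) : ℂ) = P x := by simp [P]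
  rwa [e]

/-! ### The Hausdorff measure -/

/-- the two inverse branches -/
noncomputable def br (b : Bool) (y : ℝ) : ℝ := if b then Real.sqrt (12 + y) else - Real.sqrt (12 + y)

theorem br_lip (b : Bool) {y y' : ℝ} (hy : y ∈ Icc (-4 : ℝ) 4) (hy' : y' ∈ Icc (-4 : ℝ) 4) :
    |br b y - br b y'| ≤ 81 / 400 * |y - y'| := by
  have h1 : |Real.sqrt (12 + y) - Real.sqrt (12 + y')| ≤ 81 / 400 * |y - y'| := by
    have e : (Real.sqrt (12 + y) - Real.sqrt (12 + y')) * (Real.sqrt (12 + y) + Real.sqrt (12 + y')) = y - y' := by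
      have h1 : Real.sqrt (12 + y) ^ 2 = 12 + y := Real.sq_sqrt (by linarith [hy.1])
      have h2 : Real.sqrt (12 + y') ^ 2 = 12 + y' := Real.sq_sqrt (by linarith [hy'.1])
      nlinarith
    have hs : ∀ v ∈ Icc (-4 : ℝ) 4, 5 / 2 ≤ Real.sqrt (12 + v) := by
      intro v hv
      apply Real.le_sqrt_of_sq_le
      linarith [hv.1]
    have hsum : 5 ≤ Real.sqrt (12 + y) + Real.sqrt (12 + y') := by
      linarith [hs y hy, hs y' hy']
    rw [← e, abs_mul, abs_of_pos (show 0 < Real.sqrt (12 + y) + Real.sqrt (12 + y') by linarith)]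
    have := abs_nonneg (Real.sqrt (12 + y) - Real.sqrt (12 + y'))
    nlinarith
  unfold br
  cases b
  · simp only [Bool.false_eq_true, if_false]
    have : -Real.sqrt (12 + y) - -Real.sqrt (12 + y') = -(Real.sqrt (12 + y) - Real.sqrt (12 + y')) := by ring
    rw [this, abs_neg]; exact h1
  · simp only [if_true]; exact h1

theorem br_mem {x : ℝ} (hx : x ∈ SJ) : ∃ b : Bool, x = br b (x ^ 2 - 12) := by
  have e : Real.sqrt (12 + (x ^ 2 - 12)) = |x| := by
    rw [show 12 + (x ^ 2 - 12) = x ^ 2 by ring, Real.sqrt_sq_eq_abs]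
  rcases le_total 0 x with h | h
  · refine ⟨true, ?_⟩
    rw [abs_of_nonneg h] at e
    unfold br
    rw [e]; simp
  · refine ⟨false, ?_⟩
    rw [abs_of_nonpos h] at e
    unfold br
    rw [e]; simp

theorem cover (n : ℕ) : ∃ t : (Fin n → Bool) → Set ℝ, (∀ s, t s ⊆ SJ) ∧
    (∀ s, ∀ x ∈ t s, ∀ y ∈ t s, |x - y| ≤ 8 * (81 / 400) ^ n) ∧ SJ ⊆ ⋃ s, t s := by
  induction n with
  | zero =>
    refine ⟨fun _ => SJ, fun _ => Subset.rfl, ?_, ?_⟩
    · intro s x hx y hy
      have h1 := abs_le.1 (SJ_abs_le hx)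
      have h2 := abs_le.1 (SJ_abs_le hy)
      rw [abs_le]
      constructor <;> simp only [pow_zero, mul_one] <;> linarith [h1.1, h1.2, h2.1, h2.2]
    · intro x hx
      exact mem_iUnion.2 ⟨fun i => i.elim0, hx⟩
  | succ n ih =>
    obtain ⟨t, ht1, ht2, ht3⟩ := ih
    refine ⟨fun s => {x ∈ SJ | x ^ 2 - 12 ∈ t (Fin.tail s) ∧ x = br (s 0) (x ^ 2 - 12)}, ?_, ?_, ?_⟩
    · intro s x hx; exact hx.1
    · intro s x hx y hy
      have hI : ∀ v ∈ SJ, v ∈ Icc (-4 : ℝ) 4 := fun v hv => abs_le.1 (SJ_abs_le hv)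
      have h1 := br_lip (s 0) (hI _ (SJ_image hx.1)) (hI _ (SJ_image hy.1))
      rw [← hx.2.2, ← hy.2.2] at h1
      have h2 := ht2 _ _ hx.2.1 _ hy.2.1
      calc |x - y| ≤ 81 / 400 * |x ^ 2 - 12 - (y ^ 2 - 12)| := h1
        _ ≤ 81 / 400 * (8 * (81 / 400) ^ n) := by linarith
        _ = 8 * (81 / 400) ^ (n + 1) := by ring
    · intro x hx
      obtain ⟨s, hs⟩ := mem_iUnion.1 (ht3 (SJ_image hx))
      obtain ⟨b, hb⟩ := br_mem hx
      refine mem_iUnion.2 ⟨Fin.cons b s, hx, ?_, ?_⟩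
      · simpa using hs
      · simpa using hb

theorem hausdorff_SJ : Measure.hausdorffMeasure (1 / 2 : ℝ) SJ = 0 := by
  choose t ht1 ht2 ht3 using cover
  have hdiam : ∀ n s, ediam (t n s) ≤ ENNReal.ofReal (8 * (81 / 400) ^ n) := by
    intro n s
    apply ediam_le
    intro x hx y hy
    rw [edist_dist, Real.dist_eq]
    exact ENNReal.ofReal_le_ofReal (ht2 n s x hx y hy)
  have hr : Tendsto (fun n : ℕ => ENNReal.ofReal (8 * (81 / 400 : ℝ) ^ n)) atTop (𝓝 0) := by
    rw [← ENNReal.ofReal_zero]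
    apply ENNReal.tendsto_ofReal
    have := (tendsto_pow_atTop_nhds_zero_of_lt_one (show (0 : ℝ) ≤ 81 / 400 by norm_num)
      (by norm_num)).const_mul 8
    simpa using this
  have hle := Measure.hausdorffMeasure_le_liminf_sum (ι := fun n : ℕ => (Fin n → Bool))
    (1 / 2 : ℝ) SJ (l := atTop) _ hr t
    (Eventually.of_forall (fun n s => hdiam n s)) (Eventually.of_forall (fun n => ht3 n))
  have hsum : ∀ n : ℕ, ∑ s : (Fin n → Bool), ediam (t n s) ^ (1 / 2 : ℝ) ≤
      ENNReal.ofReal (Real.sqrt 8 * (9 / 10) ^ n) := by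
    intro n
    calc ∑ s : (Fin n → Bool), ediam (t n s) ^ (1 / 2 : ℝ)
        ≤ ∑ _s : (Fin n → Bool), ENNReal.ofReal (Real.sqrt 8 * (9 / 20) ^ n) := by
          apply Finset.sum_le_sum
          intro s _
          calc ediam (t n s) ^ (1 / 2 : ℝ) ≤ (ENNReal.ofReal (8 * (81 / 400) ^ n)) ^ (1 / 2 : ℝ) :=
                ENNReal.rpow_le_rpow (hdiam n s) (by norm_num)
            _ = ENNReal.ofReal (Real.sqrt 8 * (9 / 20) ^ n) := by
                rw [ENNReal.ofReal_rpow_of_nonneg (by positivity) (by norm_num), ← Real.sqrt_eq_rpow,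
                  Real.sqrt_mul (by norm_num)]
                congr 2
                rw [show (81 / 400 : ℝ) = (9 / 20) ^ 2 by norm_num, ← pow_mul, mul_comm 2 n, pow_mul,
                  Real.sqrt_sq (by positivity)]
      _ = ENNReal.ofReal (Real.sqrt 8 * (9 / 10) ^ n) := by
          rw [Finset.sum_const, Finset.card_univ, Fintype.card_fun, Fintype.card_bool, Fintype.card_fin,
            nsmul_eq_mul]
          have : ((2 ^ n : ℕ) : ℝ≥0∞) = ENNReal.ofReal ((2 : ℝ) ^ n) := by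
            rw [ENNReal.ofReal_pow (by norm_num)]
            push_cast
            norm_num
          rw [this, ← ENNReal.ofReal_mul (by positivity)]
          congr 1
          have e : (9 / 10 : ℝ) = 2 * (9 / 20) := by norm_num
          rw [e, mul_pow]; ring
  have hlim : Tendsto (fun n : ℕ => ∑ s : (Fin n → Bool), ediam (t n s) ^ (1 / 2 : ℝ)) atTop (𝓝 0) := by
    have h0 : Tendsto (fun n : ℕ => ENNReal.ofReal (Real.sqrt 8 * (9 / 10 : ℝ) ^ n)) atTop (𝓝 0) := by
      rw [← ENNReal.ofReal_zero]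
      apply ENNReal.tendsto_ofReal
      have := (tendsto_pow_atTop_nhds_zero_of_lt_one (show (0 : ℝ) ≤ 9 / 10 by norm_num)
        (by norm_num)).const_mul (Real.sqrt 8)
      simpa using this
    exact tendsto_of_tendsto_of_tendsto_of_le_of_le tendsto_const_nhds h0 (fun _ => zero_le) hsum
  rw [hlim.liminf_eq] at hle
  exact le_antisymm hle zero_le

/-! ### The Green function -/

/-- approximants of the Green function -/
noncomputable def gn (n : ℕ) (z : ℂ) : ℝ := (1 / 2) ^ n * Real.log (max 1 ‖P^[n] z‖)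

theorem log_P (w : ℂ) : |Real.log (max 1 ‖P w‖) - 2 * Real.log (max 1 ‖w‖)| ≤ Real.log 32 := by
  set M := max 1 ‖w‖ with hM
  set N := max 1 ‖P w‖ with hN
  have hM1 : 1 ≤ M := le_max_left _ _
  have hN1 : 1 ≤ N := le_max_left _ _
  have hw : ‖w‖ ≤ M := le_max_right _ _
  have hw0 : 0 ≤ ‖w‖ := norm_nonneg w
  have e : 2 * Real.log M = Real.log (M ^ 2) := by rw [Real.log_pow]; norm_num
  have h1 : N ≤ 32 * M ^ 2 := by
    apply max_le
    · nlinarith
    · have := norm_P_le w
      nlinarith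
  have h2 : M ^ 2 ≤ 32 * N := by
    rcases le_total ‖w‖ 1 with h | h
    · have : M = 1 := max_eq_left h
      rw [this]; nlinarith
    · have hMw : M = ‖w‖ := max_eq_right h
      rw [hMw]
      by_cases h3 : ‖w‖ ^ 2 ≤ 24
      · nlinarith
      · push Not at h3
        have h4 := norm_P_ge w
        have h5 : ‖P w‖ ≤ N := le_max_right _ _
        nlinarith
  have hN0 : 0 < N := by linarith
  have hM0 : 0 < M ^ 2 := by positivity
  rw [e, abs_le]
  constructor
  · have := Real.log_le_log hM0 h2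
    rw [Real.log_mul (by norm_num) hN0.ne'] at this
    linarith
  · have := Real.log_le_log hN0 h1
    rw [Real.log_mul (by norm_num) hM0.ne'] at this
    linarith

theorem gn_step (n : ℕ) (z : ℂ) : |gn (n + 1) z - gn n z| ≤ (1 / 2) ^ (n + 1) * Real.log 32 := by
  have h := log_P (P^[n] z)
  unfold gn
  rw [Function.iterate_succ_apply']
  have e : (1 / 2 : ℝ) ^ (n + 1) * Real.log (max 1 ‖P (P^[n] z)‖) - (1 / 2) ^ n * Real.log (max 1 ‖P^[n] z‖) =
      (1 / 2) ^ (n + 1) * (Real.log (max 1 ‖P (P^[n] z)‖) - 2 * Real.log (max 1 ‖P^[n] z‖)) := by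
    ring
  rw [e, abs_mul, abs_of_pos (by positivity)]
  exact mul_le_mul_of_nonneg_left h (by positivity)

theorem summable_bound : Summable (fun n : ℕ => (1 / 2 : ℝ) ^ (n + 1) * Real.log 32) := by
  apply Summable.mul_right
  exact (summable_nat_add_iff 1).2 (summable_geometric_of_lt_one (by norm_num) (by norm_num))

theorem tsum_bound : ∑' n : ℕ, (1 / 2 : ℝ) ^ (n + 1) * Real.log 32 = Real.log 32 := by
  rw [tsum_mul_right]
  have : ∑' n : ℕ, (1 / 2 : ℝ) ^ (n + 1) = 1 := by
    have h := tsum_geometric_two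
    have : ∀ n : ℕ, (1 / 2 : ℝ) ^ (n + 1) = (1 / 2 : ℝ) ^ n * (1 / 2) := fun n => by ring
    simp_rw [this]
    rw [tsum_mul_right, h]; norm_num
  rw [this, one_mul]

theorem summable_gn (z : ℂ) : Summable (fun n : ℕ => gn (n + 1) z - gn n z) :=
  Summable.of_norm_bounded summable_bound (fun n => by
    rw [Real.norm_eq_abs]; exact gn_step n z)

/-- the Green function of `ℂ \ J` -/
noncomputable def g (z : ℂ) : ℝ := gn 0 z + ∑' n : ℕ, (gn (n + 1) z - gn n z)

theorem g_bound (z : ℂ) : |g z - Real.log (max 1 ‖z‖)| ≤ Real.log 32 := by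
  have e : g z - Real.log (max 1 ‖z‖) = ∑' n : ℕ, (gn (n + 1) z - gn n z) := by
    unfold g
    have : gn 0 z = Real.log (max 1 ‖z‖) := by simp [gn]
    rw [this]; ring
  rw [e, ← Real.norm_eq_abs]
  refine (tsum_of_norm_bounded summable_bound.hasSum (fun n => ?_)).trans tsum_bound.le
  rw [Real.norm_eq_abs]; exact gn_step n z

theorem gn_harmonic {n : ℕ} {z : ℂ} {r : ℝ} (hesc : ∀ w ∈ ball z r, 4 < ‖P^[n] w‖) :
    HarmonicOnNhd (gn n) (ball z r) := by
  intro w hw
  have h1 : HarmonicAt (fun w => Real.log ‖P^[n] w‖) w := by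
    apply AnalyticAt.harmonicAt_log_norm
    · exact (differentiable_iter n).analyticAt w
    · have := hesc w hw
      intro h0
      rw [h0, norm_zero] at this
      linarith
  have h2 : HarmonicAt ((1 / 2 : ℝ) ^ n • fun w => Real.log ‖P^[n] w‖) w := h1.const_smul
  rw [harmonicAt_congr_nhds (f₂ := ((1 / 2 : ℝ) ^ n • fun w => Real.log ‖P^[n] w‖))]
  · exact h2
  · filter_upwards [isOpen_ball.mem_nhds hw] with v hv
    have := hesc v hv
    simp only [gn, Pi.smul_apply, smul_eq_mul]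
    rw [max_eq_right (by linarith)]

theorem g_harmonic {z : ℂ} (hz : z ∉ J) : HarmonicAt g z := by
  have : ∃ N, 4 < ‖P^[N] z‖ := by
    by_contra hcon
    push Not at hcon
    exact hz hcon
  obtain ⟨N, hN⟩ := this
  have hopen : IsOpen {w : ℂ | 4 < ‖P^[N] w‖} := isOpen_lt continuous_const (continuous_iter N).norm
  obtain ⟨r, hr, hball⟩ := Metric.isOpen_iff.1 hopen z hN
  have hesc : ∀ n, N ≤ n → ∀ w ∈ ball z r, 4 < ‖P^[n] w‖ := fun n hn w hw =>
    escape_iter (hball hw) hn
  have h1 : HarmonicAt (gn N) z := gn_harmonic (hesc N le_rfl) z (mem_ball_self hr)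
  have h2 : HarmonicAt (fun w => ∑' n : ℕ, (gn (n + N + 1) w - gn (n + N) w)) z := by
    apply harmonicAt_tsum (f := fun n w => gn (n + N + 1) w - gn (n + N) w)
      (a := fun n => (1 / 2) ^ (n + N + 1) * Real.log 32) hr
    · intro n
      exact (gn_harmonic (hesc _ (by omega))).sub (gn_harmonic (hesc _ (by omega)))
    · intro n w _
      exact gn_step (n + N) w
    · exact (summable_nat_add_iff N).2 summable_bound
  have h3 : g = (gn N) + (fun w => ∑' n : ℕ, (gn (n + N + 1) w - gn (n + N) w)) := by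
    funext w
    simp only [Pi.add_apply, g]
    have e := Finset.sum_range_sub (fun i => gn i w) N
    rw [← (summable_gn w).sum_add_tsum_nat_add N, e]
    ring
  rw [h3]
  exact h1.add h2

end Pool.Agent.LibHelper99.Hardy
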