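import Mathlib
import Pool.Agent.Lib_helper99.Harm
import Pool.Agent.Lib_helper99.Julia

set_option autoImplicit false

namespace Pool.Agent.LibHelper99.Hardy

open Complex InnerProductSpace Metric Set Topology Filter MeasureTheory
open scoped NNReal ENNReal

/-- the normalised potential of one piece -/
noncomputable def G (t : ℂ) : ℝ := g ((t - 1) * 16) - g (-16)

theorem log32 : Real.log 32 = 5 * Real.log 2 := by
  rw [show (32 : ℝ) = 2 ^ 5 by norm_num, Real.log_pow]; norm_num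

theorem log16 : Real.log 16 = 4 * Real.log 2 := by
  rw [show (16 : ℝ) = 2 ^ 4 by norm_num, Real.log_pow]; norm_num

theorem log2_pos : 0 < Real.log 2 := Real.log_pos (by norm_num)

theorem log2_ge : 1 / 2 ≤ Real.log 2 := by
  have := Real.log_two_gt_d9
  linarith

theorem log2_le : Real.log 2 ≤ 7 / 10 := by
  have := Real.log_two_lt_d9
  linarith

theorem g16 : -Real.log 2 ≤ g (-16) ∧ g (-16) ≤ 9 * Real.log 2 := by
  have h := g_bound (-16)
  have e : max 1 ‖(-16 : ℂ)‖ = 16 := by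
    rw [norm_neg]
    have : ‖(16 : ℂ)‖ = 16 := by simp
    rw [this]; norm_num
  rw [e, log32, log16, abs_le] at h
  constructor <;> linarith [h.1, h.2]

theorem G_zero : G 0 = 0 := by
  unfold G
  have : ((0 : ℂ) - 1) * 16 = -16 := by ring
  rw [this, sub_self]

theorem G_lower (t : ℂ) : -(14 * Real.log 2) ≤ G t := by
  have h := g_bound ((t - 1) * 16)
  have h1 : 0 ≤ Real.log (max 1 ‖(t - 1) * 16‖) := Real.log_nonneg (le_max_left _ _)
  rw [log32, abs_le] at h
  unfold G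
  linarith [h.1, g16.2]

theorem norm_arg (t : ℂ) : ‖(t - 1) * 16‖ = 16 * ‖t - 1‖ := by
  rw [norm_mul]
  have : ‖(16 : ℂ)‖ = 16 := by simp
  rw [this, mul_comm]

theorem G_upper (t : ℂ) : G t ≤ Real.log (max 1 (16 * ‖t - 1‖)) + 6 * Real.log 2 := by
  have h := g_bound ((t - 1) * 16)
  rw [log32, abs_le, norm_arg] at h
  unfold G
  linarith [h.2, g16.1]

theorem G_upper_near {t : ℂ} (ht : ‖t‖ ≤ 3 / 4) : G t ≤ 14 * Real.log 2 := by
  have h := G_upper t
  have h1 : ‖t - 1‖ ≤ 7 / 4 := by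
    refine (norm_sub_le _ _).trans ?_
    rw [norm_one]; linarith
  have h2 : max 1 (16 * ‖t - 1‖) ≤ 32 := max_le (by norm_num) (by linarith)
  have h3 : Real.log (max 1 (16 * ‖t - 1‖)) ≤ Real.log 32 :=
    Real.log_le_log (lt_of_lt_of_le one_pos (le_max_left _ _)) h2
  rw [log32] at h3
  linarith [log2_pos]

theorem G_far {t : ℂ} (ht : 2 ≤ ‖t‖) : Real.log ‖t‖ - 11 * Real.log 2 ≤ G t := by
  have h := g_bound ((t - 1) * 16)
  rw [log32, abs_le, norm_arg] at h
  have h1 : ‖t‖ / 2 ≤ ‖t - 1‖ := by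
    have := norm_sub_norm_le t 1
    rw [norm_one] at this
    linarith
  have h2 : Real.log (8 * ‖t‖) ≤ Real.log (max 1 (16 * ‖t - 1‖)) := by
    apply Real.log_le_log (by linarith)
    refine le_trans ?_ (le_max_right _ _)
    linarith
  have h3 : Real.log (8 * ‖t‖) = 3 * Real.log 2 + Real.log ‖t‖ := by
    rw [Real.log_mul (by norm_num) (by linarith), show (8 : ℝ) = 2 ^ 3 by norm_num, Real.log_pow]
    norm_num
  unfold G
  linarith [h.1, g16.2]

theorem G_harmonic {t : ℂ} (ht : (t - 1) * 16 ∉ J) : HarmonicAt G t := by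
  have h1 : HarmonicAt (fun w : ℂ => g ((w - 1) * 16)) t :=
    harmonicAt_comp (φ := fun w : ℂ => (w - 1) * 16) (g_harmonic ht) (by fun_prop)
  have h2 := h1.sub (harmonicAt_const (g (-16)))
  exact h2

theorem not_mem_J_of_small {t : ℂ} (ht : ‖t‖ < 3 / 4) : (t - 1) * 16 ∉ J := by
  intro hJ
  have h1 := norm_le_of_mem hJ
  rw [norm_arg] at h1
  have := norm_sub_norm_le (1 : ℂ) t
  rw [norm_one, norm_sub_rev] at this
  linarith

theorem G_lin (t : ℂ) : |G t| ≤ 112 * Real.log 2 * ‖t‖ := by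
  have hL := log2_pos
  have hL2 := log2_ge
  rcases le_or_gt ‖t‖ (1 / 2) with h | h
  · have hz : t ∈ ball (0 : ℂ) (3 / 4) := by rw [mem_ball_zero_iff]; linarith
    have h1 := small_at_zero (f := G) (R := 3 / 4) (M := 14 * Real.log 2) (by norm_num) (by linarith)
      (fun z hz => G_harmonic (not_mem_J_of_small (by rwa [mem_ball_zero_iff] at hz)))
      (fun z hz => G_upper_near (by rw [mem_ball_zero_iff] at hz; exact hz.le)) G_zero hz
    refine h1.trans ?_
    rw [div_le_iff₀ (by linarith)]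
    have h0 := norm_nonneg t
    nlinarith [mul_nonneg hL.le h0]
  · rw [abs_le]
    constructor
    · have := G_lower t
      nlinarith
    · have h1 := G_upper t
      have h2 : max 1 (16 * ‖t - 1‖) ≤ 48 * ‖t‖ := by
        apply max_le (by linarith)
        have := norm_sub_le t 1
        rw [norm_one] at this
        linarith
      have h3 : Real.log (max 1 (16 * ‖t - 1‖)) ≤ Real.log (48 * ‖t‖) :=
        Real.log_le_log (lt_of_lt_of_le one_pos (le_max_left _ _)) h2
      have h4 : Real.log (48 * ‖t‖) = Real.log 48 + Real.log ‖t‖ :=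
        Real.log_mul (by norm_num) (by linarith)
      have h5 : Real.log 48 ≤ 6 * Real.log 2 := by
        have : Real.log 48 ≤ Real.log (2 ^ 6) := Real.log_le_log (by norm_num) (by norm_num)
        rw [Real.log_pow] at this
        norm_num at this
        exact this
      have h6 : Real.log ‖t‖ ≤ ‖t‖ - 1 := Real.log_le_sub_one_of_pos (by linarith)
      nlinarith

/-! ### The domains -/

/-- the scaling ratio -/
noncomputable def La : ℝ := 2 ^ 86

theorem La_pos : 0 < La := by unfold La; positivity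

/-- the domain in the `t`-plane -/
def D2 : Set ℂ := {t | ∀ k : ℕ, (t / (La : ℂ) ^ k - 1) * 16 ∉ J}

/-- the domain in the `w`-plane -/
def D1 : Set ℂ := {w | w ^ 172 ∈ D2}

theorem norm_div_La (t : ℂ) (k : ℕ) : ‖t / (La : ℂ) ^ k‖ = ‖t‖ / La ^ k := by
  rw [norm_div, norm_pow, norm_real, Real.norm_eq_abs, abs_of_pos La_pos]

theorem La_ge : (2 : ℝ) ≤ La := by
  unfold La
  norm_num

theorem isOpen_D2 : IsOpen D2 := by
  rw [isOpen_iff_mem_nhds]
  intro t₀ ht₀
  obtain ⟨N, hN⟩ := pow_unbounded_of_one_lt (2 * (‖t₀‖ + 1)) (lt_of_lt_of_le one_lt_two La_ge)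
  have h1 : ∀ k < N, ∀ᶠ t in 𝓝 t₀, (t / (La : ℂ) ^ k - 1) * 16 ∉ J := by
    intro k _
    have hc : Continuous (fun t : ℂ => (t / (La : ℂ) ^ k - 1) * 16) := by fun_prop
    exact (isClosed_J.isOpen_compl.preimage hc).mem_nhds (ht₀ k)
  have h2 : ∀ᶠ t in 𝓝 t₀, ∀ k < N, (t / (La : ℂ) ^ k - 1) * 16 ∉ J := by
    have := (Finset.eventually_all (Finset.range N) (l := 𝓝 t₀)
      (p := fun k t => (t / (La : ℂ) ^ k - 1) * 16 ∉ J)).2
      (fun k hk => h1 k (Finset.mem_range.1 hk))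
    filter_upwards [this] with t ht k hk
    exact ht k (Finset.mem_range.2 hk)
  filter_upwards [h2, ball_mem_nhds t₀ one_pos] with t ht htb k
  by_cases hk : k < N
  · exact ht k hk
  · apply not_mem_J_of_small
    rw [norm_div_La, div_lt_iff₀ (pow_pos La_pos k)]
    have h3 : La ^ N ≤ La ^ k := pow_le_pow_right₀ (by linarith [La_ge]) (by omega)
    have h4 : ‖t‖ < ‖t₀‖ + 1 := by
      rw [mem_ball_iff_norm] at htb
      have := norm_sub_norm_le t t₀
      linarith
    have h5 := norm_nonneg t₀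
    linarith

theorem isOpen_D1 : IsOpen D1 := isOpen_D2.preimage (continuous_pow 172)

theorem mem_D2_of_im {t : ℂ} (ht : t.im ≠ 0) : t ∈ D2 := by
  intro k hJ
  apply ht
  have h1 := im_eq_zero hJ
  have e : ((t / (La : ℂ) ^ k - 1) * 16).im = t.im / La ^ k * 16 := by
    have : (La : ℂ) ^ k = ((La ^ k : ℝ) : ℂ) := by push_cast; rfl
    rw [this, mul_im, sub_im, div_ofReal_im]
    simp
  rw [e] at h1
  have h2 : La ^ k ≠ 0 := (pow_pos La_pos k).ne'
  field_simp at h1
  simpa using h1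

/-- the harmonic function on `D2` -/
noncomputable def U0 (t : ℂ) : ℝ := ∑' k : ℕ, 2 ^ k * G (t / (La : ℂ) ^ k)

theorem term_bound (t : ℂ) (k : ℕ) :
    |2 ^ k * G (t / (La : ℂ) ^ k)| ≤ 112 * Real.log 2 * ‖t‖ * (2 / La) ^ k := by
  rw [abs_mul, abs_of_pos (show (0 : ℝ) < 2 ^ k by positivity)]
  have h := G_lin (t / (La : ℂ) ^ k)
  rw [norm_div_La] at h
  calc 2 ^ k * |G (t / (La : ℂ) ^ k)| ≤ 2 ^ k * (112 * Real.log 2 * (‖t‖ / La ^ k)) :=
        mul_le_mul_of_nonneg_left h (by positivity)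
    _ = 112 * Real.log 2 * ‖t‖ * (2 / La) ^ k := by
        rw [div_pow]; ring

theorem ratio_nonneg : 0 ≤ 2 / La := div_nonneg zero_le_two La_pos.le

theorem ratio_le : 2 / La ≤ 1 / 2 := by
  unfold La
  norm_num

theorem summable_term (t : ℂ) : Summable (fun k : ℕ => 2 ^ k * G (t / (La : ℂ) ^ k)) :=
  Summable.of_norm_bounded
    ((summable_geometric_of_lt_one ratio_nonneg (lt_of_le_of_lt ratio_le (by norm_num))).mul_left
      (112 * Real.log 2 * ‖t‖))
    (fun k => by rw [Real.norm_eq_abs]; exact term_bound t k)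

theorem tail_bound (t : ℂ) (N : ℕ) :
    |∑' k : ℕ, 2 ^ (k + N) * G (t / (La : ℂ) ^ (k + N))| ≤
      224 * Real.log 2 * ‖t‖ * (2 / La) ^ N := by
  have hs : HasSum (fun k : ℕ => 112 * Real.log 2 * ‖t‖ * (2 / La) ^ N * (2 / La) ^ k)
      (112 * Real.log 2 * ‖t‖ * (2 / La) ^ N * (1 - 2 / La)⁻¹) :=
    (hasSum_geometric_of_lt_one ratio_nonneg (lt_of_le_of_lt ratio_le (by norm_num))).mul_left _
  have h := tsum_of_norm_bounded hs (f := fun k : ℕ => 2 ^ (k + N) * G (t / (La : ℂ) ^ (k + N)))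
    (fun k => by
      rw [Real.norm_eq_abs]
      refine (term_bound t (k + N)).trans (le_of_eq ?_)
      rw [pow_add]; ring)
  rw [Real.norm_eq_abs] at h
  refine h.trans ?_
  have h1 : (1 - 2 / La)⁻¹ ≤ 2 := by
    have := ratio_le
    rw [inv_le_comm₀ (by linarith) (by norm_num)]
    linarith
  have h2 : 0 ≤ 112 * Real.log 2 * ‖t‖ * (2 / La) ^ N := by
    have := log2_pos
    have := ratio_nonneg
    positivity
  nlinarith

theorem U0_harmonic {t : ℂ} (ht : t ∈ D2) : HarmonicAt U0 t := by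
  obtain ⟨r, hr, hball⟩ := Metric.isOpen_iff.1 isOpen_D2 t ht
  have hr' : 0 < min r 1 := lt_min hr one_pos
  apply harmonicAt_tsum (f := fun k w => 2 ^ k * G (w / (La : ℂ) ^ k))
    (a := fun k => 112 * Real.log 2 * (‖t‖ + 1) * (2 / La) ^ k) hr'
  · intro k w hw
    have hwD : w ∈ D2 := hball (ball_subset_ball (min_le_left _ _) hw)
    have h1 : HarmonicAt (fun w : ℂ => G (w / (La : ℂ) ^ k)) w :=
      harmonicAt_comp (φ := fun w : ℂ => w / (La : ℂ) ^ k) (G_harmonic (hwD k)) (by fun_prop)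
    exact h1.const_smul (c := (2 : ℝ) ^ k)
  · intro k w hw
    refine (term_bound w k).trans ?_
    have h1 : ‖w‖ ≤ ‖t‖ + 1 := by
      have h2 := ball_subset_ball (min_le_right r 1) hw
      rw [mem_ball_iff_norm] at h2
      have := norm_sub_norm_le w t
      linarith
    have := log2_pos
    have := ratio_nonneg
    gcongr
  · exact (summable_geometric_of_lt_one ratio_nonneg (lt_of_le_of_lt ratio_le (by norm_num))).mul_left _

/-- the half ratio -/
noncomputable def A0 : ℝ := 2 ^ 43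

theorem A0_pos : 0 < A0 := by unfold A0; positivity

theorem La_eq : La = A0 ^ 2 := by unfold La A0; norm_num

theorem log_A0 : Real.log A0 = 43 * Real.log 2 := by
  unfold A0; rw [Real.log_pow]; norm_num

theorem A0_ge : (1000 : ℝ) ≤ A0 := by unfold A0; norm_num

theorem U0_lower_zero {t : ℂ} (ht : ‖t‖ < A0) : -(15 * Real.log 2) ≤ U0 t := by
  have hs := summable_term t
  have h1 : U0 t = G t + ∑' k : ℕ, 2 ^ (k + 1) * G (t / (La : ℂ) ^ (k + 1)) := by
    have := hs.sum_add_tsum_nat_add 1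
    simp only [Finset.range_one, Finset.sum_singleton, pow_zero, one_mul, div_one] at this
    exact this.symm
  have h2 := tail_bound t 1
  have h3 := G_lower t
  have hL := log2_pos
  have h4 : 224 * Real.log 2 * ‖t‖ * (2 / La) ^ 1 ≤ Real.log 2 := by
    have hA := A0_ge
    have hA0 := A0_pos
    rw [La_eq, pow_one, mul_div_assoc', div_le_iff₀ (by positivity)]
    have e1 : ‖t‖ ≤ A0 := ht.le
    have e2 : 0 ≤ ‖t‖ := norm_nonneg t
    have e3 : 448 * ‖t‖ ≤ A0 ^ 2 := by nlinarith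
    nlinarith
  rw [abs_le] at h2
  rw [h1]
  linarith [h2.1]

theorem U0_lower_succ {t : ℂ} {K : ℕ} (ht1 : A0 ^ (2 * K + 1) ≤ ‖t‖) (ht2 : ‖t‖ < A0 ^ (2 * K + 3)) :
    2 ^ (K + 1) * Real.log 2 ≤ U0 t := by
  have hs := summable_term t
  have hL := log2_pos
  have hA := A0_ge
  have hA0 := A0_pos
  have h1 : U0 t = (∑ k ∈ Finset.range (K + 1), 2 ^ k * G (t / (La : ℂ) ^ k)) +
      2 ^ (K + 1) * G (t / (La : ℂ) ^ (K + 1)) +
      ∑' k : ℕ, 2 ^ (k + (K + 2)) * G (t / (La : ℂ) ^ (k + (K + 2))) := by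
    have := hs.sum_add_tsum_nat_add (K + 2)
    rw [Finset.sum_range_succ] at this
    exact this.symm
  -- terms `k ≤ K`
  have hterm : ∀ k ≤ K, 32 * Real.log 2 ≤ G (t / (La : ℂ) ^ k) := by
    intro k hk
    have e1 : A0 ≤ ‖t / (La : ℂ) ^ k‖ := by
      rw [norm_div_La, le_div_iff₀ (pow_pos La_pos k), La_eq, ← pow_mul]
      calc A0 * A0 ^ (2 * k) = A0 ^ (2 * k + 1) := by ring
        _ ≤ A0 ^ (2 * K + 1) := pow_le_pow_right₀ (by linarith) (by omega)
        _ ≤ ‖t‖ := ht1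
    have e2 := G_far (t := t / (La : ℂ) ^ k) (by linarith)
    have e3 : Real.log A0 ≤ Real.log ‖t / (La : ℂ) ^ k‖ := Real.log_le_log hA0 e1
    rw [log_A0] at e3
    linarith
  have h2 : 2 ^ K * (32 * Real.log 2) ≤ ∑ k ∈ Finset.range (K + 1), 2 ^ k * G (t / (La : ℂ) ^ k) := by
    have h3 : 2 ^ K * G (t / (La : ℂ) ^ K) ≤ ∑ k ∈ Finset.range (K + 1), 2 ^ k * G (t / (La : ℂ) ^ k) := by
      apply Finset.single_le_sum (f := fun k => 2 ^ k * G (t / (La : ℂ) ^ k)) _ (Finset.self_mem_range_succ K)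
      intro k hk
      have := hterm k (by rw [Finset.mem_range] at hk; omega)
      have h4 : 0 ≤ G (t / (La : ℂ) ^ k) := by linarith
      positivity
    refine le_trans ?_ h3
    exact mul_le_mul_of_nonneg_left (hterm K le_rfl) (by positivity)
  have h3 : 2 ^ (K + 1) * (-(14 * Real.log 2)) ≤ 2 ^ (K + 1) * G (t / (La : ℂ) ^ (K + 1)) :=
    mul_le_mul_of_nonneg_left (G_lower _) (by positivity)
  have h4 := tail_bound t (K + 2)
  have h5 : 224 * Real.log 2 * ‖t‖ * (2 / La) ^ (K + 2) ≤ 2 ^ (K + 1) * Real.log 2 := by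
    rw [La_eq, div_pow, ← pow_mul, mul_div_assoc', div_le_iff₀ (by positivity)]
    have e1 : 448 * ‖t‖ ≤ A0 ^ (2 * (K + 2)) := by
      calc 448 * ‖t‖ ≤ 448 * A0 ^ (2 * K + 3) := by linarith
        _ ≤ A0 * A0 ^ (2 * K + 3) := by
            apply mul_le_mul_of_nonneg_right (by linarith); positivity
        _ = A0 ^ (2 * (K + 2)) := by ring
    calc 224 * Real.log 2 * ‖t‖ * 2 ^ (K + 2) = 2 ^ (K + 1) * Real.log 2 * (448 * ‖t‖) := by ring
      _ ≤ 2 ^ (K + 1) * Real.log 2 * A0 ^ (2 * (K + 2)) := by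
          apply mul_le_mul_of_nonneg_left e1; positivity
  rw [abs_le] at h4
  rw [h1]
  have e3 : (0 : ℝ) < 2 ^ K * Real.log 2 := by positivity
  have h2' : 32 * (2 ^ K * Real.log 2) ≤ ∑ k ∈ Finset.range (K + 1), 2 ^ k * G (t / (La : ℂ) ^ k) := by
    refine le_trans (le_of_eq ?_) h2; ring
  have h3' : -(28 * (2 ^ K * Real.log 2)) ≤ 2 ^ (K + 1) * G (t / (La : ℂ) ^ (K + 1)) := by
    refine le_trans (le_of_eq ?_) h3; ring
  have h5' : 224 * Real.log 2 * ‖t‖ * (2 / La) ^ (K + 2) ≤ 2 * (2 ^ K * Real.log 2) := by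
    refine h5.trans (le_of_eq ?_); ring
  have e4 : (2 : ℝ) ^ (K + 1) * Real.log 2 = 2 * (2 ^ K * Real.log 2) := by ring
  rw [e4]
  linarith [h4.1]

/-- The harmonic majorant of `|w|^2`. -/
theorem majorant (w : ℂ) : ‖w‖ ^ 2 ≤ 3 * U0 (w ^ 172) + 60 := by
  have hL1 := log2_ge
  have hL2 := log2_le
  by_cases h0 : ‖w ^ 172‖ < A0
  · have h1 := U0_lower_zero h0
    have h2 : ‖w‖ ^ 4 < 2 := by
      rw [norm_pow] at h0
      have : (‖w‖ ^ 4) ^ 43 < 2 ^ 43 := by
        rw [← pow_mul]; exact h0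
      exact lt_of_pow_lt_pow_left₀ 43 (by norm_num) this
    have h3 : ‖w‖ ^ 2 < 2 := by
      by_contra hcon
      push Not at hcon
      have : (2 : ℝ) ^ 2 ≤ (‖w‖ ^ 2) ^ 2 := pow_le_pow_left₀ (by norm_num) hcon 2
      rw [← pow_mul] at this
      norm_num at this
      linarith
    linarith
  · -- find `K`
    have hex : ∃ K : ℕ, ‖w ^ 172‖ < A0 ^ (2 * K + 1) := by
      obtain ⟨n, hn⟩ := pow_unbounded_of_one_lt ‖w ^ 172‖ (show (1 : ℝ) < A0 by linarith [A0_ge])
      refine ⟨n, hn.trans_le (pow_le_pow_right₀ (by linarith [A0_ge]) (by omega))⟩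
    classical
    obtain ⟨K, hK⟩ : ∃ K, Nat.find hex = K + 1 := by
      have hne : Nat.find hex ≠ 0 := by
        intro h
        have := Nat.find_spec hex
        rw [h] at this
        simp only [mul_zero, zero_add, pow_one] at this
        exact h0 this
      exact Nat.exists_eq_succ_of_ne_zero hne
    have h1 : ‖w ^ 172‖ < A0 ^ (2 * K + 3) := by
      have := Nat.find_spec hex
      rw [hK] at this
      exact this
    have h2 : A0 ^ (2 * K + 1) ≤ ‖w ^ 172‖ := by
      have := Nat.find_min hex (m := K) (by omega)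
      exact not_lt.1 this
    have h3 := U0_lower_succ h2 h1
    have h4 : ‖w‖ ^ 4 < 2 ^ (2 * K + 3) := by
      rw [norm_pow] at h1
      have : (‖w‖ ^ 4) ^ 43 < (2 ^ (2 * K + 3)) ^ 43 := by
        rw [← pow_mul, ← pow_mul]
        have e : A0 ^ (2 * K + 3) = 2 ^ ((2 * K + 3) * 43) := by
          unfold A0; rw [← pow_mul, mul_comm 43]
        rwa [← e]
      exact lt_of_pow_lt_pow_left₀ 43 (by positivity) this
    have h5 : ‖w‖ ^ 2 < 3 / 2 * 2 ^ (K + 1) := by
      by_contra hcon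
      push Not at hcon
      have : (3 / 2 * 2 ^ (K + 1) : ℝ) ^ 2 ≤ (‖w‖ ^ 2) ^ 2 := pow_le_pow_left₀ (by positivity) hcon 2
      rw [← pow_mul] at this
      have e : (3 / 2 * 2 ^ (K + 1) : ℝ) ^ 2 = 9 / 8 * 2 ^ (2 * K + 3) := by ring
      rw [e] at this
      have hp : (0 : ℝ) < 2 ^ (2 * K + 3) := by positivity
      norm_num at this
      linarith
    have h6 : (0 : ℝ) < 2 ^ (K + 1) := by positivity
    nlinarith

end Pool.Agent.LibHelper99.Hardy
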