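import Mathlib

set_option autoImplicit false

namespace Pool.Agent.LibHelper99.Hardy

open Complex Metric Set Topology Filter MeasureTheory
open scoped NNReal ENNReal Interval

/-- A function which is `1/2`-Hölder on an interval and locally constant off a set of
`1/2`-dimensional Hausdorff measure zero is constant. -/
theorem const_of_holder_half {ψ : ℝ → ℂ} {A B : ℝ} {K : ℝ≥0} {S : Set ℝ}
    (hψ : HolderOnWith K (1 / 2) ψ (Ioo A B))
    (hS : Measure.hausdorffMeasure (1 / 2 : ℝ) (S ∩ Ioo A B) = 0)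
    (hloc : ∀ x ∈ Ioo A B, x ∉ S → ∃ r > 0, ∀ x' ∈ Ioo A B, |x' - x| < r → ψ x' = ψ x)
    {x₁ x₂ : ℝ} (h₁ : x₁ ∈ Ioo A B) (h₂ : x₂ ∈ Ioo A B) : ψ x₁ = ψ x₂ := by
  set φ : ℝ → ℝ := fun x => ‖ψ x - ψ x₁‖ with hφ
  have hφ1 : φ x₁ = 0 := by simp [hφ]
  by_contra hne
  have hM : 0 < φ x₂ := by
    rw [hφ]
    exact norm_pos_iff.2 (sub_ne_zero.2 (Ne.symm hne))
  -- continuity and the intermediate value theorem
  have hcont : ContinuousOn φ (Ioo A B) := by
    have h1 : ContinuousOn ψ (Ioo A B) := hψ.continuousOn (by norm_num)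
    exact (h1.sub continuousOn_const).norm
  have hivt : Icc 0 (φ x₂) ⊆ φ '' (Ioo A B) := by
    have := (isPreconnected_Ioo (a := A) (b := B)).intermediate_value h₁ h₂ hcont
    rwa [hφ1] at this
  -- Hölder for φ
  have hφH : HolderOnWith K (1 / 2) φ (S ∩ Ioo A B) := by
    intro x hx y hy
    have h1 := hψ x hx.2 y hy.2
    refine le_trans ?_ h1
    have h2 : ‖φ x - φ y‖ ≤ ‖ψ x - ψ y‖ := by
      have := abs_norm_sub_norm_le (ψ x - ψ x₁) (ψ y - ψ x₁)
      rw [Real.norm_eq_abs]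
      simpa [hφ] using this
    rw [edist_eq_enorm_sub, edist_eq_enorm_sub]
    exact enorm_le_iff_norm_le.2 h2
  have hm1 : volume (φ '' (S ∩ Ioo A B)) = 0 := by
    rw [← hausdorffMeasure_real]
    have := hφH.hausdorffMeasure_image_le (by norm_num) (d := 1) (by norm_num)
    have e : (((1 / 2 : ℝ≥0) : ℝ) * 1) = (1 / 2 : ℝ) := by norm_num
    rw [e, hS, mul_zero] at this
    exact le_antisymm this (zero_le)
  have hm2 : volume (φ '' (Ioo A B \ S)) = 0 := by
    apply Set.Countable.measure_zero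
    choose! r hr0 hr using hloc
    have hcov : ∀ x ∈ Ioo A B \ S, ball x (r x) ∈ 𝓝[Ioo A B \ S] x := by
      intro x hx
      exact mem_nhdsWithin_of_mem_nhds (ball_mem_nhds x (hr0 x hx.1 hx.2))
    obtain ⟨t, ht1, ht2, ht3⟩ := TopologicalSpace.countable_cover_nhdsWithin hcov
    apply (ht2.image φ).mono
    rintro _ ⟨x, hx, rfl⟩
    obtain ⟨y, hy, hxy⟩ := mem_iUnion₂.1 (ht3 hx)
    refine ⟨y, hy, ?_⟩
    have := hr y (ht1 hy).1 (ht1 hy).2 x hx.1 (by rwa [mem_ball, Real.dist_eq] at hxy)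
    simp only [hφ, this]
  have hsub : Icc 0 (φ x₂) ⊆ φ '' (S ∩ Ioo A B) ∪ φ '' (Ioo A B \ S) := by
    refine hivt.trans ?_
    rintro _ ⟨x, hx, rfl⟩
    by_cases hxS : x ∈ S
    · exact Or.inl ⟨x, ⟨hxS, hx⟩, rfl⟩
    · exact Or.inr ⟨x, ⟨hx, hxS⟩, rfl⟩
  have hv : volume (Icc 0 (φ x₂)) ≤ 0 := by
    refine (measure_mono hsub).trans ((measure_union_le _ _).trans ?_)
    rw [hm1, hm2, add_zero]
  rw [Real.volume_Icc] at hv
  simp only [sub_zero, nonpos_iff_eq_zero, ENNReal.ofReal_eq_zero, not_le.2 hM] at hv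

/-- the integrable singularity -/
theorem intervalIntegrable_abs_rpow (a b : ℝ) :
    IntervalIntegrable (fun y : ℝ => |y| ^ (-(1 / 2) : ℝ)) volume a b := by
  have h0 : ∀ c : ℝ, 0 ≤ c → IntervalIntegrable (fun y : ℝ => |y| ^ (-(1 / 2) : ℝ)) volume 0 c := by
    intro c hc
    refine (intervalIntegral.intervalIntegrable_rpow' (a := 0) (b := c) (r := -(1 / 2))
      (by norm_num)).congr ?_
    intro x hx
    rw [uIoc_of_le hc] at hx
    simp only [abs_of_pos hx.1]
  have h1 : ∀ c : ℝ, IntervalIntegrable (fun y : ℝ => |y| ^ (-(1 / 2) : ℝ)) volume 0 c := by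
    intro c
    rcases le_total 0 c with hc | hc
    · exact h0 c hc
    · have h2 : IntervalIntegrable (fun y : ℝ => |y| ^ (-(1 / 2) : ℝ)) volume 0 (-c) :=
        h0 (-c) (by linarith)
      rw [IntervalIntegrable.iff_comp_neg] at h2
      simpa using h2
  exact (h1 a).symm.trans (h1 b)

theorem integral_abs_rpow {d : ℝ} (hd : 0 ≤ d) :
    ∫ y in (0 : ℝ)..d, |y| ^ (-(1 / 2) : ℝ) = 2 * Real.sqrt d := by
  have : ∫ y in (0 : ℝ)..d, |y| ^ (-(1 / 2) : ℝ) = ∫ y in (0 : ℝ)..d, y ^ (-(1 / 2) : ℝ) := by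
    apply intervalIntegral.integral_congr
    intro x hx
    rw [uIcc_of_le hd] at hx
    simp only [abs_of_nonneg hx.1]
  rw [this, integral_rpow (Or.inl (by norm_num)), Real.sqrt_eq_rpow]
  norm_num
  ring

/-- the open square -/
def Q (x₀ h : ℝ) : Set ℂ := {z | |z.re - x₀| < h ∧ |z.im| < h}

theorem isOpen_Q (x₀ h : ℝ) : IsOpen (Q x₀ h) := by
  have h1 : IsOpen {z : ℂ | |z.re - x₀| < h} :=
    isOpen_lt ((continuous_re.sub continuous_const).abs) continuous_const
  have h2 : IsOpen {z : ℂ | |z.im| < h} := isOpen_lt continuous_im.abs continuous_const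
  exact h1.inter h2

/-- the singular set -/
def Sg (S : Set ℝ) : Set ℂ := {z | z.im = 0 ∧ z.re ∈ S}

theorem isClosed_Sg {S : Set ℝ} (hS : IsClosed S) : IsClosed (Sg S) :=
  (isClosed_eq continuous_im continuous_const).inter (hS.preimage continuous_re)

section local_setup

variable {F : ℂ → ℂ} {S : Set ℝ} {x₀ h C : ℝ}

/-- bundled hypotheses -/
structure Hyp (F : ℂ → ℂ) (S : Set ℝ) (x₀ h C : ℝ) : Prop where
  h_pos : 0 < h
  C_nonneg : 0 ≤ C
  closed : IsClosed S
  null : Measure.hausdorffMeasure (1 / 2 : ℝ) S = 0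
  diff : DifferentiableOn ℂ F (Q x₀ h \ Sg S)
  bound : ∀ z ∈ Q x₀ h, z.im ≠ 0 → ‖F z‖ ≤ C * |z.im| ^ (-(1 / 2) : ℝ)

theorem mem_Q_mk {x y : ℝ} (hx : |x - x₀| < h) (hy : |y| < h) : (x + y * I : ℂ) ∈ Q x₀ h := by
  simp [Q, hx, hy]

theorem Hyp.vert_integrable (H : Hyp F S x₀ h C) {x : ℝ} (hx : |x - x₀| < h) {a b : ℝ}
    (ha : |a| < h) (hb : |b| < h) :
    IntervalIntegrable (fun y : ℝ => F (x + y * I)) volume a b := by
  have hIoc : ∀ y ∈ Ι a b, |y| < h := by
    intro y hy
    have h1 := uIoc_subset_uIcc hy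
    rcases mem_uIcc.1 h1 with h2 | h2
    · rw [abs_lt] at *; constructor <;> linarith [h2.1, h2.2]
    · rw [abs_lt] at *; constructor <;> linarith [h2.1, h2.2]
  refine ((intervalIntegrable_abs_rpow a b).const_mul C).mono_fun' ?_ ?_
  · have hcont : ContinuousOn (fun y : ℝ => F (x + y * I)) (Ι a b \ {0}) := by
      apply H.diff.continuousOn.comp (by fun_prop)
      intro y hy
      refine ⟨mem_Q_mk hx (hIoc y hy.1), ?_⟩
      intro hS
      apply hy.2
      simpa [Sg] using hS.1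
    have h1 : AEStronglyMeasurable (fun y : ℝ => F (x + y * I)) (volume.restrict (Ι a b \ {0})) :=
      hcont.aestronglyMeasurable (measurableSet_uIoc.diff (measurableSet_singleton 0))
    have h2 : (volume.restrict (Ι a b \ {0} : Set ℝ)) = volume.restrict (Ι a b) := by
      apply Measure.restrict_congr_set
      exact sdiff_null_ae_eq_self (by simp)
    rwa [h2] at h1
  · have h3 : ∀ᵐ y ∂(volume.restrict (Ι a b)), y ≠ 0 := by
      have : ∀ᵐ y : ℝ ∂volume, y ≠ 0 := by
        rw [ae_iff]; simp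
      exact ae_restrict_of_ae this
    filter_upwards [h3, ae_restrict_mem measurableSet_uIoc] with y hy0 hy
    have := H.bound (x + y * I) (mem_Q_mk hx (hIoc y hy)) (by simpa using hy0)
    simpa using this

theorem Hyp.vert_bound_pos (H : Hyp F S x₀ h C) {x : ℝ} (hx : |x - x₀| < h) {d : ℝ}
    (hd : 0 ≤ d) (hd' : d < h) :
    ‖∫ y in (0 : ℝ)..d, F (x + y * I)‖ ≤ 2 * C * Real.sqrt d := by
  have h1 : ‖∫ y in (0 : ℝ)..d, F (x + y * I)‖ ≤ ∫ y in (0 : ℝ)..d, C * |y| ^ (-(1 / 2) : ℝ) := by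
    apply intervalIntegral.norm_integral_le_of_norm_le hd
    · refine Eventually.of_forall (fun y hy => ?_)
      have := H.bound (x + y * I) (mem_Q_mk hx (by rw [abs_of_pos hy.1]; linarith [hy.2]))
        (by simpa using hy.1.ne')
      simpa using this
    · exact (intervalIntegrable_abs_rpow 0 d).const_mul C
  rw [intervalIntegral.integral_const_mul, integral_abs_rpow hd] at h1
  linarith

theorem Hyp.vert_bound_neg (H : Hyp F S x₀ h C) {x : ℝ} (hx : |x - x₀| < h) {d : ℝ}
    (hd : 0 ≤ d) (hd' : d < h) :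
    ‖∫ y in (-d)..(0 : ℝ), F (x + y * I)‖ ≤ 2 * C * Real.sqrt d := by
  have h1 : ‖∫ y in (-d)..(0 : ℝ), F (x + y * I)‖ ≤ ∫ y in (-d)..(0 : ℝ), C * |y| ^ (-(1 / 2) : ℝ) := by
    apply intervalIntegral.norm_integral_le_of_norm_le (by linarith)
    · have h3 : ∀ᵐ y : ℝ ∂volume, y ≠ 0 := by
        rw [ae_iff]; simp
      filter_upwards [h3] with y hy0 hy
      have := H.bound (x + y * I) (mem_Q_mk hx (by rw [abs_lt]; constructor <;> linarith [hy.1, hy.2]))
        (by simpa using hy0)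
      simpa using this
    · exact (intervalIntegrable_abs_rpow (-d) 0).const_mul C
  have h2 : ∫ y in (-d)..(0 : ℝ), |y| ^ (-(1 / 2) : ℝ) = ∫ y in (0 : ℝ)..d, |y| ^ (-(1 / 2) : ℝ) := by
    have := intervalIntegral.integral_comp_neg (a := 0) (b := d) (fun y : ℝ => |y| ^ (-(1 / 2) : ℝ))
    simp only [abs_neg, neg_zero] at this
    exact this.symm
  rw [intervalIntegral.integral_const_mul, h2, integral_abs_rpow hd] at h1
  linarith

/-- horizontal integral bound -/
theorem Hyp.horiz_bound (H : Hyp F S x₀ h C) {x x' y : ℝ} (hx : |x - x₀| < h) (hx' : |x' - x₀| < h)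
    (hy0 : y ≠ 0) (hy : |y| < h) :
    ‖∫ t in x..x', F (t + y * I)‖ ≤ C * |y| ^ (-(1 / 2) : ℝ) * |x' - x| := by
  apply intervalIntegral.norm_integral_le_of_norm_le_const
  intro t ht
  have h1 := uIoc_subset_uIcc ht
  have ht' : |t - x₀| < h := by
    rcases mem_uIcc.1 h1 with h2 | h2
    · rw [abs_lt] at *; constructor <;> linarith [h2.1, h2.2]
    · rw [abs_lt] at *; constructor <;> linarith [h2.1, h2.2]
  have := H.bound (t + y * I) (mem_Q_mk ht' hy) (by simpa using hy0)
  simpa using this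

/-- Cauchy's theorem for rectangles avoiding the singular set -/
theorem Hyp.rect (H : Hyp F S x₀ h C) {x x' a b : ℝ} (hx : |x - x₀| < h) (hx' : |x' - x₀| < h)
    (ha : |a| < h) (hb : |b| < h)
    (hav : (∀ y ∈ [[a, b]], y ≠ 0) ∨ (∀ t ∈ [[x, x']], t ∉ S)) :
    (∫ t in x..x', F (t + a * I)) - (∫ t in x..x', F (t + b * I)) +
      I * (∫ y in a..b, F (x' + y * I)) - I * (∫ y in a..b, F (x + y * I)) = 0 := by
  have h1 := integral_boundary_rect_eq_zero_of_differentiableOn F (x + a * I) (x' + b * I) (by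
    apply H.diff.mono
    intro z hz
    simp only [add_re, ofReal_re, mul_re, I_re, mul_zero, ofReal_im, I_im, mul_one, sub_self,
      add_zero, add_im, mul_im, zero_add] at hz
    rw [mem_reProdIm] at hz
    refine ⟨⟨?_, ?_⟩, ?_⟩
    · rcases mem_uIcc.1 hz.1 with h2 | h2
      · rw [abs_lt] at *; constructor <;> linarith [h2.1, h2.2]
      · rw [abs_lt] at *; constructor <;> linarith [h2.1, h2.2]
    · rcases mem_uIcc.1 hz.2 with h2 | h2
      · rw [abs_lt] at *; constructor <;> linarith [h2.1, h2.2]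
      · rw [abs_lt] at *; constructor <;> linarith [h2.1, h2.2]
    · rintro ⟨hz1, hz2⟩
      rcases hav with h3 | h3
      · exact h3 _ hz.2 hz1
      · exact h3 _ hz.1 hz2)
  simpa using h1

theorem abs_lt_of_mem_uIcc {x x' t x₀ h : ℝ} (hx : |x - x₀| < h) (hx' : |x' - x₀| < h)
    (ht : t ∈ [[x, x']]) : |t - x₀| < h := by
  rcases mem_uIcc.1 ht with h2 | h2
  · rw [abs_lt] at *; constructor <;> linarith [h2.1, h2.2]
  · rw [abs_lt] at *; constructor <;> linarith [h2.1, h2.2]

theorem Hyp.horiz_integrable (H : Hyp F S x₀ h C) {x x' y : ℝ} (hx : |x - x₀| < h)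
    (hx' : |x' - x₀| < h) (hy0 : y ≠ 0) (hy : |y| < h) :
    IntervalIntegrable (fun t : ℝ => F (t + y * I)) volume x x' := by
  apply ContinuousOn.intervalIntegrable
  apply H.diff.continuousOn.comp (by fun_prop)
  intro t ht
  refine ⟨mem_Q_mk (abs_lt_of_mem_uIcc hx hx' ht) hy, ?_⟩
  intro hS
  apply hy0
  simpa [Sg] using hS.1

/-- the jump across the real line -/
noncomputable def jump (F : ℂ → ℂ) (x₀ η x : ℝ) : ℂ :=
  (∫ t in x₀..x, F (t + ((-η : ℝ) : ℂ) * I)) - (∫ t in x₀..x, F (t + (η : ℂ) * I)) +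
    I * (∫ y in (-η)..η, F (x + y * I))

theorem Hyp.jump_sub (H : Hyp F S x₀ h C) {x x' d η : ℝ} (hx : |x - x₀| < h)
    (hx' : |x' - x₀| < h) (hd : 0 < d) (hdη : d ≤ η) (hη : η < h) :
    jump F x₀ η x' - jump F x₀ η x = (∫ t in x..x', F (t + ((-d : ℝ) : ℂ) * I)) -
      (∫ t in x..x', F (t + (d : ℂ) * I)) + I * (∫ y in (-d)..d, F (x' + y * I)) -
      I * (∫ y in (-d)..d, F (x + y * I)) := by
  have hx0 : |x₀ - x₀| < h := by simpa using H.h_pos
  have hη0 : 0 < η := lt_of_lt_of_le hd hdη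
  have e1 : |d| < h := by rw [abs_of_pos hd]; linarith
  have e2 : |-d| < h := by rw [abs_neg]; exact e1
  have e3 : |η| < h := by rw [abs_of_pos hη0]; exact hη
  have e4 : |-η| < h := by rw [abs_neg]; exact e3
  have r1 := H.rect hx hx' e1 e3 (Or.inl (fun y hy => by
    rw [uIcc_of_le hdη] at hy; linarith [hy.1]))
  have r2 := H.rect hx hx' e4 e2 (Or.inl (fun y hy => by
    rw [uIcc_of_le (by linarith : -η ≤ -d)] at hy; linarith [hy.2]))
  have a1 : (∫ t in x₀..x', F (t + ((-η : ℝ) : ℂ) * I)) = (∫ t in x₀..x, F (t + ((-η : ℝ) : ℂ) * I)) +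
      (∫ t in x..x', F (t + ((-η : ℝ) : ℂ) * I)) :=
    (intervalIntegral.integral_add_adjacent_intervals
      (H.horiz_integrable hx0 hx (by linarith) e4) (H.horiz_integrable hx hx' (by linarith) e4)).symm
  have a2 : (∫ t in x₀..x', F (t + (η : ℂ) * I)) = (∫ t in x₀..x, F (t + (η : ℂ) * I)) +
      (∫ t in x..x', F (t + (η : ℂ) * I)) :=
    (intervalIntegral.integral_add_adjacent_intervals
      (H.horiz_integrable hx0 hx (by linarith) e3) (H.horiz_integrable hx hx' (by linarith) e3)).symm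
  have v : ∀ u : ℝ, |u - x₀| < h → (∫ y in (-η)..η, F (u + y * I)) =
      (∫ y in (-η)..(-d), F (u + y * I)) + (∫ y in (-d)..d, F (u + y * I)) +
        (∫ y in d..η, F (u + y * I)) := by
    intro u hu
    rw [intervalIntegral.integral_add_adjacent_intervals (H.vert_integrable hu e4 e2)
      (H.vert_integrable hu e2 e1),
      intervalIntegral.integral_add_adjacent_intervals (H.vert_integrable hu e4 e1)
      (H.vert_integrable hu e1 e3)]
  have v1 := v x hx
  have v2 := v x' hx'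
  unfold jump
  rw [a1, a2, v1, v2]
  linear_combination r1 + r2

theorem rpow_mul_self {d : ℝ} (hd : 0 < d) : d ^ (-(1 / 2) : ℝ) * d = Real.sqrt d := by
  rw [Real.sqrt_eq_rpow]
  nth_rewrite 2 [← Real.rpow_one d]
  rw [← Real.rpow_add hd]
  norm_num

theorem Hyp.vert_bound_sym (H : Hyp F S x₀ h C) {x : ℝ} (hx : |x - x₀| < h) {d : ℝ}
    (hd : 0 ≤ d) (hd' : d < h) :
    ‖∫ y in (-d)..d, F (x + y * I)‖ ≤ 4 * C * Real.sqrt d := by
  have e0 : |(0 : ℝ)| < h := by simpa using H.h_pos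
  have e1 : |d| < h := by rwa [abs_of_nonneg hd]
  have e2 : |-d| < h := by rwa [abs_neg]
  rw [← intervalIntegral.integral_add_adjacent_intervals (H.vert_integrable hx e2 e0)
      (H.vert_integrable hx e0 e1)]
  refine (norm_add_le _ _).trans ?_
  have h1 := H.vert_bound_pos hx hd hd'
  have h2 := H.vert_bound_neg hx hd hd'
  linarith

theorem Hyp.jump_holder (H : Hyp F S x₀ h C) {x x' η : ℝ} (hx : |x - x₀| < h)
    (hx' : |x' - x₀| < h) (hη : η < h) (hxx' : |x' - x| ≤ η) :
    ‖jump F x₀ η x' - jump F x₀ η x‖ ≤ 10 * C * Real.sqrt |x' - x| := by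
  rcases eq_or_ne x' x with rfl | hne
  · simp
  have hd : 0 < |x' - x| := abs_pos.2 (sub_ne_zero.2 hne)
  set d := |x' - x| with hdd
  have hdh : d < h := lt_of_le_of_lt hxx' hη
  have e1 : |d| < h := by rwa [abs_of_pos hd]
  have e2 : |-d| < h := by rwa [abs_neg]
  rw [H.jump_sub hx hx' hd hxx' hη]
  have b1 := H.horiz_bound hx hx' (y := -d) (by linarith) e2
  have b2 := H.horiz_bound hx hx' (y := d) hd.ne' e1
  rw [abs_neg, abs_of_pos hd] at b1
  rw [abs_of_pos hd] at b2
  rw [← hdd, mul_assoc, rpow_mul_self hd] at b1 b2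
  have b3 := H.vert_bound_sym hx hd.le hdh
  have b4 := H.vert_bound_sym hx' hd.le hdh
  refine (norm_sub_le _ _).trans ?_
  refine (add_le_add ((norm_add_le _ _).trans (add_le_add (norm_sub_le _ _) le_rfl)) le_rfl).trans ?_
  rw [norm_mul, norm_mul, norm_I, one_mul, one_mul]
  linarith

theorem Hyp.jump_loc (H : Hyp F S x₀ h C) {x η : ℝ} (hx : |x - x₀| < h) (hη0 : 0 < η)
    (hη : η < h) (hxS : x ∉ S) :
    ∃ r > 0, ∀ x' : ℝ, |x' - x₀| < h → |x' - x| < r → jump F x₀ η x' = jump F x₀ η x := by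
  obtain ⟨r, hr, hball⟩ := Metric.isOpen_iff.1 H.closed.isOpen_compl x hxS
  refine ⟨r, hr, fun x' hx' hr' => ?_⟩
  have e3 : |η| < h := by rw [abs_of_pos hη0]; exact hη
  have e4 : |-η| < h := by rw [abs_neg]; exact e3
  have hx0 : |x₀ - x₀| < h := by simpa using H.h_pos
  have r1 := H.rect hx hx' e4 e3 (Or.inr (fun t ht => by
    apply hball
    rw [mem_ball, Real.dist_eq]
    exact abs_lt_of_mem_uIcc (by simpa using hr) hr' ht))
  have a1 : (∫ t in x₀..x', F (t + ((-η : ℝ) : ℂ) * I)) = (∫ t in x₀..x, F (t + ((-η : ℝ) : ℂ) * I)) +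
      (∫ t in x..x', F (t + ((-η : ℝ) : ℂ) * I)) :=
    (intervalIntegral.integral_add_adjacent_intervals
      (H.horiz_integrable hx0 hx (by linarith) e4) (H.horiz_integrable hx hx' (by linarith) e4)).symm
  have a2 : (∫ t in x₀..x', F (t + (η : ℂ) * I)) = (∫ t in x₀..x, F (t + (η : ℂ) * I)) +
      (∫ t in x..x', F (t + (η : ℂ) * I)) :=
    (intervalIntegral.integral_add_adjacent_intervals
      (H.horiz_integrable hx0 hx (by linarith) e3) (H.horiz_integrable hx hx' (by linarith) e3)).symm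
  unfold jump
  rw [a1, a2]
  linear_combination r1

theorem Hyp.jump_const (H : Hyp F S x₀ h C) {x : ℝ} (hx : |x - x₀| < h / 4) :
    jump F x₀ (h / 2) x = jump F x₀ (h / 2) x₀ := by
  have hpos := H.h_pos
  have hC := H.C_nonneg
  have hmem : ∀ y ∈ Ioo (x₀ - h / 4) (x₀ + h / 4), |y - x₀| < h := by
    intro y hy
    rw [abs_lt]; constructor <;> linarith [hy.1, hy.2]
  apply const_of_holder_half (A := x₀ - h / 4) (B := x₀ + h / 4) (K := Real.toNNReal (10 * C)) (S := S)
  · intro y hy y' hy'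
    have hb : ‖jump F x₀ (h / 2) y - jump F x₀ (h / 2) y'‖ ≤ 10 * C * Real.sqrt |y - y'| := by
      apply H.jump_holder (hmem y' hy') (hmem y hy) (by linarith)
      rw [abs_le]; constructor <;> linarith [hy.1, hy.2, hy'.1, hy'.2]
    rw [edist_dist, edist_dist, dist_eq_norm, Real.dist_eq]
    have e : (((1 / 2 : ℝ≥0)) : ℝ) = 1 / 2 := by norm_num
    rw [e, ENNReal.ofReal_rpow_of_nonneg (abs_nonneg _) (by norm_num), ← Real.sqrt_eq_rpow]
    have e2 : ((Real.toNNReal (10 * C) : ℝ≥0) : ℝ≥0∞) = ENNReal.ofReal (10 * C) := rfl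
    rw [e2, ← ENNReal.ofReal_mul (by positivity)]
    exact ENNReal.ofReal_le_ofReal hb
  · exact measure_mono_null inter_subset_left H.null
  · intro y hy hyS
    obtain ⟨r, hr, hr'⟩ := H.jump_loc (hmem y hy) (η := h / 2) (by linarith) (by linarith) hyS
    exact ⟨r, hr, fun y' hy' hyy' => hr' y' (hmem y' hy') hyy'⟩
  · rw [abs_lt] at hx; constructor <;> linarith [hx.1, hx.2]
  · constructor <;> linarith

/-- the primitive -/
noncomputable def prim (F : ℂ → ℂ) (x₀ η : ℝ) (z : ℂ) : ℂ :=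
  (∫ t in x₀..z.re, F (t + (η : ℂ) * I)) + I * (∫ y in η..z.im, F (z.re + y * I))

theorem Hyp.prim_sub_pos (H : Hyp F S x₀ h C) {z w : ℂ} (hz : |z.re - x₀| < h) (hw : |w.re - x₀| < h)
    (hz1 : 0 < z.im) (hz2 : z.im < h) (hw1 : |w.im| < h) :
    prim F x₀ (h / 2) w - prim F x₀ (h / 2) z = wedgeIntegral z w F := by
  have hpos := H.h_pos
  have hx0 : |x₀ - x₀| < h := by simpa using H.h_pos
  have e3 : |h / 2| < h := by rw [abs_of_pos (by linarith)]; linarith
  have ez : |z.im| < h := by rwa [abs_of_pos hz1]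
  have r1 := H.rect hz hw ez e3 (Or.inl (fun y hy => by
    rcases mem_uIcc.1 hy with h2 | h2 <;> linarith [h2.1, h2.2]))
  have a2 : (∫ t in x₀..w.re, F (t + ((h / 2 : ℝ) : ℂ) * I)) = (∫ t in x₀..z.re, F (t + ((h / 2 : ℝ) : ℂ) * I)) +
      (∫ t in z.re..w.re, F (t + ((h / 2 : ℝ) : ℂ) * I)) :=
    (intervalIntegral.integral_add_adjacent_intervals
      (H.horiz_integrable hx0 hz (by linarith) e3) (H.horiz_integrable hz hw (by linarith) e3)).symm
  have v1 : (∫ y in (h / 2)..w.im, F (w.re + y * I)) = (∫ y in (h / 2)..z.im, F (w.re + y * I)) +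
      (∫ y in z.im..w.im, F (w.re + y * I)) :=
    (intervalIntegral.integral_add_adjacent_intervals (H.vert_integrable hw e3 ez)
      (H.vert_integrable hw ez hw1)).symm
  have s1 : ∀ u : ℝ, (∫ y in (h / 2)..z.im, F (u + y * I)) = - ∫ y in z.im..(h / 2), F (u + y * I) :=
    fun u => intervalIntegral.integral_symm _ _
  unfold prim wedgeIntegral
  rw [a2, v1, s1 w.re, s1 z.re, smul_eq_mul]
  linear_combination -r1

theorem Hyp.prim_sub_neg (H : Hyp F S x₀ h C) {z w : ℂ} (hz : |z.re - x₀| < h / 4)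
    (hw : |w.re - x₀| < h / 4) (hz1 : z.im < 0) (hz2 : -h < z.im) (hw1 : |w.im| < h) :
    prim F x₀ (h / 2) w - prim F x₀ (h / 2) z = wedgeIntegral z w F := by
  have hpos := H.h_pos
  have hz' : |z.re - x₀| < h := by linarith
  have hw' : |w.re - x₀| < h := by linarith
  have hx0 : |x₀ - x₀| < h := by simpa using H.h_pos
  have e3 : |h / 2| < h := by rw [abs_of_pos (by linarith)]; linarith
  have e4 : |-(h / 2)| < h := by rw [abs_neg]; exact e3
  have ez : |z.im| < h := by rw [abs_of_neg hz1]; linarith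
  have jz := H.jump_const hz
  have jw := H.jump_const hw
  have r1 := H.rect hz' hw' ez e4 (Or.inl (fun y hy => by
    rcases mem_uIcc.1 hy with h2 | h2 <;> linarith [h2.1, h2.2]))
  have a2 : (∫ t in x₀..w.re, F (t + ((-(h / 2) : ℝ) : ℂ) * I)) = (∫ t in x₀..z.re, F (t + ((-(h / 2) : ℝ) : ℂ) * I)) +
      (∫ t in z.re..w.re, F (t + ((-(h / 2) : ℝ) : ℂ) * I)) :=
    (intervalIntegral.integral_add_adjacent_intervals
      (H.horiz_integrable hx0 hz' (by linarith) e4) (H.horiz_integrable hz' hw' (by linarith) e4)).symm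
  have v1 : ∀ u v : ℝ, |u - x₀| < h → |v| < h → (∫ y in (h / 2)..v, F (u + y * I)) =
      (∫ y in (-(h / 2))..v, F (u + y * I)) - (∫ y in (-(h / 2))..(h / 2), F (u + y * I)) := by
    intro u v hu hv
    rw [← intervalIntegral.integral_add_adjacent_intervals (H.vert_integrable hu e4 e3)
      (H.vert_integrable hu e3 hv)]
    ring
  have v2 : (∫ y in (-(h / 2))..w.im, F (w.re + y * I)) = (∫ y in (-(h / 2))..z.im, F (w.re + y * I)) +
      (∫ y in z.im..w.im, F (w.re + y * I)) :=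
    (intervalIntegral.integral_add_adjacent_intervals (H.vert_integrable hw' e4 ez)
      (H.vert_integrable hw' ez hw1)).symm
  have s1 : ∀ u : ℝ, (∫ y in z.im..(-(h / 2)), F (u + y * I)) = - ∫ y in (-(h / 2))..z.im, F (u + y * I) :=
    fun u => intervalIntegral.integral_symm _ _
  rw [s1, s1] at r1
  unfold jump at jz jw
  unfold prim wedgeIntegral
  rw [v1 w.re w.im hw' hw1, v1 z.re z.im hz' ez, smul_eq_mul, v2]
  rw [a2] at jw
  linear_combination jz - jw - r1

theorem Hyp.prim_real (H : Hyp F S x₀ h C) {x₁ : ℝ} (hx₁ : |x₁ - x₀| < h / 4) {w : ℂ}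
    (hw : |w.re - x₀| < h / 4) (hw1 : |w.im| < h / 4) :
    ‖prim F x₀ (h / 2) w - prim F x₀ (h / 2) x₁‖ ≤
      2 * C * Real.sqrt |w.im| + 5 * C * Real.sqrt |w.re - x₁| := by
  have hpos := H.h_pos
  have hC := H.C_nonneg
  have hx' : |x₁ - x₀| < h := by linarith
  have hw' : |w.re - x₀| < h := by linarith
  have hw2 : |w.im| < h := by linarith
  have hx0 : |x₀ - x₀| < h := by simpa using H.h_pos
  have e3 : |h / 2| < h := by rw [abs_of_pos (by linarith)]; linarith
  have e0 : |(0 : ℝ)| < h := by simpa using H.h_pos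
  -- vertical part
  have hv : ‖∫ y in (0 : ℝ)..w.im, F (w.re + y * I)‖ ≤ 2 * C * Real.sqrt |w.im| := by
    rcases le_total 0 w.im with h0 | h0
    · rw [abs_of_nonneg h0]
      exact H.vert_bound_pos hw' h0 (by rwa [abs_of_nonneg h0] at hw2)
    · rw [abs_of_nonpos h0]
      have h1 := H.vert_bound_neg hw' (d := -w.im) (by linarith) (by rwa [abs_of_nonpos h0] at hw2)
      rw [neg_neg] at h1
      rw [intervalIntegral.integral_symm, norm_neg]
      exact h1
  have a2 : (∫ t in x₀..w.re, F (t + ((h / 2 : ℝ) : ℂ) * I)) = (∫ t in x₀..x₁, F (t + ((h / 2 : ℝ) : ℂ) * I)) +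
      (∫ t in x₁..w.re, F (t + ((h / 2 : ℝ) : ℂ) * I)) :=
    (intervalIntegral.integral_add_adjacent_intervals
      (H.horiz_integrable hx0 hx' (by linarith) e3) (H.horiz_integrable hx' hw' (by linarith) e3)).symm
  have v1 : ∀ u v : ℝ, |u - x₀| < h → |v| < h → (∫ y in (h / 2)..v, F (u + y * I)) =
      (∫ y in (0 : ℝ)..v, F (u + y * I)) - (∫ y in (0 : ℝ)..(h / 2), F (u + y * I)) := by
    intro u v hu hv
    rw [← intervalIntegral.integral_add_adjacent_intervals (H.vert_integrable hu e0 e3)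
      (H.vert_integrable hu e3 hv)]
    ring
  have key : prim F x₀ (h / 2) w - prim F x₀ (h / 2) x₁ = I * (∫ y in (0 : ℝ)..w.im, F (w.re + y * I)) +
      ((∫ t in x₁..w.re, F (t + ((h / 2 : ℝ) : ℂ) * I)) - I * (∫ y in (0 : ℝ)..(h / 2), F (w.re + y * I)) +
        I * (∫ y in (0 : ℝ)..(h / 2), F (x₁ + y * I))) := by
    unfold prim
    rw [ofReal_re, ofReal_im, a2, v1 w.re w.im hw' hw2, v1 x₁ 0 hx' e0, intervalIntegral.integral_same]
    ring
  rw [key]
  refine (norm_add_le _ _).trans (add_le_add ?_ ?_)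
  · rw [norm_mul, norm_I, one_mul]; exact hv
  · rcases eq_or_ne w.re x₁ with heq | hne
    · rw [heq]; simp
    have hd : 0 < |w.re - x₁| := abs_pos.2 (sub_ne_zero.2 hne)
    set d := |w.re - x₁| with hdd
    have hdh : d < h / 2 := by
      rw [hdd]
      have : w.re - x₁ = (w.re - x₀) - (x₁ - x₀) := by ring
      rw [this]
      exact lt_of_le_of_lt (abs_sub _ _) (by linarith)
    have ed : |d| < h := by rw [abs_of_pos hd]; linarith
    have r1 := H.rect hx' hw' ed e3 (Or.inl (fun y hy => by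
      rw [uIcc_of_le hdh.le] at hy; linarith [hy.1]))
    have s1 : ∀ u : ℝ, |u - x₀| < h → (∫ y in (0 : ℝ)..(h / 2), F (u + y * I)) =
        (∫ y in (0 : ℝ)..d, F (u + y * I)) + (∫ y in d..(h / 2), F (u + y * I)) := fun u hu =>
      (intervalIntegral.integral_add_adjacent_intervals (H.vert_integrable hu e0 ed)
        (H.vert_integrable hu ed e3)).symm
    have e : (∫ t in x₁..w.re, F (t + ((h / 2 : ℝ) : ℂ) * I)) - I * (∫ y in (0 : ℝ)..(h / 2), F (w.re + y * I)) +
        I * (∫ y in (0 : ℝ)..(h / 2), F (x₁ + y * I)) = (∫ t in x₁..w.re, F (t + (d : ℂ) * I)) -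
        I * (∫ y in (0 : ℝ)..d, F (w.re + y * I)) + I * (∫ y in (0 : ℝ)..d, F (x₁ + y * I)) := by
      rw [s1 w.re hw', s1 x₁ hx']
      linear_combination -r1
    rw [e]
    have b2 := H.horiz_bound hx' hw' (y := d) hd.ne' ed
    rw [abs_of_pos hd, ← hdd, mul_assoc, rpow_mul_self hd] at b2
    have b3 := H.vert_bound_pos hx' hd.le (by linarith)
    have b4 := H.vert_bound_pos hw' hd.le (by linarith)
    refine (norm_add_le _ _).trans ?_
    refine (add_le_add (norm_sub_le _ _) le_rfl).trans ?_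
    rw [norm_mul, norm_mul, norm_I, one_mul, one_mul]
    linarith

theorem Hyp.hasDerivAt_prim (H : Hyp F S x₀ h C) {z : ℂ} (hz : z ∈ Q x₀ (h / 4)) (hz0 : z.im ≠ 0) :
    HasDerivAt (prim F x₀ (h / 2)) (F z) z := by
  have hpos := H.h_pos
  have hopen : IsOpen (Q x₀ (h / 4) ∩ {w : ℂ | w.im ≠ 0}) :=
    (isOpen_Q _ _).inter (isOpen_ne_fun continuous_im continuous_const)
  obtain ⟨r, hr, hball⟩ := Metric.isOpen_iff.1 hopen z ⟨hz, hz0⟩
  have hdiff : DifferentiableOn ℂ F (ball z r) := by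
    apply H.diff.mono
    intro w hw
    have := hball hw
    refine ⟨⟨lt_of_lt_of_le this.1.1 (by linarith), lt_of_lt_of_le this.1.2 (by linarith)⟩, ?_⟩
    intro hS
    exact this.2 hS.1
  have h1 : HasDerivAt (fun w => wedgeIntegral z w F) (F z) z :=
    hdiff.isConservativeOn.hasDerivAt_wedgeIntegral hdiff.continuousOn (mem_ball_self hr)
  have h2 : HasDerivAt (fun w => prim F x₀ (h / 2) z + wedgeIntegral z w F) (F z) z :=
    h1.const_add _
  apply h2.congr_of_eventuallyEq
  filter_upwards [ball_mem_nhds z hr] with w hw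
  have hwQ := (hball hw).1
  have hw1 : |w.im| < h := lt_of_lt_of_le hwQ.2 (by linarith)
  have hz1 : |z.im| < h := lt_of_lt_of_le hz.2 (by linarith)
  rcases lt_or_gt_of_ne hz0 with hneg | hp
  · have := H.prim_sub_neg hz.1 hwQ.1 hneg (abs_lt.1 hz1).1 hw1
    rw [← this]; ring
  · have := H.prim_sub_pos (lt_of_lt_of_le hz.1 (by linarith)) (lt_of_lt_of_le hwQ.1 (by linarith))
      hp (abs_lt.1 hz1).2 hw1
    rw [← this]; ring

theorem Hyp.continuousOn_prim (H : Hyp F S x₀ h C) : ContinuousOn (prim F x₀ (h / 2)) (Q x₀ (h / 4)) := by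
  have hpos := H.h_pos
  have hC := H.C_nonneg
  intro z hz
  by_cases hz0 : z.im = 0
  · have hzr : z = (z.re : ℂ) := Complex.ext (by simp) (by simp [hz0])
    have hlim : Tendsto (fun w : ℂ => 2 * C * Real.sqrt |w.im| + 5 * C * Real.sqrt |w.re - z.re|)
        (𝓝 z) (𝓝 0) := by
      have hc : Continuous (fun w : ℂ => 2 * C * Real.sqrt |w.im| + 5 * C * Real.sqrt |w.re - z.re|) := by
        fun_prop
      have := hc.tendsto z
      simpa [hz0] using this
    apply ContinuousAt.continuousWithinAt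
    rw [ContinuousAt, tendsto_iff_norm_sub_tendsto_zero]
    apply squeeze_zero' (Eventually.of_forall (fun _ => norm_nonneg _)) _ hlim
    filter_upwards [(isOpen_Q x₀ (h / 4)).mem_nhds hz] with w hw
    rw [hzr]
    have := H.prim_real (x₁ := z.re) hz.1 hw.1 hw.2
    simpa using this
  · exact (H.hasDerivAt_prim hz hz0).continuousAt.continuousWithinAt

/-- continuous and holomorphic off the real axis implies holomorphic -/
theorem differentiableOn_of_real_axis {G : ℂ → ℂ} {U : Set ℂ} (hU : IsOpen U)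
    (hc : ContinuousOn G U) (hd : ∀ z ∈ U, z.im ≠ 0 → DifferentiableAt ℂ G z) :
    DifferentiableOn ℂ G U := by
  rw [← isConservativeOn_and_continuousOn_iff_isDifferentiableOn hU]
  refine ⟨?_, hc⟩
  -- rectangles with one horizontal side on a given side of the axis
  have key : ∀ z w : ℂ, Rectangle z w ⊆ U → (0 ≤ z.im ∧ 0 ≤ w.im ∨ z.im ≤ 0 ∧ w.im ≤ 0) →
      wedgeIntegral z w G = - wedgeIntegral w z G := by
    intro z w hzw hs
    rw [← add_eq_zero_iff_eq_neg, wedgeIntegral_add_wedgeIntegral_eq]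
    apply integral_boundary_rect_eq_zero_of_continuousOn_of_differentiableOn
    · exact hc.mono hzw
    · intro x hx
      apply DifferentiableAt.differentiableWithinAt
      rw [mem_reProdIm] at hx
      apply hd
      · apply hzw
        rw [Rectangle, mem_reProdIm]
        exact ⟨Ioo_subset_Icc_self hx.1, Ioo_subset_Icc_self hx.2⟩
      · rcases hs with hs | hs
        · have := lt_of_le_of_lt (le_min hs.1 hs.2) hx.2.1
          exact this.ne'
        · have := lt_of_lt_of_le hx.2.2 (max_le hs.1 hs.2)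
          exact this.ne
  intro z w hzw
  by_cases hs : 0 ≤ z.im ∧ 0 ≤ w.im ∨ z.im ≤ 0 ∧ w.im ≤ 0
  · exact key z w hzw hs
  · -- split at the real axis
    have hmem : (0 : ℝ) ∈ [[z.im, w.im]] := by
      rw [mem_uIcc]
      push Not at hs
      rcases le_total 0 z.im with h0 | h0
      · right; exact ⟨(hs.1 h0).le, h0⟩
      · left
        by_contra hcon
        push Not at hcon
        exact absurd (hs.2 h0) (not_lt.2 (hcon h0).le)
    have hsub1 : Rectangle z (w.re + (0 : ℝ) * I) ⊆ U := by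
      refine Subset.trans ?_ hzw
      intro x hx
      rw [Rectangle, mem_reProdIm] at hx ⊢
      simp only [add_re, ofReal_re, mul_re, I_re, mul_zero, ofReal_im, I_im, mul_one, sub_self,
        add_zero, add_im, mul_im, zero_add] at hx
      exact ⟨hx.1, uIcc_subset_uIcc left_mem_uIcc hmem hx.2⟩
    have hsub2 : Rectangle (z.re + (0 : ℝ) * I) w ⊆ U := by
      refine Subset.trans ?_ hzw
      intro x hx
      rw [Rectangle, mem_reProdIm] at hx ⊢
      simp only [add_re, ofReal_re, mul_re, I_re, mul_zero, ofReal_im, I_im, mul_one, sub_self,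
        add_zero, add_im, mul_im, zero_add] at hx
      exact ⟨hx.1, uIcc_subset_uIcc hmem right_mem_uIcc hx.2⟩
    have k1 := key z (w.re + (0 : ℝ) * I) hsub1 (by
      simp only [add_im, ofReal_im, mul_im, ofReal_re, I_im, mul_one, I_re, mul_zero, add_zero, zero_add]
      rcases le_total 0 z.im with h0 | h0
      · left; exact ⟨h0, le_refl _⟩
      · right; exact ⟨h0, le_refl _⟩)
    have k2 := key (z.re + (0 : ℝ) * I) w hsub2 (by
      simp only [add_im, ofReal_im, mul_im, ofReal_re, I_im, mul_one, I_re, mul_zero, add_zero, zero_add]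
      rcases le_total 0 w.im with h0 | h0
      · left; exact ⟨le_refl _, h0⟩
      · right; exact ⟨le_refl _, h0⟩)
    rw [← add_eq_zero_iff_eq_neg, wedgeIntegral_add_wedgeIntegral_eq] at k1 k2 ⊢
    simp only [add_re, ofReal_re, mul_re, I_re, mul_zero, ofReal_im, I_im, mul_one, sub_self,
      add_zero, add_im, mul_im, zero_add] at k1 k2
    -- additivity of vertical integrals
    have hvert : ∀ u : ℝ, u ∈ [[z.re, w.re]] → ∀ a b : ℝ, a ∈ [[z.im, w.im]] → b ∈ [[z.im, w.im]] →
        IntervalIntegrable (fun y : ℝ => G (u + y * I)) volume a b := by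
      intro u hu a b ha hb
      apply ContinuousOn.intervalIntegrable
      apply hc.comp (by fun_prop)
      intro y hy
      apply hzw
      rw [Rectangle, mem_reProdIm]
      simp only [add_re, ofReal_re, mul_re, I_re, mul_zero, ofReal_im, I_im, mul_one, sub_self,
        add_zero, add_im, mul_im, zero_add]
      exact ⟨hu, uIcc_subset_uIcc ha hb hy⟩
    have v1 := intervalIntegral.integral_add_adjacent_intervals
      (hvert w.re right_mem_uIcc _ _ left_mem_uIcc hmem) (hvert w.re right_mem_uIcc _ _ hmem right_mem_uIcc)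
    have v2 := intervalIntegral.integral_add_adjacent_intervals
      (hvert z.re left_mem_uIcc _ _ left_mem_uIcc hmem) (hvert z.re left_mem_uIcc _ _ hmem right_mem_uIcc)
    rw [← v1, ← v2]
    simp only [smul_eq_mul] at k1 k2 ⊢
    linear_combination k1 + k2

theorem Hyp.extend (H : Hyp F S x₀ h C) : ∃ G : ℂ → ℂ, DifferentiableOn ℂ G (Q x₀ (h / 4)) ∧
    ∀ z ∈ Q x₀ (h / 4), z ∉ Sg S → G z = F z := by
  have hpos := H.h_pos
  have hW : DifferentiableOn ℂ (prim F x₀ (h / 2)) (Q x₀ (h / 4)) :=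
    differentiableOn_of_real_axis (isOpen_Q _ _) H.continuousOn_prim
      (fun z hz hz0 => (H.hasDerivAt_prim hz hz0).differentiableAt)
  have hG : DifferentiableOn ℂ (deriv (prim F x₀ (h / 2))) (Q x₀ (h / 4)) := hW.deriv (isOpen_Q _ _)
  refine ⟨deriv (prim F x₀ (h / 2)), hG, ?_⟩
  intro z hz hzS
  by_cases hz0 : z.im = 0
  · -- by continuity along `z + i t`
    have hQ : z ∈ Q x₀ h \ Sg S :=
      ⟨⟨lt_of_lt_of_le hz.1 (by linarith), lt_of_lt_of_le hz.2 (by linarith)⟩, hzS⟩
    have hopen : IsOpen (Q x₀ h \ Sg S) := (isOpen_Q _ _).sdiff (isClosed_Sg H.closed)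
    have c1 : ContinuousAt F z := (H.diff.differentiableAt (hopen.mem_nhds hQ)).continuousAt
    have c2 : ContinuousAt (deriv (prim F x₀ (h / 2))) z :=
      (hG.differentiableAt ((isOpen_Q _ _).mem_nhds hz)).continuousAt
    have hpath : Tendsto (fun t : ℝ => z + t * I) (𝓝[>] 0) (𝓝 z) := by
      have : Continuous (fun t : ℝ => z + t * I) := by fun_prop
      have h2 := this.tendsto 0
      simp only [ofReal_zero, zero_mul, add_zero] at h2
      exact h2.mono_left nhdsWithin_le_nhds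
    have l1 := c1.tendsto.comp hpath
    have l2 := c2.tendsto.comp hpath
    refine tendsto_nhds_unique l2 (l1.congr' ?_)
    have hev : ∀ᶠ t : ℝ in 𝓝[>] 0, z + t * I ∈ Q x₀ (h / 4) :=
      hpath.eventually ((isOpen_Q _ _).mem_nhds hz)
    filter_upwards [hev, self_mem_nhdsWithin] with t ht ht0
    have him : (z + t * I).im ≠ 0 := by
      have : (z + t * I).im = t := by simp [hz0]
      rw [this]
      exact (ne_of_gt ht0)
    exact ((H.hasDerivAt_prim ht him).deriv).symm
  · exact (H.hasDerivAt_prim hz hz0).deriv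

end local_setup

end Pool.Agent.LibHelper99.Hardy
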