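import Mathlib
import Pool.Agent.Lib_helper99.Harm
import Pool.Agent.Lib_helper99.Julia
import Pool.Agent.Lib_helper99.Domain
import Pool.Agent.Lib_helper99.Remov

set_option autoImplicit false

namespace Pool.Agent.LibHelper99.Hardy

open Complex InnerProductSpace Metric Set Topology Filter MeasureTheory
open scoped NNReal ENNReal

/-- the principal 172nd root -/
noncomputable def rt (s : ℂ) : ℂ := s ^ (((172 : ℕ) : ℂ)⁻¹)

theorem rt_pow (s : ℂ) : rt s ^ 172 = s := cpow_nat_inv_pow s (by norm_num)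

theorem rt_analytic {s : ℂ} (hs : s ∈ slitPlane) : AnalyticAt ℂ rt s :=
  analyticAt_id.cpow analyticAt_const hs

theorem growth {u : ℂ → ℝ} (hu : ∀ w ∈ D1, HarmonicAt u w) (hpos : ∀ w ∈ D1, 0 ≤ u w) :
    ∃ C : ℝ, 0 ≤ C ∧ ∀ w : ℂ, (w ^ 172).im ≠ 0 →
      u w ≤ C * (1 + ‖w ^ 172‖ ^ 2) ^ 2 / |(w ^ 172).im| := by
  classical
  set Z := Polynomial.nthRootsFinset 172 (1 : ℂ) with hZ
  have hZmem : ∀ ζ : ℂ, ζ ∈ Z ↔ ζ ^ 172 = 1 := fun ζ => Polynomial.mem_nthRootsFinset (by norm_num) 1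
  let up : ℂ → ℂ → ℝ := fun ζ s => u (ζ * rt s)
  let um : ℂ → ℂ → ℝ := fun ζ s => u (ζ * rt (-s))
  have hmemp : ∀ ζ ∈ Z, ∀ s : ℂ, s.im ≠ 0 → ζ * rt s ∈ D1 := by
    intro ζ hζ s hs
    show (ζ * rt s) ^ 172 ∈ D2
    rw [mul_pow, rt_pow, (hZmem ζ).1 hζ, one_mul]
    exact mem_D2_of_im hs
  have hmemm : ∀ ζ ∈ Z, ∀ s : ℂ, s.im ≠ 0 → ζ * rt (-s) ∈ D1 := by
    intro ζ hζ s hs
    exact hmemp ζ hζ (-s) (by simpa using hs)
  have hslit : ∀ s : ℂ, s.im ≠ 0 → s ∈ slitPlane := fun s hs => Or.inr hs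
  have hp1 : ∀ ζ ∈ Z, ∀ s : ℂ, 0 < s.im → HarmonicAt (up ζ) s := by
    intro ζ hζ s hs
    apply harmonicAt_comp (φ := fun s => ζ * rt s) (hu _ (hmemp ζ hζ s hs.ne'))
    exact analyticAt_const.mul (rt_analytic (hslit s hs.ne'))
  have hm1 : ∀ ζ ∈ Z, ∀ s : ℂ, 0 < s.im → HarmonicAt (um ζ) s := by
    intro ζ hζ s hs
    apply harmonicAt_comp (φ := fun s => ζ * rt (-s)) (hu _ (hmemm ζ hζ s hs.ne'))
    apply analyticAt_const.mul
    have h1 : AnalyticAt ℂ rt (-s) := rt_analytic (hslit (-s) (by simpa using hs.ne'))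
    exact h1.comp analyticAt_id.neg
  have hp2 : ∀ ζ ∈ Z, ∀ s : ℂ, 0 < s.im → 0 ≤ up ζ s := fun ζ hζ s hs =>
    hpos _ (hmemp ζ hζ s hs.ne')
  have hm2 : ∀ ζ ∈ Z, ∀ s : ℂ, 0 < s.im → 0 ≤ um ζ s := fun ζ hζ s hs =>
    hpos _ (hmemm ζ hζ s hs.ne')
  have hI : (0 : ℝ) < (I : ℂ).im := by simp
  set C := 8 * ∑ ζ ∈ Z, (up ζ I + um ζ I) with hC
  have hCnn : 0 ≤ C := by
    apply mul_nonneg (by norm_num)
    exact Finset.sum_nonneg (fun ζ hζ => add_nonneg (hp2 ζ hζ I hI) (hm2 ζ hζ I hI))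
  have hCb : ∀ ζ ∈ Z, 8 * up ζ I ≤ C ∧ 8 * um ζ I ≤ C := by
    intro ζ hζ
    have h1 : up ζ I + um ζ I ≤ ∑ ζ ∈ Z, (up ζ I + um ζ I) :=
      Finset.single_le_sum (f := fun ζ => up ζ I + um ζ I)
        (fun ζ hζ => add_nonneg (hp2 ζ hζ I hI) (hm2 ζ hζ I hI)) hζ
    have h2 := hp2 ζ hζ I hI
    have h3 := hm2 ζ hζ I hI
    constructor <;> rw [hC] <;> linarith
  refine ⟨C, hCnn, ?_⟩
  intro w hw
  set t := w ^ 172 with ht
  have ht0 : t ≠ 0 := by
    intro h0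
    apply hw
    rw [h0]; simp
  have hroot : ∀ s : ℂ, s = t ∨ s = t → s ≠ 0 → (w / rt s) ^ 172 = 1 := by
    intro s hs hs0
    have : s = t := by rcases hs with h | h <;> exact h
    rw [div_pow, rt_pow, this, ← ht, div_self ht0]
  have hrt0 : rt t ≠ 0 := by
    intro h0
    apply ht0
    rw [← rt_pow t, h0]; norm_num
  have hζ : w / rt t ∈ Z := (hZmem _).2 (hroot t (Or.inl rfl) ht0)
  have hwe : w / rt t * rt t = w := div_mul_cancel₀ w hrt0
  have hfac : 0 ≤ (1 + ‖t‖ ^ 2) ^ 2 / |t.im| := by positivity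
  rcases lt_or_gt_of_ne hw with hneg | hp
  · -- lower half plane
    have hs : 0 < (-t).im := by simpa using hneg
    have h1 := halfplane_bound (hm1 _ hζ) (hm2 _ hζ) hs
    have h2 : um (w / rt t) (-t) = u w := by
      simp only [um, neg_neg, hwe]
    rw [h2, norm_neg] at h1
    have h3 : (-t).im = |t.im| := by rw [abs_of_neg hneg]; simp
    rw [h3] at h1
    calc u w ≤ 8 * (1 + ‖t‖ ^ 2) ^ 2 / |t.im| * um (w / rt t) I := h1
      _ = (8 * um (w / rt t) I) * ((1 + ‖t‖ ^ 2) ^ 2 / |t.im|) := by ring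
      _ ≤ C * ((1 + ‖t‖ ^ 2) ^ 2 / |t.im|) := mul_le_mul_of_nonneg_right (hCb _ hζ).2 hfac
      _ = C * (1 + ‖t‖ ^ 2) ^ 2 / |t.im| := by ring
  · have h1 := halfplane_bound (hp1 _ hζ) (hp2 _ hζ) hp
    have h2 : up (w / rt t) t = u w := by
      simp only [up, hwe]
    rw [h2] at h1
    have h3 : t.im = |t.im| := (abs_of_pos hp).symm
    calc u w ≤ 8 * (1 + ‖t‖ ^ 2) ^ 2 / t.im * up (w / rt t) I := h1
      _ = (8 * up (w / rt t) I) * ((1 + ‖t‖ ^ 2) ^ 2 / |t.im|) := by rw [← h3]; ring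
      _ ≤ C * ((1 + ‖t‖ ^ 2) ^ 2 / |t.im|) := mul_le_mul_of_nonneg_right (hCb _ hζ).1 hfac
      _ = C * (1 + ‖t‖ ^ 2) ^ 2 / |t.im| := by ring

/-! ### The real trace of the complement of `D2` -/

/-- real trace of the complement -/
def SE : Set ℝ := {x | (x : ℂ) ∉ D2}

theorem isClosed_SE : IsClosed SE := isOpen_D2.isClosed_compl.preimage continuous_ofReal

theorem not_mem_D2_iff {t : ℂ} : t ∉ D2 ↔ t ∈ Sg SE := by
  constructor
  · intro h
    have h1 : t.im = 0 := by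
      by_contra h2
      exact h (mem_D2_of_im h2)
    refine ⟨h1, ?_⟩
    show ((t.re : ℝ) : ℂ) ∉ D2
    have : ((t.re : ℝ) : ℂ) = t := Complex.ext (by simp) (by simp [h1])
    rwa [this]
  · rintro ⟨h1, h2⟩
    have : ((t.re : ℝ) : ℂ) = t := Complex.ext (by simp) (by simp [h1])
    have h3 : ((t.re : ℝ) : ℂ) ∉ D2 := h2
    rwa [this] at h3

theorem SE_iff {x : ℝ} : x ∈ SE ↔ ∃ k : ℕ, (x / La ^ k - 1) * 16 ∈ SJ := by
  show ¬ (∀ k : ℕ, ((x : ℂ) / (La : ℂ) ^ k - 1) * 16 ∉ J) ↔ _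
  push Not
  have e : ∀ k : ℕ, ((x : ℂ) / (La : ℂ) ^ k - 1) * 16 = (((x / La ^ k - 1) * 16 : ℝ) : ℂ) := by
    intro k; push_cast; rfl
  simp only [e]
  rfl

theorem SE_ge {x : ℝ} (hx : x ∈ SE) : 3 / 4 ≤ x := by
  obtain ⟨k, hk⟩ := SE_iff.1 hx
  have h1 := (abs_le.1 (SJ_abs_le hk)).1
  have h2 : 3 / 4 ≤ x / La ^ k := by linarith
  rw [le_div_iff₀ (pow_pos La_pos k)] at h2
  have h3 : 1 ≤ La ^ k := one_le_pow₀ (by linarith [La_ge])
  linarith

theorem null_SE : Measure.hausdorffMeasure (1 / 2 : ℝ) SE = 0 := by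
  have hsub : SE ⊆ ⋃ k : ℕ, (fun y : ℝ => (y / 16 + 1) * La ^ k) '' SJ := by
    intro x hx
    obtain ⟨k, hk⟩ := SE_iff.1 hx
    refine mem_iUnion.2 ⟨k, _, hk, ?_⟩
    have : La ^ k ≠ 0 := (pow_pos La_pos k).ne'
    field_simp
    ring
  refine measure_mono_null hsub (measure_iUnion_null (fun k => ?_))
  have hl : LipschitzWith (Real.toNNReal (La ^ k / 16)) (fun y : ℝ => (y / 16 + 1) * La ^ k) := by
    apply LipschitzWith.of_dist_le_mul
    intro x y
    rw [Real.dist_eq, Real.dist_eq, Real.coe_toNNReal _ (by have := La_pos; positivity)]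
    have : (x / 16 + 1) * La ^ k - (y / 16 + 1) * La ^ k = La ^ k / 16 * (x - y) := by ring
    rw [this, abs_mul, abs_of_pos (by have := La_pos; positivity)]
  have h := hl.hausdorffMeasure_image_le (d := 1 / 2) (by norm_num) SJ
  rw [hausdorff_SJ, mul_zero] at h
  exact le_antisymm h zero_le

/-! ### Local extension -/

theorem local_ext {f : ℂ → ℂ} {u : ℂ → ℝ} (hf : DifferentiableOn ℂ f D1)
    (hu : ∀ w ∈ D1, HarmonicAt u w) (hb : ∀ w ∈ D1, ‖f w‖ ^ 2 ≤ u w) (w₀ : ℂ) :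
    ∃ r > 0, ∃ G : ℂ → ℂ, DifferentiableOn ℂ G (ball w₀ r) ∧ ∀ w ∈ ball w₀ r, w ∈ D1 → G w = f w := by
  by_cases hw₀ : w₀ ∈ D1
  · obtain ⟨r, hr, hball⟩ := Metric.isOpen_iff.1 isOpen_D1 w₀ hw₀
    exact ⟨r, hr, f, hf.mono hball, fun _ _ _ => rfl⟩
  have hpos : ∀ w ∈ D1, 0 ≤ u w := fun w hw => (sq_nonneg _).trans (hb w hw)
  obtain ⟨C, hC, hgrow⟩ := growth hu hpos
  have hS : w₀ ^ 172 ∈ Sg SE := not_mem_D2_iff.1 hw₀
  set x₀ := (w₀ ^ 172).re with hx₀
  have hx0 : 3 / 4 ≤ x₀ := SE_ge hS.2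
  have hw0x : w₀ ^ 172 = (x₀ : ℂ) := Complex.ext (by simp [hx₀]) (by simp [hS.1])
  have hw0 : w₀ ≠ 0 := by
    intro h0
    have : (w₀ ^ 172).re = 0 := by rw [h0]; norm_num
    rw [← hx₀] at this
    linarith
  have hx0' : (x₀ : ℂ) ≠ 0 := by
    intro h; rw [ofReal_eq_zero] at h; linarith
  -- the branch
  let β : ℂ → ℂ := fun τ => w₀ * rt (τ / x₀)
  have hβpow : ∀ τ, β τ ^ 172 = τ := by
    intro τ
    simp only [β]
    rw [mul_pow, rt_pow, hw0x]
    field_simp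
  have hslit : ∀ τ ∈ Q x₀ (x₀ / 2), τ / x₀ ∈ slitPlane := by
    intro τ hτ
    left
    rw [div_ofReal_re]
    apply div_pos _ (by linarith)
    have := (abs_lt.1 hτ.1).1
    linarith
  have hβan : ∀ τ ∈ Q x₀ (x₀ / 2), AnalyticAt ℂ β τ := by
    intro τ hτ
    apply analyticAt_const.mul
    have h1 : AnalyticAt ℂ rt (τ / x₀) := rt_analytic (hslit τ hτ)
    have h2 : AnalyticAt ℂ (fun τ : ℂ => τ / x₀) τ := by fun_prop
    exact AnalyticAt.comp (g := rt) (f := fun τ : ℂ => τ / x₀) h1 h2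
  have hH : Hyp (fun τ => f (β τ)) SE x₀ (x₀ / 2) (Real.sqrt C * (1 + 4 * x₀ ^ 2)) := by
    refine ⟨by linarith, by positivity, isClosed_SE, null_SE, ?_, ?_⟩
    · intro τ hτ
      have hD : β τ ∈ D1 := by
        show β τ ^ 172 ∈ D2
        rw [hβpow]
        by_contra h
        exact hτ.2 (not_mem_D2_iff.1 h)
      have h1 : DifferentiableAt ℂ f (β τ) := hf.differentiableAt (isOpen_D1.mem_nhds hD)
      exact (DifferentiableAt.comp τ h1 (hβan τ hτ.1).differentiableAt).differentiableWithinAt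
    · intro τ hτ him
      have hD : β τ ∈ D1 := by
        show β τ ^ 172 ∈ D2
        rw [hβpow]
        exact mem_D2_of_im him
      have h1 := hb _ hD
      have h2 := hgrow (β τ) (by rw [hβpow]; exact him)
      rw [hβpow] at h2
      have him' : 0 < |τ.im| := abs_pos.2 him
      have hn : ‖τ‖ ≤ 2 * x₀ := by
        have h3 := norm_le_abs_re_add_abs_im τ
        have h4 := hτ.1
        have h5 := hτ.2
        have h6 : |τ.re| ≤ 3 / 2 * x₀ := by
          rw [abs_le]; rw [abs_lt] at h4; constructor <;> linarith [h4.1, h4.2]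
        linarith
      have hn2 : ‖τ‖ ^ 2 ≤ 4 * x₀ ^ 2 := by
        have := norm_nonneg τ
        nlinarith
      have h3 : ‖f (β τ)‖ ^ 2 ≤ (Real.sqrt C * (1 + 4 * x₀ ^ 2) * |τ.im| ^ (-(1 / 2) : ℝ)) ^ 2 := by
        have e1 : (|τ.im| ^ (-(1 / 2) : ℝ)) ^ 2 = |τ.im|⁻¹ := by
          rw [← Real.rpow_natCast, ← Real.rpow_mul (abs_nonneg _)]
          norm_num
          rw [Real.rpow_neg_one]
        have e2 : (Real.sqrt C * (1 + 4 * x₀ ^ 2) * |τ.im| ^ (-(1 / 2) : ℝ)) ^ 2 =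
            C * (1 + 4 * x₀ ^ 2) ^ 2 / |τ.im| := by
          rw [mul_pow, mul_pow, e1, Real.sq_sqrt hC]; ring
        rw [e2]
        refine (h1.trans h2).trans ?_
        gcongr
      exact le_of_sq_le_sq h3 (by positivity)
  obtain ⟨G, hG1, hG2⟩ := hH.extend
  -- the neighbourhood
  have hev : ∀ᶠ w in 𝓝 w₀, w ^ 172 ∈ Q x₀ (x₀ / 2 / 4) ∧ |(w / w₀).arg| < Real.pi / (172 : ℕ) := by
    have h1 : ∀ᶠ w in 𝓝 w₀, w ^ 172 ∈ Q x₀ (x₀ / 2 / 4) := by
      apply (continuous_pow 172).continuousAt.eventually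
      apply (isOpen_Q _ _).mem_nhds
      show w₀ ^ 172 ∈ _
      rw [hw0x]
      refine ⟨?_, ?_⟩
      · simp only [ofReal_re, sub_self, abs_zero]; linarith
      · simp only [ofReal_im, abs_zero]; linarith
    have h2 : ∀ᶠ w in 𝓝 w₀, |(w / w₀).arg| < Real.pi / (172 : ℕ) := by
      have hc : ContinuousAt (fun w : ℂ => |(w / w₀).arg|) w₀ := by
        have h3 : ContinuousAt (fun w : ℂ => w / w₀) w₀ := by fun_prop
        have h4 : ContinuousAt arg (w₀ / w₀) := by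
          rw [div_self hw0]
          exact continuousAt_arg one_mem_slitPlane
        exact (ContinuousAt.comp (f := fun w : ℂ => w / w₀) (g := arg) h4 h3).abs
      apply hc.eventually_lt continuousAt_const
      rw [div_self hw0, arg_one, abs_zero]
      have := Real.pi_pos
      positivity
    exact h1.and h2
  obtain ⟨r, hr, hball⟩ := Metric.eventually_nhds_iff_ball.1 hev
  refine ⟨r, hr, fun w => G (w ^ 172), ?_, ?_⟩
  · intro w hw
    have h1 : DifferentiableAt ℂ G (w ^ 172) :=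
      hG1.differentiableAt ((isOpen_Q _ _).mem_nhds (hball w hw).1)
    exact (DifferentiableAt.comp w h1 (differentiableAt_pow 172)).differentiableWithinAt
  · intro w hw hwD
    have hwQ := (hball w hw).1
    have hwarg := (hball w hw).2
    have h1 : w ^ 172 ∉ Sg SE := by
      intro h
      exact (not_mem_D2_iff.2 h) hwD
    show G (w ^ 172) = f w
    rw [hG2 _ hwQ h1]
    have h2 : β (w ^ 172) = w := by
      simp only [β]
      rw [← hw0x, ← div_pow]
      have h3 : rt ((w / w₀) ^ 172) = w / w₀ := by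
        unfold rt
        apply pow_cpow_nat_inv (by norm_num)
        · exact (abs_lt.1 hwarg).1
        · exact (abs_lt.1 hwarg).2.le
      rw [h3]
      field_simp
    show f (β (w ^ 172)) = f w
    rw [h2]

/-! ### Gluing -/

theorem glue {D : Set ℂ} (hD : Dense D) {f : ℂ → ℂ}
    (h : ∀ z : ℂ, ∃ r > 0, ∃ G : ℂ → ℂ, DifferentiableOn ℂ G (ball z r) ∧
      ∀ w ∈ ball z r, w ∈ D → G w = f w) :
    ∃ F : ℂ → ℂ, Differentiable ℂ F ∧ ∀ w ∈ D, F w = f w := by
  choose r hr G hG1 hG2 using h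
  have key : ∀ z : ℂ, ∀ w ∈ ball z (r z), G w w = G z w := by
    intro z w hw
    have hc1 : ContinuousAt (G w) w :=
      ((hG1 w).differentiableAt (ball_mem_nhds w (hr w))).continuousAt
    have hc2 : ContinuousAt (G z) w :=
      ((hG1 z).differentiableAt (isOpen_ball.mem_nhds hw)).continuousAt
    have hne : (𝓝[D] w).NeBot := mem_closure_iff_nhdsWithin_neBot.1 (hD w)
    have l1 : Tendsto (G w) (𝓝[D] w) (𝓝 (G w w)) := hc1.tendsto.mono_left nhdsWithin_le_nhds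
    have l2 : Tendsto (G z) (𝓝[D] w) (𝓝 (G z w)) := hc2.tendsto.mono_left nhdsWithin_le_nhds
    refine tendsto_nhds_unique l1 (l2.congr' ?_)
    filter_upwards [self_mem_nhdsWithin, mem_nhdsWithin_of_mem_nhds (isOpen_ball.mem_nhds hw),
      mem_nhdsWithin_of_mem_nhds (ball_mem_nhds w (hr w))] with v hv1 hv2 hv3
    rw [hG2 z v hv2 hv1, hG2 w v hv3 hv1]
  refine ⟨fun z => G z z, ?_, ?_⟩
  · intro z
    have h1 : DifferentiableAt ℂ (G z) z := (hG1 z).differentiableAt (ball_mem_nhds z (hr z))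
    apply h1.congr_of_eventuallyEq
    filter_upwards [ball_mem_nhds z (hr z)] with w hw
    exact key z w hw
  · intro w hw
    exact hG2 w w (mem_ball_self (hr w)) hw

/-! ### Density and connectedness -/

theorem re_ofReal_mul_im_aux (x s : ℝ) : ((x : ℂ) * exp ((s : ℂ) * I)).im = x * Real.sin s := by
  rw [exp_mul_I]
  simp [← ofReal_cos, ← ofReal_sin]

theorem re_ofReal_mul_aux (x : ℝ) (z : ℂ) : ((x : ℂ) * z).im = x * z.im := by
  simp

theorem dense_aux : Dense {w : ℂ | w = 0 ∨ (w ^ 172).im ≠ 0} := by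
  intro w
  by_cases h0 : w = 0
  · exact subset_closure (Or.inl h0)
  by_cases him : (w ^ 172).im = 0
  · -- rotate slightly
    set x := (w ^ 172).re with hx
    have hwx : w ^ 172 = (x : ℂ) := Complex.ext (by simp [hx]) (by simp [him])
    have hx0 : x ≠ 0 := by
      intro h
      rw [h, ofReal_zero] at hwx
      exact h0 (pow_eq_zero_iff (by norm_num) |>.1 hwx)
    rw [mem_closure_iff_seq_limit]
    refine ⟨fun n : ℕ => w * exp (((1 / ((n : ℝ) + 1) / 172 : ℝ) : ℂ) * I), ?_, ?_⟩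
    · intro n
      right
      show ((w * exp (((1 / ((n : ℝ) + 1) / 172 : ℝ) : ℂ) * I)) ^ 172).im ≠ 0
      rw [mul_pow, hwx, ← exp_nat_mul]
      have e : ((172 : ℕ) : ℂ) * (((1 / ((n : ℝ) + 1) / 172 : ℝ) : ℂ) * I) = ((1 / ((n : ℝ) + 1) : ℝ) : ℂ) * I := by
        push_cast
        ring
      rw [e, re_ofReal_mul_im_aux]
      apply mul_ne_zero hx0
      apply ne_of_gt
      apply Real.sin_pos_of_pos_of_lt_pi (by positivity)
      have h1 : 1 / ((n : ℝ) + 1) ≤ 1 := by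
        rw [div_le_one (by positivity)]
        have : (0 : ℝ) ≤ n := Nat.cast_nonneg n
        linarith
      linarith [Real.pi_gt_three]
    · have h1 : Tendsto (fun n : ℕ => (1 / ((n : ℝ) + 1) / 172 : ℝ)) atTop (𝓝 0) := by
        have := (tendsto_one_div_add_atTop_nhds_zero_nat (𝕜 := ℝ)).div_const 172
        simpa using this
      have h2 : Continuous (fun s : ℝ => w * exp ((s : ℂ) * I)) := by fun_prop
      have h3 : Tendsto (fun n : ℕ => w * exp (((1 / ((n : ℝ) + 1) / 172 : ℝ) : ℂ) * I)) atTop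
          (𝓝 (w * exp (((0 : ℝ) : ℂ) * I))) := (h2.tendsto 0).comp h1
      rw [ofReal_zero, zero_mul, exp_zero, mul_one] at h3
      exact h3
  · exact subset_closure (Or.inr him)

theorem small_mem_D2 {t : ℂ} (ht : ‖t‖ < 3 / 4) : t ∈ D2 := by
  intro k
  apply not_mem_J_of_small
  rw [norm_div_La, div_lt_iff₀ (pow_pos La_pos k)]
  have : 1 ≤ La ^ k := one_le_pow₀ (by linarith [La_ge])
  linarith

theorem small_mem_D1 {w : ℂ} (hw : ‖w‖ ≤ 1 / 2) : w ∈ D1 := by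
  apply small_mem_D2
  rw [norm_pow]
  calc ‖w‖ ^ 172 ≤ (1 / 2) ^ 172 := pow_le_pow_left₀ (norm_nonneg _) hw 172
    _ < 3 / 4 := by norm_num

theorem dense_D1 : Dense D1 := by
  apply dense_aux.mono
  rintro w (rfl | hw)
  · exact small_mem_D1 (by simp)
  · exact mem_D2_of_im hw

/-- the star-shaped part -/
theorem isConnected_D1 : IsConnected D1 := by
  -- `A = {w | w^172 ∉ [3/4, ∞)}` is star-shaped about `0`
  set A : Set ℂ := {w | (w ^ 172).im ≠ 0 ∨ (w ^ 172).re < 3 / 4} with hA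
  have hAD : A ⊆ D1 := by
    intro w hw
    by_contra hcon
    have h1 := not_mem_D2_iff.1 (show w ^ 172 ∉ D2 from hcon)
    rcases hw with hw | hw
    · exact hw h1.1
    · have := SE_ge h1.2
      linarith
  have h0A : (0 : ℂ) ∈ A := by
    right
    norm_num
  have hstar : StarConvex ℝ 0 A := by
    rw [starConvex_zero_iff]
    intro w hw s hs0 hs1
    have e : (s • w) ^ 172 = ((s ^ 172 : ℝ) : ℂ) * w ^ 172 := by
      rw [real_smul, mul_pow]; push_cast; rfl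
    rcases eq_or_lt_of_le hs0 with h | h
    · rw [← h, zero_smul]; exact h0A
    · have hs : 0 < s ^ 172 := by positivity
      have hs' : s ^ 172 ≤ 1 := pow_le_one₀ hs0 hs1
      rcases hw with hw | hw
      · left
        rw [e, re_ofReal_mul_aux]
        exact mul_ne_zero hs.ne' hw
      · right
        rw [e, re_ofReal_mul]
        rcases le_or_gt (w ^ 172).re 0 with h2 | h2
        · nlinarith
        · nlinarith
  have hconn : IsConnected A := ⟨⟨0, h0A⟩, (hstar.isPathConnected h0A).isConnected.isPreconnected⟩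
  have hdense : D1 ⊆ closure A := by
    have : Dense A := by
      apply dense_aux.mono
      rintro w (rfl | hw)
      · exact h0A
      · exact Or.inl hw
    rw [this.closure_eq]
    exact subset_univ _
  exact hconn.subset_closure hAD hdense

/-! ### Polynomial growth -/

theorem key_identity {w : ℂ} {r : ℝ} (hw : ‖w‖ = r) :
    ‖w ^ 344 - (r : ℂ) ^ 344‖ = 2 * r ^ 172 * |(w ^ 172).im| := by
  set t := w ^ 172 with ht
  have htn : ‖t‖ = r ^ 172 := by rw [ht, norm_pow, hw]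
  have e1 : w ^ 344 = t * t := by rw [ht, ← pow_add]
  have e2 : (r : ℂ) ^ 344 = t * (starRingEnd ℂ) t := by
    rw [mul_conj, normSq_eq_norm_sq, htn]
    push_cast
    rw [← pow_mul]
  have e3 : t - (starRingEnd ℂ) t = ((2 * t.im : ℝ) : ℂ) * I := sub_conj t
  rw [e1, e2, ← mul_sub, norm_mul, htn, e3, norm_mul, norm_I, mul_one, norm_real, Real.norm_eq_abs,
    abs_mul, abs_of_pos (show (0 : ℝ) < 2 by norm_num)]
  ring

theorem poly_bound {F : ℂ → ℂ} (hF : Differentiable ℂ F) {C : ℝ} (hC : 0 ≤ C)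
    (hb : ∀ w : ℂ, (w ^ 172).im ≠ 0 → ‖F w‖ ^ 2 ≤ C * (1 + ‖w ^ 172‖ ^ 2) ^ 2 / |(w ^ 172).im|)
    {r : ℝ} (hr : 1 ≤ r) {w : ℂ} (hw : ‖w‖ ≤ r / 2) : ‖F w‖ ≤ 8 * Real.sqrt C * r ^ 258 := by
  have hr0 : 0 < r := by linarith
  let h : ℂ → ℂ := fun w => F w * (w ^ 344 - (r : ℂ) ^ 344)
  have hh : Differentiable ℂ h := hF.mul ((differentiable_pow 344).sub_const _)
  set B := 2 * Real.sqrt C * (1 + r ^ 344) * r ^ 172 * r ^ 86 with hB
  have hB0 : 0 ≤ B := by positivity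
  have hbd : ∀ z ∈ frontier (ball (0 : ℂ) r), ‖h z‖ ≤ B := by
    intro z hz
    rw [frontier_ball _ hr0.ne', mem_sphere_zero_iff_norm] at hz
    have hk := key_identity hz
    simp only [h]
    rw [norm_mul, hk]
    by_cases him : (z ^ 172).im = 0
    · rw [him, abs_zero, mul_zero, mul_zero]; exact hB0
    · have h1 := hb z him
      have hn : ‖z ^ 172‖ = r ^ 172 := by rw [norm_pow, hz]
      have him' : 0 < |(z ^ 172).im| := abs_pos.2 him
      have him2 : |(z ^ 172).im| ≤ r ^ 172 := by rw [← hn]; exact abs_im_le_norm _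
      rw [hn, ← pow_mul] at h1
      apply le_of_sq_le_sq _ hB0
      calc (‖F z‖ * (2 * r ^ 172 * |(z ^ 172).im|)) ^ 2
          = ‖F z‖ ^ 2 * (4 * r ^ 344 * |(z ^ 172).im| ^ 2) := by ring
        _ ≤ C * (1 + r ^ (172 * 2)) ^ 2 / |(z ^ 172).im| * (4 * r ^ 344 * |(z ^ 172).im| ^ 2) :=
            mul_le_mul_of_nonneg_right h1 (by positivity)
        _ = 4 * C * (1 + r ^ 344) ^ 2 * r ^ 344 * |(z ^ 172).im| := by
            field_simp
        _ ≤ 4 * C * (1 + r ^ 344) ^ 2 * r ^ 344 * r ^ 172 := by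
            apply mul_le_mul_of_nonneg_left him2; positivity
        _ = B ^ 2 := by
            rw [hB, mul_pow, mul_pow, mul_pow, mul_pow, Real.sq_sqrt hC]; ring
  have hwmem : w ∈ closure (ball (0 : ℂ) r) := by
    apply subset_closure
    rw [mem_ball_zero_iff]; linarith
  have h1 : ‖h w‖ ≤ B := norm_le_of_forall_mem_frontier_norm_le isBounded_ball hh.diffContOnCl hbd hwmem
  have h2 : r ^ 344 / 2 ≤ ‖w ^ 344 - (r : ℂ) ^ 344‖ := by
    have e1 := norm_sub_norm_le ((r : ℂ) ^ 344) (w ^ 344)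
    rw [norm_sub_rev] at e1
    have e2 : ‖(r : ℂ) ^ 344‖ = r ^ 344 := by rw [norm_pow, norm_real, Real.norm_eq_abs, abs_of_pos hr0]
    have e3 : ‖w ^ 344‖ ≤ (r / 2) ^ 344 := by rw [norm_pow]; exact pow_le_pow_left₀ (norm_nonneg _) hw 344
    have e4 : (r / 2) ^ 344 ≤ r ^ 344 / 2 := by
      rw [div_pow]
      apply div_le_div_of_nonneg_left (by positivity) (by norm_num)
      exact le_self_pow₀ (by norm_num) (by norm_num)
    generalize (r / 2) ^ 344 = X at e3 e4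
    rw [e2] at e1
    linarith
  have h3 : ‖F w‖ * (r ^ 344 / 2) ≤ B := by
    refine le_trans ?_ h1
    simp only [h]
    rw [norm_mul]
    exact mul_le_mul_of_nonneg_left h2 (norm_nonneg _)
  have h4 : B ≤ 8 * Real.sqrt C * r ^ 258 * (r ^ 344 / 2) := by
    have e1 : 1 + r ^ 344 ≤ 2 * r ^ 344 := by
      have := one_le_pow₀ (n := 344) hr
      linarith
    calc B ≤ 2 * Real.sqrt C * (2 * r ^ 344) * r ^ 172 * r ^ 86 := by
          rw [hB]; gcongr
      _ = 8 * Real.sqrt C * r ^ 258 * (r ^ 344 / 2) := by ring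
  have h5 : 0 < r ^ 344 / 2 := by positivity
  exact le_of_mul_le_mul_right (h3.trans h4) h5

theorem iteratedDeriv_zero {F : ℂ → ℂ} (hF : Differentiable ℂ F) {C : ℝ} (hC : 0 ≤ C)
    (hb : ∀ w : ℂ, (w ^ 172).im ≠ 0 → ‖F w‖ ^ 2 ≤ C * (1 + ‖w ^ 172‖ ^ 2) ^ 2 / |(w ^ 172).im|)
    {n : ℕ} (hn : 259 ≤ n) : iteratedDeriv n F 0 = 0 := by
  obtain ⟨b, hb258⟩ : ∃ b : ℝ, b = 2 ^ 258 := ⟨_, rfl⟩
  have hb0 : 0 < b := by rw [hb258]; positivity
  have key : ∀ R : ℝ, 1 ≤ R → ‖iteratedDeriv n F 0‖ ≤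
      n.factorial * (8 * Real.sqrt C * b) / R := by
    intro R hR
    have hR0 : 0 < R := by linarith
    have h1 := norm_iteratedDeriv_le_of_forall_mem_sphere_norm_le (c := 0) (C := 8 * Real.sqrt C * (2 * R) ^ 258)
      n hR0 hF.diffContOnCl (fun z hz => by
        rw [mem_sphere_zero_iff_norm] at hz
        exact poly_bound hF hC hb (by linarith) (by rw [hz]; linarith))
    refine h1.trans ?_
    rw [div_le_div_iff₀ (by positivity) hR0]
    have e1 : R ^ 258 * R ≤ R ^ n := by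
      rw [← pow_succ]; exact pow_le_pow_right₀ hR hn
    calc (n.factorial : ℝ) * (8 * Real.sqrt C * (2 * R) ^ 258) * R
        = n.factorial * (8 * Real.sqrt C * b) * (R ^ 258 * R) := by rw [mul_pow, ← hb258]; ring
      _ ≤ n.factorial * (8 * Real.sqrt C * b) * R ^ n := by
          apply mul_le_mul_of_nonneg_left e1; positivity
  have hlim : Tendsto (fun R : ℝ => n.factorial * (8 * Real.sqrt C * b) / R) atTop (𝓝 0) :=
    tendsto_const_nhds.div_atTop tendsto_id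
  have h0 : ‖iteratedDeriv n F 0‖ ≤ 0 :=
    ge_of_tendsto hlim ((eventually_ge_atTop 1).mono key)
  exact norm_le_zero_iff.1 h0

theorem eq_poly {F : ℂ → ℂ} (hF : Differentiable ℂ F)
    (h : ∀ n, 259 ≤ n → iteratedDeriv n F 0 = 0) (z : ℂ) :
    F z = ∑ n ∈ Finset.range 259, ((n.factorial : ℂ)⁻¹ * iteratedDeriv n F 0) * z ^ n := by
  have h1 := taylorSeries_eq_of_entire' (c := 0) (z := z) hF
  rw [← h1, tsum_eq_sum (s := Finset.range 259)]
  · apply Finset.sum_congr rfl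
    intro n _
    rw [sub_zero]
  · intro n hn
    rw [Finset.mem_range, not_lt] at hn
    rw [h n hn, mul_zero, zero_mul]

end Pool.Agent.LibHelper99.Hardy
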