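import Mathlib

set_option autoImplicit false

namespace Pool.Agent.LibHelper99.Tight

open Set

/-- Pigeonhole: an uncountable set with a map to a countable type has an uncountable fibre. -/
theorem exists_uncountable_fiber {α β : Type*} [Countable β] {S : Set α} (hS : ¬ S.Countable)
    (f : α → β) : ∃ b : β, ¬ {a ∈ S | f a = b}.Countable := by
  by_contra h
  push Not at h
  apply hS
  have : S = ⋃ b : β, {a ∈ S | f a = b} := by
    ext a; simp
  rw [this]
  exact Set.countable_iUnion h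

/-- Delta-system lemma, fixed size. -/
theorem delta_fixed {ι κ : Type*} (n : ℕ) :
    ∀ (F : ι → Set κ) (S : Set ι), ¬ S.Countable → (∀ a ∈ S, (F a).Finite ∧ (F a).ncard = n) →
      ∃ (S' : Set ι) (R : Set κ), S' ⊆ S ∧ ¬ S'.Countable ∧ R.Finite ∧
        (∀ a ∈ S', R ⊆ F a) ∧
        ∀ a ∈ S', ∀ b ∈ S', a ≠ b → F a ∩ F b ⊆ R := by
  induction n with
  | zero =>
    intro F S hS hF
    refine ⟨S, ∅, Subset.rfl, hS, finite_empty, fun a _ => empty_subset _, ?_⟩
    intro a ha b hb _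
    have : F a = ∅ := (Set.ncard_eq_zero (hF a ha).1).1 (hF a ha).2
    simp [this]
  | succ n ih =>
    intro F S hS hF
    by_cases hcase : ∃ i : κ, ¬ {a ∈ S | i ∈ F a}.Countable
    · obtain ⟨i, hi⟩ := hcase
      obtain ⟨S', R, hS'sub, hS', hRfin, hR1, hR2⟩ := ih (fun a => F a \ {i}) {a ∈ S | i ∈ F a} hi (by
        intro a ha
        refine ⟨(hF a ha.1).1.sdiff, ?_⟩
        have := Set.ncard_sdiff_singleton_of_mem ha.2
        rw [this, (hF a ha.1).2]
        rfl)
      refine ⟨S', insert i R, fun a ha => (hS'sub ha).1, hS', hRfin.insert i, ?_, ?_⟩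
      · intro a ha
        refine insert_subset (hS'sub ha).2 ((hR1 a ha).trans sdiff_subset)
      · intro a ha b hb hab x hx
        by_cases hxi : x = i
        · exact Or.inl hxi
        · right
          exact hR2 a ha b hb hab ⟨⟨hx.1, hxi⟩, ⟨hx.2, hxi⟩⟩
    · push Not at hcase
      -- maximal pairwise disjoint subfamily
      obtain ⟨M, hM⟩ : ∃ M, Maximal (fun T : Set ι => T ⊆ S ∧ ∀ a ∈ T, ∀ b ∈ T, a ≠ b → F a ∩ F b = ∅) M := by
        apply zorn_subset
        intro c hc hchain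
        refine ⟨⋃₀ c, ⟨?_, ?_⟩, fun s hs => subset_sUnion_of_mem hs⟩
        · exact sUnion_subset (fun s hs => (hc hs).1)
        · intro a ha b hb hab
          obtain ⟨s, hs, has⟩ := ha
          obtain ⟨t, ht, hbt⟩ := hb
          rcases hchain.total hs ht with hst | hts
          · exact (hc ht).2 a (hst has) b hbt hab
          · exact (hc hs).2 a has b (hts hbt) hab
      refine ⟨M, ∅, hM.1.1, ?_, finite_empty, fun a _ => empty_subset _, ?_⟩
      · intro hMc
        -- all of S is covered by countable many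
        apply hS
        have hcov : S ⊆ M ∪ ⋃ b ∈ M, ⋃ i ∈ F b, {a ∈ S | i ∈ F a} := by
          intro a ha
          by_contra hna
          rw [mem_union, not_or] at hna
          obtain ⟨haM, hna⟩ := hna
          have hins : insert a M ⊆ M := by
            apply hM.2
            · refine ⟨insert_subset ha hM.1.1, ?_⟩
              have key : ∀ b ∈ M, F a ∩ F b = ∅ := by
                intro b hb
                by_contra hne
                obtain ⟨i, hi⟩ := Set.nonempty_iff_ne_empty.2 hne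
                apply hna
                simp only [mem_iUnion]
                exact ⟨b, hb, i, hi.2, ha, hi.1⟩
              intro x hx y hy hxy
              rcases hx with rfl | hx
              · rcases hy with rfl | hy
                · exact absurd rfl hxy
                · exact key y hy
              · rcases hy with rfl | hy
                · rw [inter_comm]; exact key x hx
                · exact hM.1.2 x hx y hy hxy
            · exact subset_insert _ _
          exact haM (hins (mem_insert _ _))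
        refine Set.Countable.mono hcov (hMc.union ?_)
        refine hMc.biUnion (fun b hb => ?_)
        exact ((hF b (hM.1.1 hb)).1.countable).biUnion (fun i _ => hcase i)
      · intro a ha b hb hab
        rw [hM.1.2 a ha b hb hab]

/-- Delta-system lemma for finite sets. -/
theorem delta_system {ι κ : Type*} (F : ι → Set κ) (S : Set ι) (hS : ¬ S.Countable)
    (hF : ∀ a ∈ S, (F a).Finite) :
      ∃ (S' : Set ι) (R : Set κ), S' ⊆ S ∧ ¬ S'.Countable ∧ R.Finite ∧
        (∀ a ∈ S', R ⊆ F a) ∧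
        ∀ a ∈ S', ∀ b ∈ S', a ≠ b → F a ∩ F b ⊆ R := by
  obtain ⟨n, hn⟩ := exists_uncountable_fiber hS (fun a => (F a).ncard)
  obtain ⟨S', R, h1, h2, h3, h4, h5⟩ := delta_fixed n F _ hn (fun a ha => ⟨hF a ha.1, ha.2⟩)
  exact ⟨S', R, fun a ha => (h1 ha).1, h2, h3, h4, h5⟩

variable {κ K : Type*} [TopologicalSpace K]

/-- basic neighbourhoods in `κ → ℝ`. -/
theorem exists_box (y : κ → ℝ) (W : Set (κ → ℝ)) (hW : IsOpen W) (hy : y ∈ W) :
    ∃ (F : Set κ) (ε : ℝ), F.Finite ∧ 0 < ε ∧ ∀ z : κ → ℝ, (∀ i ∈ F, |z i - y i| < ε) → z ∈ W := by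
  obtain ⟨I, u, hu1, hu2⟩ := isOpen_pi_iff.1 hW y hy
  have : ∀ i ∈ I, ∃ ε > 0, Metric.ball (y i) ε ⊆ u i := by
    intro i hi
    exact Metric.isOpen_iff.1 (hu1 i hi).1 _ (hu1 i hi).2
  choose! e he1 he2 using this
  by_cases hI : I.Nonempty
  · refine ⟨I, I.inf' hI e, I.finite_toSet, ?_, ?_⟩
    · rw [Finset.lt_inf'_iff]
      exact fun i hi => he1 i hi
    · intro z hz
      apply hu2
      intro i hi
      apply he2 i hi
      rw [Metric.mem_ball, Real.dist_eq]
      exact lt_of_lt_of_le (hz i hi) (Finset.inf'_le _ hi)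
  · rw [Finset.not_nonempty_iff_eq_empty] at hI
    subst hI
    refine ⟨∅, 1, finite_empty, one_pos, ?_⟩
    intro z _
    apply hu2
    simp

/-- If `φ` does not depend on the coordinates in `B` only, there is a bad pair differing only on
a finite set disjoint from `B`. -/
theorem exists_bad_pair [T2Space K] {φ : (κ → ℝ) → K} (hφ : Continuous φ) (B : Set κ)
    (hB : ∃ y y' : κ → ℝ, (∀ i ∈ B, y i = y' i) ∧ φ y ≠ φ y') :
    ∃ y y' : κ → ℝ, φ y ≠ φ y' ∧ {i | y i ≠ y' i}.Finite ∧ ∀ i ∈ B, y i = y' i := by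
  classical
  obtain ⟨y, y', hyB, hne⟩ := hB
  obtain ⟨U, V, hU, hV, hyU, hyV, hUV⟩ := t2_separation hne
  obtain ⟨F, ε, hF, hε, hbox⟩ := exists_box y' (φ ⁻¹' V) (hV.preimage hφ) hyV
  let y'' : κ → ℝ := fun i => if i ∈ F then y' i else y i
  refine ⟨y, y'', ?_, ?_, ?_⟩
  · intro heq
    have h1 : φ y'' ∈ V := by
      apply hbox
      intro i hi
      simp [y'', hi, hε]
    exact Set.disjoint_left.1 hUV hyU (heq ▸ h1)
  · apply hF.subset
    intro i hi
    by_contra hiF
    apply hi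
    simp [y'', hiF]
  · intro i hi
    by_cases hiF : i ∈ F
    · simp [y'', hiF, hyB i hi]
    · simp [y'', hiF]

/-- the finite set where the two members of a pair differ -/
def Dif (p : (κ → ℝ) × (κ → ℝ)) : Set κ := {i | p.1 i ≠ p.2 i}

/-- There is an uncountable family of bad pairs with pairwise disjoint difference sets. -/
theorem exists_family [T2Space K] {φ : (κ → ℝ) → K} (hφ : Continuous φ)
    (hdep : ∀ B : Set κ, B.Countable → ∃ y y' : κ → ℝ, (∀ i ∈ B, y i = y' i) ∧ φ y ≠ φ y') :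
    ∃ P : Set ((κ → ℝ) × (κ → ℝ)), ¬ P.Countable ∧
      (∀ p ∈ P, φ p.1 ≠ φ p.2 ∧ (Dif p).Finite) ∧
      ∀ p ∈ P, ∀ q ∈ P, p ≠ q → Dif p ∩ Dif q = ∅ := by
  obtain ⟨M, hM⟩ : ∃ M, Maximal (fun P : Set ((κ → ℝ) × (κ → ℝ)) =>
      (∀ p ∈ P, φ p.1 ≠ φ p.2 ∧ (Dif p).Finite) ∧
      ∀ p ∈ P, ∀ q ∈ P, p ≠ q → Dif p ∩ Dif q = ∅) M := by
    apply zorn_subset
    intro c hc hchain
    refine ⟨⋃₀ c, ⟨?_, ?_⟩, fun s hs => subset_sUnion_of_mem hs⟩
    · rintro p ⟨s, hs, hps⟩
      exact (hc hs).1 p hps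
    · rintro a ⟨s, hs, has⟩ b ⟨t, ht, hbt⟩ hab
      rcases hchain.total hs ht with hst | hts
      · exact (hc ht).2 a (hst has) b hbt hab
      · exact (hc hs).2 a has b (hts hbt) hab
  refine ⟨M, ?_, hM.1.1, hM.1.2⟩
  intro hMc
  obtain ⟨y, y', hne, hfin, hag⟩ := exists_bad_pair hφ (⋃ p ∈ M, Dif p)
    (hdep _ (hMc.biUnion (fun p hp => (hM.1.1 p hp).2.countable)))
  have key : ∀ q ∈ M, Dif (y, y') ∩ Dif q = ∅ := by
    intro q hq
    by_contra hne'
    obtain ⟨i, hi⟩ := Set.nonempty_iff_ne_empty.2 hne'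
    apply hi.1
    exact hag i (mem_biUnion hq hi.2)
  have hins : insert (y, y') M ⊆ M := by
    apply hM.2
    · refine ⟨?_, ?_⟩
      · intro p hp
        rcases hp with rfl | hp
        · exact ⟨hne, hfin⟩
        · exact hM.1.1 p hp
      · intro x hx z hz hxz
        rcases hx with rfl | hx
        · rcases hz with rfl | hz
          · exact absurd rfl hxz
          · exact key z hz
        · rcases hz with rfl | hz
          · rw [inter_comm]; exact key x hx
          · exact hM.1.2 x hx z hz hxz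
    · exact subset_insert _ _
  have hmem : (y, y') ∈ M := hins (mem_insert _ _)
  have h0 : Dif (y, y') = ∅ := by
    have := key _ hmem
    rwa [inter_self] at this
  apply hne
  congr 1
  funext i
  by_contra hi
  have : i ∈ Dif (y, y') := hi
  rw [h0] at this
  exact this

/-- Main theorem: a continuous map from `ℝ^κ` to a countably tight compact Hausdorff space
depends on countably many coordinates. -/
theorem depends_countable [CompactSpace K] [T2Space K]
    (ht : ∀ (A : Set K) (x : K), x ∈ closure A → ∃ C : Set K, C ⊆ A ∧ C.Countable ∧ x ∈ closure C)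
    {φ : (κ → ℝ) → K} (hφ : Continuous φ) :
    ∃ B : Set κ, B.Countable ∧ ∀ y y' : κ → ℝ, (∀ i ∈ B, y i = y' i) → φ y = φ y' := by
  classical
  by_contra hcon
  push Not at hcon
  obtain ⟨P, hPunc, hP1, hP2⟩ := exists_family hφ hcon
  -- separate
  have hsep : ∀ p ∈ P, ∃ (U V : Set K) (F : Set κ) (ε : ℝ), Disjoint (closure U) (closure V) ∧
      F.Finite ∧ 0 < ε ∧
      (∀ z : κ → ℝ, (∀ i ∈ F, |z i - p.1 i| < ε) → φ z ∈ U) ∧
      (∀ z : κ → ℝ, (∀ i ∈ F, |z i - p.2 i| < ε) → φ z ∈ V) := by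
    intro p hp
    obtain ⟨U, hpU, hU, V, hpV, hV, hUV⟩ := exists_open_nhds_disjoint_closure (hP1 p hp).1
    obtain ⟨F₁, ε₁, hF₁, hε₁, hb₁⟩ := exists_box p.1 (φ ⁻¹' U) (hU.preimage hφ) hpU
    obtain ⟨F₂, ε₂, hF₂, hε₂, hb₂⟩ := exists_box p.2 (φ ⁻¹' V) (hV.preimage hφ) hpV
    refine ⟨U, V, F₁ ∪ F₂, min ε₁ ε₂, hUV, hF₁.union hF₂, lt_min hε₁ hε₂, ?_, ?_⟩
    · intro z hz
      exact hb₁ z (fun i hi => lt_of_lt_of_le (hz i (Or.inl hi)) (min_le_left _ _))
    · intro z hz
      exact hb₂ z (fun i hi => lt_of_lt_of_le (hz i (Or.inr hi)) (min_le_right _ _))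
  choose! U V F ε hUV hFfin hε hU hV using hsep
  -- uniform epsilon
  have hn : ∀ p ∈ P, ∃ n : ℕ, 1 / ((n : ℝ) + 1) < ε p := fun p hp => exists_nat_one_div_lt (hε p hp)
  choose! N hN using hn
  obtain ⟨n, hPn⟩ := exists_uncountable_fiber hPunc N
  set δ : ℝ := 1 / ((n : ℝ) + 1) with hδ
  have hδ0 : 0 < δ := by positivity
  -- delta system
  obtain ⟨P₁, R, hP₁sub, hP₁unc, hRfin, hRF, hRint⟩ :=
    delta_system F _ hPn (fun p hp => hFfin p hp.1)
  -- remove those whose difference set meets R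
  have hP₂unc : ¬ {p ∈ P₁ | Dif p ∩ R = ∅}.Countable := by
    intro hc
    apply hP₁unc
    have hsub : P₁ ⊆ {p ∈ P₁ | Dif p ∩ R = ∅} ∪ ⋃ i ∈ R, {p ∈ P₁ | i ∈ Dif p} := by
      intro p hp
      by_cases h : Dif p ∩ R = ∅
      · exact Or.inl ⟨hp, h⟩
      · right
        obtain ⟨i, hi⟩ := Set.nonempty_iff_ne_empty.2 h
        simp only [mem_iUnion]
        exact ⟨i, hi.2, hp, hi.1⟩
    refine Set.Countable.mono hsub (hc.union (hRfin.countable.biUnion (fun i _ => ?_)))
    apply Set.Subsingleton.countable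
    intro p hp q hq
    by_contra hpq
    have := hP2 p (hP₁sub hp.1).1 q (hP₁sub hq.1).1 hpq
    have hmem : i ∈ Dif p ∩ Dif q := ⟨hp.2, hq.2⟩
    rw [this] at hmem
    exact hmem
  -- common point on the root
  have : Finite R := hRfin
  have hrat : ∀ p : (κ → ℝ) × (κ → ℝ), ∃ c : R → ℚ, ∀ i : R, |((c i : ℚ) : ℝ) - p.1 i| < δ := by
    intro p
    have : ∀ i : R, ∃ q : ℚ, |((q : ℚ) : ℝ) - p.1 i| < δ := by
      intro i
      obtain ⟨q, hq1, hq2⟩ := exists_rat_btwn (show p.1 i - δ < p.1 i + δ by linarith)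
      exact ⟨q, by rw [abs_lt]; constructor <;> linarith⟩
    choose c hc using this
    exact ⟨c, hc⟩
  choose c hc using hrat
  obtain ⟨c₀, hP₃unc⟩ := exists_uncountable_fiber hP₂unc c
  set P₃ := {p ∈ {p ∈ P₁ | Dif p ∩ R = ∅} | c p = c₀} with hP₃
  have hP₃P : ∀ p ∈ P₃, p ∈ P := fun p hp => (hP₁sub hp.1.1).1
  have hP₃ε : ∀ p ∈ P₃, δ < ε p := by
    intro p hp
    have h1 := hN p (hP₃P p hp)
    have h2 : N p = n := (hP₁sub hp.1.1).2
    rw [h2] at h1
    exact h1
  -- the points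
  let sel : κ → (κ → ℝ) × (κ → ℝ) := fun i => if h : ∃ p ∈ P₃, i ∈ F p then h.choose else (0, 0)
  have hsel : ∀ p ∈ P₃, ∀ i ∈ F p, i ∉ R → sel i = p := by
    intro p hp i hi hiR
    have h : ∃ p ∈ P₃, i ∈ F p := ⟨p, hp, hi⟩
    have hs : sel i = h.choose := by simp only [sel, dif_pos h]
    by_contra hne
    apply hiR
    have hne' : h.choose ≠ p := by rwa [← hs]
    exact hRint h.choose h.choose_spec.1.1.1 p hp.1.1 hne' ⟨h.choose_spec.2, hi⟩
  let z : Set ((κ → ℝ) × (κ → ℝ)) → κ → ℝ := fun T i =>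
    if h : i ∈ R then ((c₀ ⟨i, h⟩ : ℚ) : ℝ) else if sel i ∈ T then (sel i).2 i else (sel i).1 i
  have hroot : ∀ p ∈ P₃, ∀ i ∈ R, p.1 i = p.2 i := by
    intro p hp i hi
    by_contra hne
    have : i ∈ Dif p ∩ R := ⟨hne, hi⟩
    rw [hp.1.2] at this
    exact this
  have hz1 : ∀ T, ∀ p ∈ P₃, p ∉ T → φ (z T) ∈ U p := by
    intro T p hp hpT
    apply hU p (hP₃P p hp)
    intro i hi
    refine lt_trans ?_ (hP₃ε p hp)
    by_cases hiR : i ∈ R
    · have h1 : z T i = ((c₀ ⟨i, hiR⟩ : ℚ) : ℝ) := by simp only [z, dif_pos hiR]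
      have h2 := hc p ⟨i, hiR⟩
      rw [hp.2] at h2
      rw [h1]; exact h2
    · have h1 : z T i = p.1 i := by
        simp only [z, dif_neg hiR, hsel p hp i hi hiR, if_neg hpT]
      rw [h1]; simpa using hδ0
  have hz2 : ∀ T, ∀ p ∈ P₃, p ∈ T → φ (z T) ∈ V p := by
    intro T p hp hpT
    apply hV p (hP₃P p hp)
    intro i hi
    refine lt_trans ?_ (hP₃ε p hp)
    by_cases hiR : i ∈ R
    · have h1 : z T i = ((c₀ ⟨i, hiR⟩ : ℚ) : ℝ) := by simp only [z, dif_pos hiR]
      have h2 := hc p ⟨i, hiR⟩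
      rw [hp.2, hroot p hp i hiR] at h2
      rw [h1]; exact h2
    · have h1 : z T i = p.2 i := by
        simp only [z, dif_neg hiR, hsel p hp i hi hiR, if_pos hpT]
      rw [h1]; simpa using hδ0
  -- the set A
  let A : Set K := {x | ∃ T : Set ((κ → ℝ) × (κ → ℝ)), T.Finite ∧ T ⊆ P₃ ∧ φ (z T) = x}
  have hx : ∃ x, x ∈ closure A ∩ ⋂ p : P₃, closure (V p) := by
    have := (isClosed_closure (s := A)).isCompact.inter_iInter_nonempty
      (fun p : P₃ => closure (V p)) (fun p => isClosed_closure) (by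
        intro u
        refine ⟨φ (z ((↑) '' (u : Set P₃))), subset_closure ⟨_, u.finite_toSet.image _, ?_, rfl⟩, ?_⟩
        · rintro _ ⟨p, _, rfl⟩
          exact p.2
        · simp only [mem_iInter]
          intro p hp
          exact subset_closure (hz2 _ p p.2 ⟨p, hp, rfl⟩))
    exact this
  obtain ⟨x, hxA, hxV⟩ := hx
  obtain ⟨C, hCA, hCc, hxC⟩ := ht A x hxA
  have hCA' : ∀ c ∈ C, ∃ T : Set ((κ → ℝ) × (κ → ℝ)), T.Finite ∧ T ⊆ P₃ ∧ φ (z T) = c :=
    fun c hc => hCA hc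
  choose! T hTfin hTsub hTφ using hCA'
  have hTc : (⋃ c ∈ C, T c).Countable := hCc.biUnion (fun c hc => (hTfin c hc).countable)
  obtain ⟨p, hp, hpT⟩ : ∃ p ∈ P₃, p ∉ ⋃ c ∈ C, T c := by
    by_contra h
    push Not at h
    exact hP₃unc (hTc.mono h)
  have hCU : C ⊆ U p := by
    intro c hc
    rw [← hTφ c hc]
    apply hz1 _ p hp
    intro h
    exact hpT (mem_biUnion hc h)
  have h1 : x ∈ closure (U p) := closure_mono hCU hxC
  have h2 : x ∈ closure (V p) := by
    have := mem_iInter.1 hxV ⟨p, hp⟩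
    exact this
  exact Set.disjoint_left.1 (hUV p (hP₃P p hp)) h1 h2

/-- The image is cosmic. -/
theorem image_cosmic [CompactSpace K] [T2Space K]
    (ht : ∀ (A : Set K) (x : K), x ∈ closure A → ∃ C : Set K, C ⊆ A ∧ C.Countable ∧ x ∈ closure C)
    {φ : (κ → ℝ) → K} (hφ : Continuous φ) :
    ∃ 𝒩 : Set (Set K), 𝒩.Countable ∧ (∀ N ∈ 𝒩, N ⊆ Set.range φ) ∧
      ∀ x ∈ Set.range φ, ∀ U : Set K, IsOpen U → x ∈ U →
        ∃ N ∈ 𝒩, x ∈ N ∧ N ⊆ U := by
  classical
  obtain ⟨B, hB, hdep⟩ := depends_countable ht hφ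
  have : Countable B := hB.to_subtype
  let e : (B → ℝ) → (κ → ℝ) := fun w i => if h : i ∈ B then w ⟨i, h⟩ else 0
  have he : Continuous e := by
    refine continuous_pi (fun i => ?_)
    by_cases h : i ∈ B
    · simp only [e, dif_pos h]; exact continuous_apply _
    · simp only [e, dif_neg h]; exact continuous_const
  have hψ : Continuous (φ ∘ e) := hφ.comp he
  refine ⟨(fun s => (φ ∘ e) '' s) '' TopologicalSpace.countableBasis (B → ℝ),
    (TopologicalSpace.countable_countableBasis _).image _, ?_, ?_⟩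
  · rintro _ ⟨s, _, rfl⟩
    rintro _ ⟨w, _, rfl⟩
    exact ⟨e w, rfl⟩
  · rintro _ ⟨y, rfl⟩ W hW hyW
    have hy : φ (e (fun i : B => y i)) = φ y := by
      apply hdep
      intro i hi
      simp [e, hi]
    have hmem : (fun i : B => y i) ∈ (φ ∘ e) ⁻¹' W := by
      change φ (e (fun i : B => y i)) ∈ W
      rw [hy]; exact hyW
    obtain ⟨s, hs, hys, hsW⟩ := (TopologicalSpace.isBasis_countableBasis (B → ℝ)).exists_subset_of_mem_open
      hmem (hW.preimage hψ)
    exact ⟨_, ⟨s, hs, rfl⟩, ⟨_, hys, hy⟩, image_subset_iff.2 hsW⟩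

end Pool.Agent.LibHelper99.Tight
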